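import Mathlib

/-!
# Quotients of polynomials with few terms

In the group ring of a torsion free group over a field of characteristic zero, if
`x ^ R * z' = y ^ R * z` and `z`, `z'` have at most `R` terms, then `x` and `y` differ by a
monomial factor.
-/

set_option autoImplicit false

namespace Pool.Agent.N333.Alg

open Polynomial Finset

variable {k : Type*} [Field k] [CharZero k]

omit [CharZero k] in
lemma card_X_pow_mul (n : ℕ) (w : k[X]) : (X ^ n * w).support.card = w.support.card := by
  symm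
  refine Finset.card_bij (fun i _ => i + n) ?_ ?_ ?_
  · intro i hi
    rw [mem_support_iff] at hi ⊢
    rw [coeff_X_pow_mul]
    exact hi
  · intro i _ j _ h
    exact Nat.add_right_cancel h
  · intro j hj
    rw [mem_support_iff, coeff_X_pow_mul'] at hj
    split_ifs at hj with h
    · exact ⟨j - n, by rwa [mem_support_iff], Nat.sub_add_cancel h⟩
    · exact absurd rfl hj

omit [CharZero k] in
lemma card_derivative_lt (w : k[X]) (h0 : w.coeff 0 ≠ 0) :
    w.derivative.support.card + 1 ≤ w.support.card := by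
  have h1 : (0 : ℕ) ∈ w.support := mem_support_iff.2 h0
  rw [← Finset.card_erase_add_one h1]
  refine Nat.add_le_add_right ?_ 1
  refine Finset.card_le_card_of_injOn (fun i => i + 1) ?_ ?_
  · intro i hi
    rw [Finset.mem_coe, mem_support_iff, coeff_derivative] at hi
    rw [Finset.mem_coe, Finset.mem_erase, mem_support_iff]
    exact ⟨Nat.succ_ne_zero i, fun h => hi (by rw [h, zero_mul])⟩
  · intro i _ j _ h
    exact Nat.add_right_cancel h

/-- a polynomial divisible by `p ^ R` has at least `R + 1` terms -/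
theorem terms {p : k[X]} (hp : Irreducible p) (hX : ¬ p ∣ X) : ∀ (R : ℕ) (z : k[X]), z ≠ 0 →
    p ^ R ∣ z → R + 1 ≤ z.support.card := by
  intro R
  induction R with
  | zero =>
    intro z hz _
    rw [zero_add, Nat.one_le_iff_ne_zero, Finset.card_ne_zero, Polynomial.support_nonempty]
    exact hz
  | succ R ih =>
    intro z hz hdvd
    obtain ⟨w, hw, hw0⟩ := exists_eq_pow_rootMultiplicity_mul_and_not_dvd z hz 0
    rw [C_0, sub_zero] at hw hw0
    set n := rootMultiplicity 0 z with hn
    have hwne : w ≠ 0 := by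
      rintro rfl
      exact hw0 (dvd_zero _)
    have hpw : p ^ (R + 1) ∣ w := by
      rw [hw] at hdvd
      refine IsCoprime.dvd_of_dvd_mul_left ?_ hdvd
      refine IsCoprime.pow ?_
      exact (hp.coprime_iff_not_dvd).2 hX
    have hw00 : w.coeff 0 ≠ 0 := by
      intro h
      exact hw0 (X_dvd_iff.2 h)
    have hder : p ^ R ∣ w.derivative := by
      obtain ⟨s, rfl⟩ := hpw
      rw [derivative_mul, derivative_pow_succ]
      refine dvd_add ?_ ?_
      · exact ((Dvd.intro_left _ rfl).mul_right _).mul_right _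
      · exact (pow_dvd_pow p (Nat.le_succ R)).mul_right _
    have hne : w.derivative ≠ 0 := by
      intro h
      have h1 := derivative_eq_zero.1 h
      have h2 := natDegree_le_of_dvd ((dvd_pow_self p (Nat.succ_ne_zero R)).trans hpw) hwne
      have h3 := hp.natDegree_pos
      omega
    have h1 := ih _ hne hder
    have h2 := card_derivative_lt w hw00
    rw [hw, card_X_pow_mul]
    omega

/-- the univariate case -/
theorem unit_poly {R : ℕ} {x y z z' : k[X]} (hx : x ≠ 0) (hy : y ≠ 0) (hz : z ≠ 0)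
    (hz' : z' ≠ 0) (h : x ^ R * z' = y ^ R * z) (cz : z.support.card ≤ R)
    (cz' : z'.support.card ≤ R) : ∃ (κ : k) (a b : ℕ), κ ≠ 0 ∧ X ^ a * x = C κ * (X ^ b * y) := by
  classical
  -- a divisor of a polynomial with few terms to the power `R` is a monomial
  have key : ∀ (u t : k[X]), t ≠ 0 → t.support.card ≤ R → u ≠ 0 → u ^ R ∣ t →
      ∃ (c : k) (n : ℕ), c ≠ 0 ∧ u = C c * X ^ n := by
    intro u t ht hct hu hut
    obtain ⟨w, hw, hw0⟩ := exists_eq_pow_rootMultiplicity_mul_and_not_dvd u hu 0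
    rw [C_0, sub_zero] at hw hw0
    set n := rootMultiplicity 0 u with hn
    have hunit : IsUnit w := by
      by_contra hnu
      have hwne : w ≠ 0 := by
        rintro rfl
        exact hw0 (dvd_zero _)
      obtain ⟨p, hp, hpw⟩ := WfDvdMonoid.exists_irreducible_factor hnu hwne
      have hpX : ¬ p ∣ X := by
        intro hpX
        have h1 : Associated p X := (hp.associated_of_dvd irreducible_X hpX)
        exact hw0 (h1.symm.dvd.trans hpw)
      have h2 : p ^ R ∣ t := by
        refine (pow_dvd_pow_of_dvd ?_ R).trans hut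
        rw [hw]
        exact hpw.mul_left _
      have h3 := terms hp hpX R t ht h2
      omega
    obtain ⟨c, hc, rfl⟩ := Polynomial.isUnit_iff.1 hunit
    exact ⟨c, n, hc.ne_zero, by rw [hw, mul_comm]⟩
  obtain ⟨g, x1, y1, hcop, hx1, hy1⟩ : ∃ g x1 y1 : k[X], IsCoprime x1 y1 ∧ x = g * x1 ∧
      y = g * y1 := by
    obtain ⟨d, hd⟩ : ∃ d, d = EuclideanDomain.gcd x y := ⟨_, rfl⟩
    have hg : d ≠ 0 := by
      intro h0
      rw [hd] at h0
      exact hx (EuclideanDomain.gcd_eq_zero_iff.1 h0).1
    obtain ⟨x1, hx1⟩ := EuclideanDomain.gcd_dvd_left x y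
    obtain ⟨y1, hy1⟩ := EuclideanDomain.gcd_dvd_right x y
    have hab := EuclideanDomain.gcd_eq_gcd_ab x y
    rw [← hd] at hx1 hy1 hab
    refine ⟨d, x1, y1, ⟨EuclideanDomain.gcdA x y, EuclideanDomain.gcdB x y, ?_⟩, hx1, hy1⟩
    generalize EuclideanDomain.gcdA x y = a at hab
    generalize EuclideanDomain.gcdB x y = b at hab
    apply mul_left_cancel₀ hg
    calc d * (a * x1 + b * y1) = (d * x1) * a + (d * y1) * b := by ring
      _ = d * 1 := by rw [← hx1, ← hy1, ← hab, mul_one]
  have hg : g ≠ 0 := by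
    rintro rfl
    exact hx (by rw [hx1, zero_mul])
  have hx1' : x1 ≠ 0 := by
    rintro rfl
    exact hx (by rw [hx1, mul_zero])
  have hy1' : y1 ≠ 0 := by
    rintro rfl
    exact hy (by rw [hy1, mul_zero])
  have h1 : x1 ^ R * z' = y1 ^ R * z := by
    have hgR : g ^ R ≠ 0 := pow_ne_zero _ hg
    apply mul_left_cancel₀ hgR
    rw [hx1, hy1, mul_pow, mul_pow] at h
    linear_combination h
  have hd1 : x1 ^ R ∣ z :=
    IsCoprime.dvd_of_dvd_mul_left (IsCoprime.pow hcop) (Dvd.intro _ h1)
  have hd2 : y1 ^ R ∣ z' :=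
    IsCoprime.dvd_of_dvd_mul_left (IsCoprime.pow hcop.symm) (Dvd.intro _ h1.symm)
  obtain ⟨c, n, hc, hxn⟩ := key x1 z hz cz hx1' hd1
  obtain ⟨c', n', hc', hyn⟩ := key y1 z' hz' cz' hy1' hd2
  refine ⟨c / c', n', n, div_ne_zero hc hc', ?_⟩
  rw [hx1, hy1, hxn, hyn]
  have e : (C (c / c') : k[X]) * C c' = C c := by
    rw [← C_mul, div_mul_cancel₀ _ hc']
  calc X ^ n' * (g * (C c * X ^ n)) = C c * (X ^ n * (g * X ^ n')) := by ring
    _ = C (c / c') * C c' * (X ^ n * (g * X ^ n')) := by rw [e]
    _ = _ := by ring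

section grp

/-- polynomials as elements of the group ring of the rational numbers -/
noncomputable def io : k[X] →+* AddMonoidAlgebra k ℚ :=
  (AddMonoidAlgebra.mapDomainRingHom k (Nat.castAddMonoidHom ℚ)).comp
    (Polynomial.toFinsuppIso k).toRingHom

omit [CharZero k] in
lemma io_inj : Function.Injective (io (k := k)) := by
  intro a b h
  have h1 : AddMonoidAlgebra.mapDomain (Nat.castAddMonoidHom ℚ) (Polynomial.toFinsuppIso k a) =
      AddMonoidAlgebra.mapDomain (Nat.castAddMonoidHom ℚ) (Polynomial.toFinsuppIso k b) := h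
  have h2 := AddMonoidAlgebra.mapDomain_injective (R := k)
    (f := (Nat.castAddMonoidHom ℚ)) (fun x y hxy => by simpa using hxy) h1
  exact (Polynomial.toFinsuppIso k).injective h2

omit [CharZero k] in
lemma io_monomial (n : ℕ) (a : k) : io (monomial n a) = AddMonoidAlgebra.single (n : ℚ) a := by
  show AddMonoidAlgebra.mapDomain (Nat.castAddMonoidHom ℚ)
    (Polynomial.toFinsuppIso k (monomial n a)) = _
  have h : Polynomial.toFinsuppIso k (monomial n a) = AddMonoidAlgebra.single n a :=
    toFinsupp_monomial n a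
  rw [h, AddMonoidAlgebra.mapDomain_single]
  rfl

variable {G : Type*} [AddCommGroup G] [Module ℚ G]

/-- a generic functional, integral on a finite set -/
lemma exists_phi (T : Finset G) : ∃ (φ : G →+ ℚ) (n : G → ℕ) (M : ℚ), (∀ s ∈ T, (n s : ℚ) = φ s + M) ∧
    ∀ a ∈ T, ∀ b ∈ T, ∀ c ∈ T, ∀ d ∈ T, φ (a - b) = φ (c - d) → a - b = c - d := by
  classical
  set D : Finset G := ((((T ×ˢ T) ×ˢ (T ×ˢ T)).image fun p => (p.1.1 - p.1.2) - (p.2.1 - p.2.2))).erase
    0 with hD
  obtain ⟨f, hf⟩ := Module.exists_dual_forall_apply_ne_zero (K := ℚ) (M := G) (ι := D)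
    (fun i => (i : G)) (fun i => Finset.ne_of_mem_erase i.2)
  set N : ℕ := ∏ s ∈ T, (f s).den with hN
  have hN0 : N ≠ 0 := Finset.prod_ne_zero_iff.2 fun s _ => (f s).den_ne_zero
  set φ : G →+ ℚ := N • f.toAddMonoidHom with hφ
  have hφa : ∀ s, φ s = N * f s := by
    intro s
    simp [hφ]
  have hint : ∀ s ∈ T, ∃ z : ℤ, (z : ℚ) = φ s := by
    intro s hs
    obtain ⟨w, hw⟩ := Finset.dvd_prod_of_mem (fun s => (f s).den) hs
    refine ⟨w * (f s).num, ?_⟩
    rw [hφa, hN, hw]
    have h1 : ((f s).den : ℚ) * f s = (f s).num := by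
      rw [mul_comm]
      exact Rat.mul_den_eq_num _
    push_cast
    linear_combination (-(w : ℚ)) * h1
  choose! z hz using hint
  refine ⟨φ, fun s => (z s + ∑ r ∈ T, |z r|).toNat, ((∑ r ∈ T, |z r| : ℤ) : ℚ), ?_, ?_⟩
  · intro s hs
    have h1 : |z s| ≤ ∑ r ∈ T, |z r| :=
      Finset.single_le_sum (f := fun r => |z r|) (fun r _ => abs_nonneg _) hs
    have h2 := neg_abs_le (z s)
    have h3 : (((z s + ∑ r ∈ T, |z r|).toNat : ℤ)) = z s + ∑ r ∈ T, |z r| :=
      Int.toNat_of_nonneg (by omega)
    have h4 : ((((z s + ∑ r ∈ T, |z r|).toNat : ℕ) : ℤ) : ℚ) = ((z s + ∑ r ∈ T, |z r| : ℤ) : ℚ) :=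
      congrArg (fun t : ℤ => (t : ℚ)) h3
    rw [Int.cast_natCast] at h4
    rw [h4, Int.cast_add, hz s hs]
  · intro a ha b hb c hc d hd h
    by_contra hne
    have h0 : (a - b) - (c - d) ≠ 0 := fun h => hne (sub_eq_zero.1 h)
    have hmem : (a - b) - (c - d) ∈ D := by
      rw [hD, Finset.mem_erase]
      refine ⟨h0, Finset.mem_image.2 ⟨((a, b), (c, d)), ?_, rfl⟩⟩
      simp [ha, hb, hc, hd]
    have h1 := hf ⟨_, hmem⟩
    apply h1
    rw [hφa, hφa] at h
    have h2 := mul_left_cancel₀ (Nat.cast_ne_zero.2 hN0) h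
    simp only [map_sub] at h2 ⊢
    linarith

omit [CharZero k] [AddCommGroup G] [Module ℚ G] in
lemma grp_sum (w : AddMonoidAlgebra k G) :
    w = ∑ g ∈ w.coeff.support, AddMonoidAlgebra.single g (w.coeff g) := by
  classical
  apply AddMonoidAlgebra.coeff_injective
  ext x
  rw [AddMonoidAlgebra.coeff_sum, Finsupp.finsetSum_apply]
  by_cases hx : x ∈ w.coeff.support
  · rw [Finset.sum_eq_single x]
    · rw [AddMonoidAlgebra.coeff_single, Finsupp.single_eq_same]
    · intro b _ hb
      rw [AddMonoidAlgebra.coeff_single, Finsupp.single_eq_of_ne (Ne.symm hb)]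
    · intro h; exact absurd hx h
  · rw [Finset.sum_eq_zero]
    · exact Finsupp.notMem_support_iff.1 hx
    · intro b hb
      rw [AddMonoidAlgebra.coeff_single, Finsupp.single_eq_of_ne]
      rintro rfl; exact hx hb

/-- the polynomial attached to an element of the group ring -/
noncomputable def pol (n : G → ℕ) (w : AddMonoidAlgebra k G) : k[X] :=
  ∑ g ∈ w.coeff.support, monomial (n g) (w.coeff g)

omit [CharZero k] [Module ℚ G] in
lemma io_pol {φ : G →+ ℚ} {n : G → ℕ} {M : ℚ} {T : Finset G} (hn : ∀ s ∈ T, (n s : ℚ) = φ s + M)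
    (w : AddMonoidAlgebra k G) (hw : w.coeff.support ⊆ T) :
    io (pol n w) = AddMonoidAlgebra.mapDomainRingHom k φ w * AddMonoidAlgebra.single M 1 := by
  unfold pol
  rw [map_sum]
  conv_rhs => rw [grp_sum w]
  rw [map_sum, Finset.sum_mul]
  refine Finset.sum_congr rfl fun g hg => ?_
  rw [io_monomial, hn g (hw hg)]
  show _ = AddMonoidAlgebra.mapDomain φ (AddMonoidAlgebra.single g (w.coeff g)) * _
  rw [AddMonoidAlgebra.mapDomain_single, AddMonoidAlgebra.single_mul_single, mul_one]

omit [CharZero k] [AddCommGroup G] [Module ℚ G] in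
lemma card_pol (n : G → ℕ) (w : AddMonoidAlgebra k G) :
    (pol n w).support.card ≤ w.coeff.support.card := by
  classical
  have h : (pol n w).support ⊆ w.coeff.support.image n := by
    intro i hi
    rw [mem_support_iff] at hi
    by_contra hno
    apply hi
    unfold pol
    rw [finsetSum_coeff]
    refine Finset.sum_eq_zero fun g hg => ?_
    rw [coeff_monomial, if_neg]
    rintro rfl
    exact hno (Finset.mem_image_of_mem n hg)
  exact (Finset.card_le_card h).trans Finset.card_image_le

/-- **quotients of elements with few terms** -/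
theorem unit_grp {R : ℕ} {x y z z' : AddMonoidAlgebra k G} (hx : x ≠ 0) (hy : y ≠ 0) (hz : z ≠ 0)
    (hz' : z' ≠ 0) (h : x ^ R * z' = y ^ R * z) (cz : z.coeff.support.card ≤ R)
    (cz' : z'.coeff.support.card ≤ R) :
    ∃ (κ : k) (v : G), κ ≠ 0 ∧ x = AddMonoidAlgebra.single v κ * y := by
  classical
  set T : Finset G := x.coeff.support ∪ y.coeff.support ∪ (z.coeff.support ∪ z'.coeff.support)
    with hT
  have hTx : x.coeff.support ⊆ T := by
    intro g hg; rw [hT]; simp only [Finset.mem_union]; exact Or.inl (Or.inl hg)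
  have hTy : y.coeff.support ⊆ T := by
    intro g hg; rw [hT]; simp only [Finset.mem_union]; exact Or.inl (Or.inr hg)
  have hTz : z.coeff.support ⊆ T := by
    intro g hg; rw [hT]; simp only [Finset.mem_union]; exact Or.inr (Or.inl hg)
  have hTz' : z'.coeff.support ⊆ T := by
    intro g hg; rw [hT]; simp only [Finset.mem_union]; exact Or.inr (Or.inr hg)
  obtain ⟨φ, n, M, hn, hinj⟩ := exists_phi T
  have hinjT : Set.InjOn φ (T : Set G) := by
    intro a ha b hb hab
    have := hinj a ha b hb b hb b hb (by rw [map_sub, map_sub, hab])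
    rwa [sub_self, sub_eq_zero] at this
  -- nonvanishing of the images
  have hne : ∀ w : AddMonoidAlgebra k G, w ≠ 0 → w.coeff.support ⊆ T → pol n w ≠ 0 := by
    intro w hw hwT h0
    have h1 := io_pol hn w hwT
    rw [h0, map_zero] at h1
    obtain ⟨s, hs⟩ : w.coeff.support.Nonempty := by
      rw [Finsupp.support_nonempty_iff]
      intro h2
      exact hw (AddMonoidAlgebra.coeff_injective h2)
    have h2 : (AddMonoidAlgebra.mapDomainRingHom k φ w).coeff (φ s) = w.coeff s := by
      show (Finsupp.mapDomain φ w.coeff) (φ s) = _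
      exact Finsupp.mapDomain_apply' (T : Set G) w.coeff (by exact_mod_cast hwT) hinjT (hwT hs)
    have h3 : AddMonoidAlgebra.mapDomainRingHom k φ w = 0 := by
      have h4 : AddMonoidAlgebra.mapDomainRingHom k φ w * AddMonoidAlgebra.single M 1 *
          AddMonoidAlgebra.single (-M) 1 = 0 := by rw [← h1, zero_mul]
      rwa [mul_assoc, AddMonoidAlgebra.single_mul_single, add_neg_cancel, one_mul,
        ← AddMonoidAlgebra.one_def, mul_one] at h4
    rw [h3] at h2
    exact Finsupp.mem_support_iff.1 hs h2.symm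
  have hpoly : (pol n x) ^ R * pol n z' = (pol n y) ^ R * pol n z := by
    apply io_inj
    rw [map_mul, map_mul, map_pow, map_pow, io_pol hn x hTx, io_pol hn y hTy, io_pol hn z hTz,
      io_pol hn z' hTz']
    have h1 := congrArg (AddMonoidAlgebra.mapDomainRingHom k φ) h
    rw [map_mul, map_mul, map_pow, map_pow] at h1
    rw [mul_pow, mul_pow]
    linear_combination ((AddMonoidAlgebra.single M (1 : k)) ^ R * AddMonoidAlgebra.single M 1) * h1
  obtain ⟨κ, a, b, hκ, hab⟩ := unit_poly (hne x hx hTx) (hne y hy hTy) (hne z hz hTz)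
    (hne z' hz' hTz') hpoly ((card_pol n z).trans cz) ((card_pol n z').trans cz')
  -- back to the group ring of the rationals
  set mx := AddMonoidAlgebra.mapDomainRingHom k φ x with hmx
  set my := AddMonoidAlgebra.mapDomainRingHom k φ y with hmy
  have hC : io (C κ : k[X]) = AddMonoidAlgebra.single 0 κ := by
    have := io_monomial 0 κ
    rw [monomial_zero_left] at this
    rw [this, Nat.cast_zero]
  have hXp : ∀ j : ℕ, io (X ^ j : k[X]) = AddMonoidAlgebra.single (j : ℚ) 1 := by
    intro j
    rw [X_pow_eq_monomial, io_monomial]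
  have hrel : mx = AddMonoidAlgebra.single ((b : ℚ) - a) κ * my := by
    have h1 := congrArg io hab
    rw [map_mul, map_mul, map_mul, hXp, hXp, hC, io_pol hn x hTx, io_pol hn y hTy, ← hmx, ← hmy]
      at h1
    have e1 : (AddMonoidAlgebra.single (a : ℚ) (1 : k)) * AddMonoidAlgebra.single (-(a : ℚ)) 1 = 1 := by
      rw [AddMonoidAlgebra.single_mul_single, add_neg_cancel, one_mul, ← AddMonoidAlgebra.one_def]
    have e2 : (AddMonoidAlgebra.single M (1 : k)) * AddMonoidAlgebra.single (-M) 1 = 1 := by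
      rw [AddMonoidAlgebra.single_mul_single, add_neg_cancel, one_mul, ← AddMonoidAlgebra.one_def]
    have e3 : (AddMonoidAlgebra.single ((b : ℚ) - a) κ) = AddMonoidAlgebra.single 0 κ *
        AddMonoidAlgebra.single (b : ℚ) (1 : k) * AddMonoidAlgebra.single (-(a : ℚ)) 1 := by
      rw [AddMonoidAlgebra.single_mul_single, AddMonoidAlgebra.single_mul_single, mul_one, mul_one]
      congr 1
      ring
    calc mx = (AddMonoidAlgebra.single (a : ℚ) (1 : k) * AddMonoidAlgebra.single (-(a : ℚ)) 1) *
          (AddMonoidAlgebra.single M (1 : k) * AddMonoidAlgebra.single (-M) 1) * mx := by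
            rw [e1, e2, one_mul, one_mul]
      _ = AddMonoidAlgebra.single (-(a : ℚ)) 1 * AddMonoidAlgebra.single (-M) 1 *
          (AddMonoidAlgebra.single (a : ℚ) (1 : k) * (mx * AddMonoidAlgebra.single M (1 : k))) := by
            ring
      _ = AddMonoidAlgebra.single 0 κ * AddMonoidAlgebra.single (b : ℚ) (1 : k) *
          AddMonoidAlgebra.single (-(a : ℚ)) 1 *
          (AddMonoidAlgebra.single M (1 : k) * AddMonoidAlgebra.single (-M) 1) * my := by
            rw [h1]; ring
      _ = _ := by rw [e2, mul_one, e3]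
  have hcoef : ∀ r : ℚ, mx.coeff r = κ * my.coeff (r - ((b : ℚ) - a)) := by
    intro r
    rw [hrel]
    exact AddMonoidAlgebra.coeff_single_mul_eq_mul_coeff _ (fun m' _ =>
      ⟨fun h => by linarith, fun h => by linarith⟩)
  obtain ⟨s0, hs0⟩ : x.coeff.support.Nonempty := by
    rw [Finsupp.support_nonempty_iff]
    intro h2
    exact hx (AddMonoidAlgebra.coeff_injective h2)
  have hxs0 : mx.coeff (φ s0) = x.coeff s0 :=
    Finsupp.mapDomain_apply' (T : Set G) x.coeff (by exact_mod_cast hTx) hinjT (hTx hs0)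
  have hys0 : my.coeff (φ s0 - ((b : ℚ) - a)) ≠ 0 := by
    intro h0
    have h1 := hcoef (φ s0)
    rw [h0, mul_zero, hxs0] at h1
    exact Finsupp.mem_support_iff.1 hs0 h1
  obtain ⟨s1, hs1, hs1'⟩ : ∃ s1 ∈ y.coeff.support, φ s1 = φ s0 - ((b : ℚ) - a) := by
    have h1 : φ s0 - ((b : ℚ) - a) ∈ (Finsupp.mapDomain φ y.coeff).support :=
      Finsupp.mem_support_iff.2 hys0
    have h2 := Finsupp.mapDomain_support h1
    obtain ⟨s1, h3, h4⟩ := Finset.mem_image.1 h2
    exact ⟨s1, h3, h4⟩
  refine ⟨κ, s0 - s1, hκ, ?_⟩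
  rw [← sub_eq_zero]
  set w := x - AddMonoidAlgebra.single (s0 - s1) κ * y with hw
  have hmw : AddMonoidAlgebra.mapDomainRingHom k φ w = 0 := by
    rw [hw, map_sub, map_mul, ← hmx, ← hmy, sub_eq_zero, hrel]
    congr 1
    show _ = AddMonoidAlgebra.mapDomain φ (AddMonoidAlgebra.single (s0 - s1) κ)
    rw [AddMonoidAlgebra.mapDomain_single, map_sub, hs1']
    congr 1
    ring
  set T' : Set G := (x.coeff.support : Set G) ∪ (fun g => (s0 - s1) + g) '' (y.coeff.support : Set G)
    with hT'
  have hwT' : (w.coeff.support : Set G) ⊆ T' := by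
    intro g hg
    rw [Finset.mem_coe, Finsupp.mem_support_iff] at hg
    by_contra hno
    apply hg
    rw [hT', Set.mem_union, not_or] at hno
    have e1 : (AddMonoidAlgebra.single (s0 - s1) κ * y).coeff g =
        κ * y.coeff (-(s0 - s1) + g) :=
      AddMonoidAlgebra.coeff_single_mul_eq_mul_coeff _ (fun m' _ =>
        ⟨fun h => by rw [← h]; abel, fun h => by rw [h]; abel⟩)
    rw [hw, AddMonoidAlgebra.coeff_sub, Finsupp.sub_apply, e1]
    have h1 : x.coeff g = 0 := by
      by_contra h
      exact hno.1 (Finsupp.mem_support_iff.2 h)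
    have h2 : y.coeff (-(s0 - s1) + g) = 0 := by
      by_contra h
      exact hno.2 ⟨-(s0 - s1) + g, Finsupp.mem_support_iff.2 h, add_neg_cancel_left _ _⟩
    rw [h1, h2, mul_zero, sub_zero]
  have hinj' : Set.InjOn φ T' := by
    intro p hp q hq hpq
    rcases hp with hp | ⟨p, hp, rfl⟩ <;> rcases hq with hq | ⟨q, hq, rfl⟩
    · exact hinjT (hTx hp) (hTx hq) hpq
    · have := hinj p (hTx hp) s0 (hTx hs0) q (hTy hq) s1 (hTy hs1) (by
        simp only [map_sub, map_add] at hpq ⊢
        linarith)
      simp only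
      rw [sub_eq_iff_eq_add] at this
      rw [this]
      abel
    · have := hinj q (hTx hq) s0 (hTx hs0) p (hTy hp) s1 (hTy hs1) (by
        simp only [map_sub, map_add] at hpq ⊢
        linarith)
      simp only
      rw [sub_eq_iff_eq_add] at this
      rw [this]
      abel
    · have : p = q := hinjT (hTy hp) (hTy hq) (by
        simp only [map_sub, map_add] at hpq
        linarith)
      rw [this]
  apply AddMonoidAlgebra.coeff_injective
  have h5 : (Finsupp.mapDomain φ w.coeff) = Finsupp.mapDomain φ (0 : G →₀ k) := by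
    rw [Finsupp.mapDomain_zero]
    exact congrArg AddMonoidAlgebra.coeff hmw
  exact Finsupp.mapDomain_injOn T' hinj' hwT' (by simp) h5

end grp

end Pool.Agent.N333.Alg
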