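import Mathlib

/-!
# Combinatorics of dense sets of integers
-/

set_option autoImplicit false

namespace Pool.Agent.N333.Comb

open Finset

/-- a dense set has a difference whose `R`-th multiple is a difference as well -/
theorem comb (T : Finset ℕ) (K R s r : ℕ) (hK : ∀ k ∈ T, k ≤ K)
    (hsz : (K + r * s + 1) * (K + R * (r * s) + 1) < r * T.card ^ 2) :
    ∃ a c t, s ≤ t ∧ t ≤ r * s ∧ a ∈ T ∧ a + t ∈ T ∧ c ∈ T ∧ c + R * t ∈ T := by
  classical
  have hcard : (range (K + r * s + 1) ×ˢ range (K + R * (r * s) + 1)).card <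
      (range r ×ˢ (T ×ˢ T)).card := by
    simp only [card_product, card_range]
    calc _ < r * T.card ^ 2 := hsz
      _ = _ := by ring
  obtain ⟨x, hx, y, hy, hne, hxy⟩ := exists_ne_map_eq_of_card_lt_of_maps_to hcard
    (f := fun x : ℕ × ℕ × ℕ => (x.2.1 + x.1 * s, x.2.2 + R * (x.1 * s))) (by
      intro x hx
      simp only [coe_product, Set.mem_prod, mem_coe, mem_range] at hx ⊢
      obtain ⟨h1, h2, h3⟩ := hx
      have h4 := hK _ h2
      have h5 := hK _ h3
      have h6 : x.1 * s ≤ r * s := Nat.mul_le_mul_right s h1.le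
      have h7 : R * (x.1 * s) ≤ R * (r * s) := Nat.mul_le_mul_left R h6
      omega)
  have main : ∀ x y : ℕ × ℕ × ℕ, x ∈ range r ×ˢ (T ×ˢ T) → y ∈ range r ×ˢ (T ×ˢ T) →
      x.1 < y.1 → (x.2.1 + x.1 * s, x.2.2 + R * (x.1 * s)) =
      (y.2.1 + y.1 * s, y.2.2 + R * (y.1 * s)) →
      ∃ a c t, s ≤ t ∧ t ≤ r * s ∧ a ∈ T ∧ a + t ∈ T ∧ c ∈ T ∧ c + R * t ∈ T := by
    rintro ⟨i, k, k'⟩ ⟨j, l, l'⟩ hx hy hij h
    simp only [mem_product, mem_range, Prod.mk.injEq] at hx hy h hij
    obtain ⟨d, rfl⟩ : ∃ d, j = i + d := ⟨j - i, by omega⟩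
    have hd : 1 ≤ d := by omega
    refine ⟨l, l', d * s, ?_, ?_, hy.2.1, ?_, hy.2.2, ?_⟩
    · calc s = 1 * s := (one_mul s).symm
        _ ≤ d * s := Nat.mul_le_mul_right s hd
    · exact Nat.mul_le_mul_right s (by omega)
    · have : l + d * s = k := by
        have h1 := h.1
        rw [add_mul] at h1
        omega
      rw [this]; exact hx.2.1
    · have : l' + R * (d * s) = k' := by
        have h1 := h.2
        rw [add_mul, mul_add] at h1
        omega
      rw [this]; exact hx.2.2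
  rcases lt_trichotomy x.1 y.1 with h | h | h
  · exact main x y hx hy h hxy
  · exfalso
    apply hne
    obtain ⟨i, k, k'⟩ := x
    obtain ⟨j, l, l'⟩ := y
    simp only [Prod.mk.injEq] at h hxy ⊢
    subst h
    exact ⟨rfl, by omega, by omega⟩
  · exact main y x hy hx h hxy.symm

end Pool.Agent.N333.Comb
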