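import Pool.Agent.N333.Rp

/-!
# The contradiction: a large power coprime to the base is not close to a unit of small height
-/

set_option autoImplicit false

namespace Pool.Agent.N333.Ge

open Filter Topology Pool.Agent.TH932.Abs Pool.Agent.TH932.Germs Pool.Agent.TH932.Chi
open Pool.Agent.TH796.AL Pool.Agent.TH932.Scale

variable {m : ℕ} {L : ℕ → ℝ}

theorem contra (B : Base m) (hL : Tendsto L atTop atTop) {σ c : ℝ} (hc : 0 < c)
    (Q E : ℕ → ℕ) (hcop : ∀ᶠ n in (UU : Filter ℕ), ∀ j, Nat.Coprime (Q n) (B.P j))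
    (hQ : ∀ᶠ n in (UU : Filter ℕ), 1 ≤ Q n)
    (hbig : ∀ᶠ n in (UU : Filter ℕ), c * L n ≤ E n * Real.log (Q n))
    (κ : KK L hL) (hκ : κ ≠ 0) (v : Fin m → ℝ) (hv : ∑ j, |v j| * Real.log (B.P j) < σ)
    (h : C1 L σ (gm (fun n => (Q n : ℚ) ^ (E n)) * (κ : GG) * ch B hL v)) : False := by
  classical
  obtain ⟨M, D, hM, hD, hD0, hg⟩ := κ.2
  have hM0 : ∀ᶠ n in (UU : Filter ℕ), M n ≠ 0 := by
    have h1 : gm (fun n => (M n : ℚ) / D n) ≠ 0 := by
      rw [← hg]
      exact fun h2 => hκ (Subtype.ext h2)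
    rw [gm_ne_zero] at h1
    filter_upwards [h1] with n hn h2
    apply hn
    rw [h2]
    simp
  set ξ := σ - ∑ j, |v j| * Real.log (B.P j) with hξ
  have hξ0 : 0 < ξ := by rw [hξ]; linarith
  set ε := min (ξ / 8) (c / 2) with hε
  have hε0 : 0 < ε := lt_min (by positivity) (by positivity)
  have hεξ : 8 * ε ≤ ξ := by
    have := min_le_left (ξ / 8) (c / 2)
    rw [← hε] at this
    linarith
  have hεc : ε ≤ c / 2 := min_le_right _ _
  have hfl : ∀ᶠ n in (UU : Filter ℕ), ∀ j, |((⌊ell hL (v j) n⌋ : ℤ) : ℝ) - v j * L n| ≤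
      ε / ((m + 1) * Real.log (B.P j)) * L n := by
    rw [Filter.eventually_all]
    intro j
    have := B.log_pos j
    exact ev_of_atTop (fl_near hL (v j) (by positivity))
  rw [hg, ch_eq, gm_mul, gm_mul] at h
  unfold C1 at h
  rw [← gm_one, gm_sub, mem_SS] at h
  obtain ⟨n, h1, h2, h3, h4, h5, h6, h7, h8, h9, h10⟩ := ((h ε hε0).and (hM0.and (hD0.and
    ((hD ε hε0).and (hfl.and (hcop.and (hQ.and (hbig.and ((ev_of_atTop
    (hL.eventually_gt_atTop (Real.log 2 / ε))).and (L_nonneg hL)))))))))).exists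
  set k : Fin m → ℤ := fun j => ⌊ell hL (v j) n⌋ with hk
  set W : ℤ := D n * ∏ j, (B.P j : ℤ) ^ (-(k j)).toNat with hW
  set Y : ℤ := (Q n : ℤ) ^ (E n) * M n * ∏ j, (B.P j : ℤ) ^ (k j).toNat with hY
  have hL1 : Real.log 2 < ε * L n := by
    rw [div_lt_iff₀ hε0] at h9
    linarith
  have hzp : ∀ j, (B.P j : ℝ) ^ (k j) * (B.P j : ℝ) ^ (-(k j)).toNat =
      (B.P j : ℝ) ^ (k j).toNat := by
    intro j
    have h0 := (B.r0 j).ne'
    rw [← zpow_natCast, ← zpow_natCast, ← zpow_add₀ h0]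
    congr 1
    omega
  have hDr : (D n : ℝ) ≠ 0 := by exact_mod_cast h3
  have hYW : (Y : ℝ) - W = W * (((Q n : ℝ) ^ (E n) * ((M n : ℝ) / D n) *
      ∏ j, (B.P j : ℝ) ^ (k j)) - 1) := by
    rw [hY, hW]
    push_cast
    have e : ∏ j, (B.P j : ℝ) ^ (k j).toNat = (∏ j, (B.P j : ℝ) ^ (k j)) *
        ∏ j, (B.P j : ℝ) ^ (-(k j)).toNat := by
      rw [← Finset.prod_mul_distrib]
      exact Finset.prod_congr rfl fun j _ => (hzp j).symm
    rw [e]
    field_simp
  have hWle : |(W : ℝ)| ≤ Real.exp ((σ - 6 * ε) * L n) := by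
    rw [hW]
    push_cast
    rw [abs_mul, Finset.abs_prod]
    have e1 : ∀ j, |(B.P j : ℝ) ^ (-(k j)).toNat| ≤
        Real.exp (|v j| * Real.log (B.P j) * L n + ε / (m + 1) * L n) := by
      intro j
      have hlp := B.log_pos j
      rw [abs_pow, Nat.abs_cast, ← Real.rpow_natCast, Real.rpow_def_of_pos (B.r0 j)]
      apply Real.exp_le_exp.2
      have h11 := (abs_le.1 (h5 j)).1
      have h12 : (((-(k j)).toNat : ℕ) : ℝ) ≤ |v j| * L n + ε / ((m + 1) * Real.log (B.P j)) * L n := by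
        have h13 : 0 ≤ |v j| * L n + ε / ((m + 1) * Real.log (B.P j)) * L n := by positivity
        rcases le_total (-(k j)) 0 with h14 | h14
        · rw [Int.toNat_of_nonpos h14]
          simpa using h13
        · have h15 : (((-(k j)).toNat : ℤ) : ℝ) = -(k j : ℝ) := by
            rw [Int.toNat_of_nonneg h14]
            push_cast
            ring
          rw [Int.cast_natCast] at h15
          rw [h15]
          have h16 := neg_abs_le (v j)
          have h17 : -(|v j|) * L n ≤ v j * L n := mul_le_mul_of_nonneg_right h16 h10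
          linarith
      calc Real.log (B.P j) * (((-(k j)).toNat : ℕ) : ℝ)
          ≤ Real.log (B.P j) * (|v j| * L n + ε / ((m + 1) * Real.log (B.P j)) * L n) :=
            mul_le_mul_of_nonneg_left h12 hlp.le
        _ = _ := by field_simp
    calc |(D n : ℝ)| * ∏ j, |(B.P j : ℝ) ^ (-(k j)).toNat|
        ≤ Real.exp (ε * L n) * ∏ j, Real.exp (|v j| * Real.log (B.P j) * L n +
            ε / (m + 1) * L n) := by
          refine mul_le_mul h4 ?_ (Finset.prod_nonneg fun _ _ => abs_nonneg _)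
            (Real.exp_pos _).le
          exact Finset.prod_le_prod (fun _ _ => abs_nonneg _) fun j _ => e1 j
      _ = Real.exp (ε * L n + ((∑ j, |v j| * Real.log (B.P j)) * L n +
            m * (ε / (m + 1) * L n))) := by
          rw [← Real.exp_sum, ← Real.exp_add, Finset.sum_add_distrib, ← Finset.sum_mul]
          simp
      _ ≤ Real.exp ((σ - 6 * ε) * L n) := by
          apply Real.exp_le_exp.2
          have e2 : (m : ℝ) * (ε / (m + 1) * L n) ≤ ε * L n := by
            have e3 : (m : ℝ) * (ε / (m + 1) * L n) = (m / (m + 1)) * (ε * L n) := by ring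
            rw [e3]
            apply mul_le_of_le_one_left (by positivity)
            rw [div_le_one (by positivity)]
            linarith
          have e4 : (∑ j, |v j| * Real.log (B.P j)) = σ - ξ := by rw [hξ]; ring
          rw [e4]
          nlinarith
  have hlt : |(Y : ℝ) - W| < 1 := by
    rw [hYW, abs_mul]
    unfold Rinf at h1
    push_cast at h1
    calc |(W : ℝ)| * |((Q n : ℝ) ^ (E n) * ((M n : ℝ) / D n) * ∏ j, (B.P j : ℝ) ^ (k j)) - 1|
        ≤ Real.exp ((σ - 6 * ε) * L n) * Real.exp (-(σ - ε) * L n) :=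
          mul_le_mul hWle h1 (abs_nonneg _) (Real.exp_pos _).le
      _ = Real.exp (-(5 * (ε * L n))) := by
          rw [← Real.exp_add]
          ring_nf
      _ < 1 := by
          rw [Real.exp_lt_one_iff]
          have : 0 < Real.log 2 := Real.log_pos (by norm_num)
          linarith
  have heq : Y = W := by
    have h11 : |((Y - W : ℤ) : ℝ)| < 1 := by
      push_cast
      exact hlt
    have h12 : |Y - W| < 1 := by exact_mod_cast h11
    have := Int.abs_lt_one_iff.1 h12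
    omega
  have hdvd : (Q n : ℤ) ^ (E n) ∣ D n := by
    have h11 : (Q n : ℤ) ^ (E n) ∣ D n * ∏ j, (B.P j : ℤ) ^ (-(k j)).toNat := by
      rw [← hW, ← heq, hY, mul_assoc]
      exact Dvd.intro _ rfl
    refine IsCoprime.dvd_of_dvd_mul_right ?_ h11
    refine IsCoprime.pow_left ?_
    refine IsCoprime.prod_right fun j _ => ?_
    exact IsCoprime.pow_right (Nat.isCoprime_iff_coprime.2 (h6 j))
  have h11 := Int.le_of_dvd (abs_pos.2 h3) ((dvd_abs _ _).2 hdvd)
  have h12 : ((Q n : ℝ)) ^ (E n) ≤ |(D n : ℝ)| := by exact_mod_cast h11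
  have hQ0 : (0 : ℝ) < Q n := by exact_mod_cast h7
  have h13 : Real.exp (c * L n) ≤ Real.exp (ε * L n) := by
    calc Real.exp (c * L n) ≤ Real.exp (E n * Real.log (Q n)) := Real.exp_le_exp.2 h8
      _ = (Q n : ℝ) ^ (E n) := by
          rw [← Real.rpow_natCast, Real.rpow_def_of_pos hQ0, mul_comm]
      _ ≤ |(D n : ℝ)| := h12
      _ ≤ _ := h4
  have h14 := Real.exp_le_exp.1 h13
  have h15 : 0 < Real.log 2 := Real.log_pos (by norm_num)
  have h16 : 0 < L n := by
    have : 0 < ε * L n := by linarith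
    exact (mul_pos_iff_of_pos_left hε0).1 this
  nlinarith

/-- two members of a bounded sequence are close to each other -/
lemma comp (n0 : ℕ) (i : ℕ → ℕ) (hi : ∀ j, i j < n0) (v : ℕ → Fin m → ℝ) (C : ℝ)
    (hv : ∀ j k, |v j k| ≤ C) (w : Fin m → ℝ) (hw : ∀ k, 0 ≤ w k) (σ : ℕ → ℝ)
    (hσ : ∀ j, 0 < σ j) :
    ∃ j j', j < j' ∧ i j = i j' ∧ ∑ k, |v j k - v j' k| * w k < σ (i j) := by
  classical
  have hfin : ∃ i0 ∈ Set.Iio n0, ∃ φ : ℕ → ℕ, StrictMono φ ∧ ∀ j, i (φ j) = i0 := by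
    have h1 : ∃ᶠ j in atTop, ∃ i0 ∈ Set.Iio n0, i j = i0 :=
      Frequently.of_forall fun j => ⟨i j, hi j, rfl⟩
    obtain ⟨i0, hi0, h2⟩ : ∃ i0 ∈ Set.Iio n0, ∃ᶠ j in atTop, i j = i0 := by
      by_contra hno
      push Not at hno
      have h3 : ∀ᶠ j in atTop, ∀ i0 ∈ Set.Iio n0, i j ≠ i0 := by
        rw [Filter.eventually_all_finite (Set.finite_Iio n0)]
        intro i0 hi0
        exact hno i0 hi0
      obtain ⟨j, hj⟩ := h3.exists
      exact hj (i j) (hi j) rfl
    obtain ⟨φ, hφ, h4⟩ := Filter.extraction_of_frequently_atTop h2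
    exact ⟨i0, hi0, φ, hφ, h4⟩
  obtain ⟨i0, -, φ, hφ, hφi⟩ := hfin
  have hb : Bornology.IsBounded (Set.range fun j => v (φ j)) := by
    refine (Metric.isBounded_closedBall (x := (0 : Fin m → ℝ)) (r := |C|)).subset ?_
    rintro _ ⟨j, rfl⟩
    rw [Metric.mem_closedBall, dist_zero_right, pi_norm_le_iff_of_nonneg (abs_nonneg _)]
    intro k
    rw [Real.norm_eq_abs]
    exact (hv _ k).trans (le_abs_self C)
  obtain ⟨a, -, ψ, hψ, hlim⟩ := tendsto_subseq_of_bounded hb
    (x := fun j => v (φ j)) (fun j => Set.mem_range_self j)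
  set A := ∑ k, w k with hA
  have hA0 : 0 ≤ A := Finset.sum_nonneg fun k _ => hw k
  have hpos : 0 < σ i0 / (2 * (A + 1)) := by
    have := hσ i0
    positivity
  have h1 := (Metric.tendsto_atTop.1 hlim) _ hpos
  obtain ⟨N, hN⟩ := h1
  refine ⟨φ (ψ N), φ (ψ (N + 1)), hφ (hψ (Nat.lt_succ_self N)), by rw [hφi, hφi], ?_⟩
  rw [hφi]
  have h2 : dist (v (φ (ψ N))) (v (φ (ψ (N + 1)))) < σ i0 / (A + 1) := by
    have h3 := hN N le_rfl
    have h4 := hN (N + 1) (Nat.le_succ N)
    simp only [Function.comp] at h3 h4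
    calc _ ≤ dist (v (φ (ψ N))) a + dist (v (φ (ψ (N + 1)))) a := dist_triangle_right _ _ _
      _ < σ i0 / (2 * (A + 1)) + σ i0 / (2 * (A + 1)) := add_lt_add h3 h4
      _ = σ i0 / (A + 1) := by field_simp; ring
  calc ∑ k, |v (φ (ψ N)) k - v (φ (ψ (N + 1))) k| * w k
      ≤ ∑ k, dist (v (φ (ψ N))) (v (φ (ψ (N + 1)))) * w k := by
        refine Finset.sum_le_sum fun k _ => mul_le_mul_of_nonneg_right ?_ (hw k)
        rw [← Real.dist_eq]
        exact dist_le_pi_dist _ _ k
    _ = dist (v (φ (ψ N))) (v (φ (ψ (N + 1)))) * A := by rw [← Finset.mul_sum]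
    _ ≤ σ i0 / (A + 1) * A := mul_le_mul_of_nonneg_right h2.le hA0
    _ < σ i0 := by
        rw [div_mul_eq_mul_div, div_lt_iff₀ (by positivity)]
        have := hσ i0
        nlinarith

end Pool.Agent.N333.Ge
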