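import Pool.Agent.N333.St
import Pool.Agent.N333.Ct
import Pool.Agent.N333.Comb

/-!
# Sums of few units in approximate geometric progressions

An approximate geometric progression whose ratio is small and coprime to `S` contains few integers
which are close to sums of few `S`-units with small coefficients, uniformly in the ratio.
-/

set_option autoImplicit false

namespace Pool.Agent.N333.Ge

open Filter Topology Pool.Agent.TH932.Abs Pool.Agent.TH932.Germs Pool.Agent.TH932.Chi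
open Pool.Agent.TH796.AL Pool.Agent.TH932.Scale

/-- `z` is close to a sum of `R` terms `a ∏ p ^ e p`, `p ∈ S`, with `|a| ≤ exp D`, `|e p| ≤ c X` -/
def Nr (S : Finset ℕ) (R : ℕ) (c D η X z : ℝ) : Prop :=
  ∃ (a : Fin R → ℤ) (e : Fin R → ℕ → ℤ), (∀ i, |(a i : ℝ)| ≤ Real.exp D) ∧
    (∀ i, ∀ p ∈ S, |(e i p : ℝ)| ≤ c * X) ∧
    |z - ∑ i, (a i : ℝ) * ∏ p ∈ S, (p : ℝ) ^ e i p| ≤ Real.exp (-(η * X)) * z

/-- the base of a finite set of primes -/
noncomputable def bS (S : Finset ℕ) (hS : ∀ p ∈ S, p.Prime) : Base S.card where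
  P i := S.orderEmbOfFin rfl i
  two i := (hS _ (S.orderEmbOfFin_mem rfl i)).two_le
  cop i j hij := Nat.isCoprime_iff_coprime.2 ((Nat.coprime_primes
    (hS _ (S.orderEmbOfFin_mem rfl i)) (hS _ (S.orderEmbOfFin_mem rfl j))).2
      (fun h => hij ((S.orderEmbOfFin rfl).injective h)))

lemma prod_bS (S : Finset ℕ) (hS : ∀ p ∈ S, p.Prime) (f : ℕ → ℝ) :
    ∏ j, f ((bS S hS).P j) = ∏ p ∈ S, f p := by
  conv_rhs => rw [← Finset.map_orderEmbOfFin_univ S rfl]
  rw [Finset.prod_map]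
  rfl

lemma Nr.nb {S : Finset ℕ} (hS : ∀ p ∈ S, p.Prime) {R : ℕ} {c D η X : ℝ} {z : ℚ}
    (h : Nr S R c D η X z) : NB (bS S hS) R c D η X z := by
  obtain ⟨a, e, h1, h2, h3⟩ := h
  refine ⟨a, fun i j => e i ((bS S hS).P j), h1, fun i j => h2 i _ (S.orderEmbOfFin_mem rfl j), ?_⟩
  have e1 : ∀ i : Fin R, ∏ j, ((bS S hS).P j : ℝ) ^ e i ((bS S hS).P j) =
      ∏ p ∈ S, (p : ℝ) ^ e i p := fun i => prod_bS S hS (fun p => (p : ℝ) ^ e i p)
  simp only [e1]
  exact h3

theorem UL (S : Finset ℕ) (hS : ∀ p ∈ S, p.Prime) (R : ℕ) (hR : 1 ≤ R) (c c' η κ θ : ℝ)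
    (hη : 0 < η) (hκ : 0 < κ) (hθ : 0 < θ) :
    ∃ δ : ℝ, 0 < δ ∧ ∃ X0 : ℝ, ∀ X : ℝ, X0 ≤ X → ∀ Q K : ℕ, 1 ≤ Q →
      (∀ p ∈ S, Nat.Coprime Q p) → Real.log Q ≤ δ * X → κ * X ≤ K * Real.log Q →
      ∀ (u : ℚ) (z : ℕ → ℚ), 0 < u →
      (∀ k ≤ K, 0 < z k ∧ 0 ≤ Real.log (z k) ∧ Real.log (z k) ≤ c' * X) →
      (∀ k ≤ K, |(Q : ℝ) ^ k * z k - u| ≤ Real.exp (-(η * X)) * u) →
      ∀ T : Finset ℕ, (∀ k ∈ T, k ≤ K ∧ Nr S R c (δ * X) η X (z k)) →
      (T.card : ℝ) ≤ θ * (K + 1) := by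
  classical
  by_contra hcon
  push Not at hcon
  have hcon' : ∀ n : ℕ, ∃ X : ℝ, (n + 1 : ℝ) ≤ X ∧ ∃ Q K : ℕ, 1 ≤ Q ∧
      (∀ p ∈ S, Nat.Coprime Q p) ∧ Real.log Q ≤ 1 / (n + 1 : ℝ) * X ∧ κ * X ≤ K * Real.log Q ∧
      ∃ (u : ℚ) (z : ℕ → ℚ), 0 < u ∧
      (∀ k ≤ K, 0 < z k ∧ 0 ≤ Real.log (z k) ∧ Real.log (z k) ≤ c' * X) ∧
      (∀ k ≤ K, |(Q : ℝ) ^ k * z k - u| ≤ Real.exp (-(η * X)) * u) ∧
      ∃ T : Finset ℕ, (∀ k ∈ T, k ≤ K ∧ Nr S R c (1 / (n + 1 : ℝ) * X) η X (z k)) ∧
      θ * (K + 1) < (T.card : ℝ) := fun n => hcon (1 / (n + 1 : ℝ)) (by positivity) (n + 1)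
  choose X hX Q K hQ1 hcop hlogQ hKQ u z hu hz hzu T hT hTc using hcon'
  have hXt : Tendsto X atTop atTop := by
    refine tendsto_atTop_mono (fun n => (?_ : (n : ℝ) ≤ X n)) tendsto_natCast_atTop_atTop
    have := hX n
    linarith
  have hX0 : ∀ n, 0 < X n := fun n => lt_of_lt_of_le (by positivity) (hX n)
  -- the coefficients are negligible
  have hD : near X (fun n => 1 / (n + 1 : ℝ) * X n) 0 := by
    intro ε hε
    apply ev_of_atTop
    obtain ⟨N, hN⟩ := exists_nat_gt (1 / ε)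
    filter_upwards [eventually_ge_atTop N] with n hn
    rw [zero_mul, sub_zero, abs_of_pos (mul_pos (by positivity) (hX0 n))]
    refine mul_le_mul_of_nonneg_right ?_ (hX0 n).le
    rw [div_le_iff₀ (by positivity)]
    have h1 : (N : ℝ) ≤ n := by exact_mod_cast hn
    rw [div_lt_iff₀ hε] at hN
    nlinarith
  -- the progressions are long
  have hKbig : ∀ C : ℝ, ∀ᶠ n in atTop, C ≤ (K n : ℝ) := by
    intro C
    obtain ⟨N, hN⟩ := exists_nat_gt (|C| / κ)
    filter_upwards [eventually_ge_atTop N] with n hn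
    have h1 : κ * X n ≤ K n * (1 / (n + 1 : ℝ) * X n) :=
      (hKQ n).trans (mul_le_mul_of_nonneg_left (hlogQ n) (Nat.cast_nonneg _))
    have h2 : κ ≤ K n * (1 / (n + 1 : ℝ)) := by
      rw [← mul_assoc] at h1
      exact le_of_mul_le_mul_right h1 (hX0 n)
    have h3 : κ * (n + 1) ≤ K n := by
      have h4 := mul_le_mul_of_nonneg_right h2 (show (0 : ℝ) ≤ n + 1 by positivity)
      rwa [mul_assoc, one_div, inv_mul_cancel₀ (by positivity), mul_one] at h4
    have h5 : (N : ℝ) ≤ n := by exact_mod_cast hn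
    rw [div_lt_iff₀ hκ] at hN
    have := le_abs_self C
    nlinarith
  obtain ⟨r, hr⟩ := exists_nat_gt (4 / θ ^ 2)
  have hr0 : 0 < r := by
    rcases Nat.eq_zero_or_pos r with h | h
    · rw [h, Nat.cast_zero] at hr
      have : 0 < 4 / θ ^ 2 := by positivity
      linarith
    · exact h
  have hr4 : 4 < r * θ ^ 2 := by rwa [div_lt_iff₀ (by positivity)] at hr
  set b : ℕ → ℕ := fun j => R * (4 * r) ^ (j + 1) with hb
  have hb0 : ∀ j, 0 < b j := fun j => by
    simp only [hb]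
    positivity
  have hrb : ∀ j, R * r ≤ b j := by
    intro j
    simp only [hb]
    refine Nat.mul_le_mul_left R ?_
    calc r ≤ 4 * r := by omega
      _ = (4 * r) ^ 1 := (pow_one _).symm
      _ ≤ (4 * r) ^ (j + 1) := Nat.pow_le_pow_right (by omega) (by omega)
  set s : ℕ → ℕ → ℕ := fun n j => K n / b j with hs
  have hRrs : ∀ n j, R * (r * s n j) ≤ K n := by
    intro n j
    calc R * (r * s n j) = (R * r) * s n j := by ring
      _ ≤ b j * s n j := Nat.mul_le_mul_right _ (hrb j)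
      _ ≤ K n := Nat.mul_div_le _ _
  have hcomb : ∀ n j, ∃ a c t, s n j ≤ t ∧ t ≤ r * s n j ∧ a ∈ T n ∧ a + t ∈ T n ∧ c ∈ T n ∧
      c + R * t ∈ T n := by
    intro n j
    refine Comb.comb (T n) (K n) R (s n j) r (fun k hk => (hT n k hk).1) ?_
    have h1 := hRrs n j
    have h2 : r * s n j ≤ K n := by
      refine le_trans ?_ h1
      exact Nat.le_mul_of_pos_left _ hR
    have h3 : (K n + r * s n j + 1) * (K n + R * (r * s n j) + 1) ≤
        (2 * (K n + 1)) * (2 * (K n + 1)) := Nat.mul_le_mul (by omega) (by omega)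
    have h4 : (((2 * (K n + 1)) * (2 * (K n + 1)) : ℕ) : ℝ) < ((r * (T n).card ^ 2 : ℕ) : ℝ) := by
      push_cast
      have h5 := hTc n
      have h6 : (0 : ℝ) < K n + 1 := by positivity
      have h7 : (θ * (K n + 1)) ^ 2 < ((T n).card : ℝ) ^ 2 :=
        pow_lt_pow_left₀ h5 (by positivity) (by norm_num)
      have h8 : (0 : ℝ) < r := by exact_mod_cast hr0
      calc (2 * ((K n : ℝ) + 1)) * (2 * (K n + 1)) = 4 * (K n + 1) ^ 2 := by ring
        _ ≤ (r * θ ^ 2) * (K n + 1) ^ 2 := by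
            refine mul_le_mul_of_nonneg_right hr4.le (by positivity)
        _ = r * (θ * (K n + 1)) ^ 2 := by ring
        _ < r * ((T n).card : ℝ) ^ 2 := mul_lt_mul_of_pos_left h7 h8
    exact lt_of_le_of_lt h3 (by exact_mod_cast h4)
  choose ia ic it hit1 hit2 ha hat hc hct using hcomb
  set B := bS S hS with hB
  have hpos : ∀ k : ℕ → ℕ, (∀ n, k n ∈ T n) → ∀ᶠ n in (UU : Filter ℕ), 0 < z n (k n) :=
    fun k hk => Eventually.of_forall fun n => (hz n _ (hT n _ (hk n)).1).1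
  have data : ∀ k : ℕ → ℕ, (∀ n, k n ∈ T n) → ∃ (σ : ℝ) (f : Rg S.card hXt),
      near X (fun n => Real.log (z n (k n))) σ ∧ f.coeff.support.card ≤ R ∧
      (∀ g, f.coeff g ≠ 0 → ∀ j, |g j| ≤ c) ∧
      C1 X η (ev B hXt f / gm (fun n => z n (k n))) := by
    intro k hk
    obtain ⟨σ, -, -, hσ⟩ := exists_st hXt (a := fun n => Real.log (z n (k n))) (A := c')
      (Eventually.of_forall fun n => (hz n _ (hT n _ (hk n)).1).2)
    obtain ⟨f, hf1, hf2, hf3⟩ := rep_NB B hXt (R := R) (c := c) (η := η) hD (hpos k hk)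
      (Eventually.of_forall fun n => (hT n _ (hk n)).2.nb hS)
    exact ⟨σ, f, hσ, hf1, hf2, hf3⟩
  have hY : ∀ k : ℕ → ℕ, (∀ n, k n ∈ T n) →
      C1 X η (gm (fun n => (Q n : ℚ) ^ (k n) * z n (k n) / u n)) := by
    intro k hk
    unfold C1
    rw [← gm_one, gm_sub, mem_SS]
    intro ε hε
    refine Eventually.of_forall fun n => ?_
    have h1 := hzu n (k n) (hT n _ (hk n)).1
    have h2 : (0 : ℝ) < u n := by exact_mod_cast hu n
    unfold Rinf
    push_cast
    have e : (Q n : ℝ) ^ (k n) * (z n (k n)) / (u n) - 1 =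
        ((Q n : ℝ) ^ (k n) * (z n (k n)) - u n) / u n := by field_simp
    rw [e, abs_div, abs_of_pos h2, div_le_iff₀ h2]
    refine h1.trans (mul_le_mul_of_nonneg_right ?_ h2.le)
    apply Real.exp_le_exp.2
    have := hX0 n
    nlinarith
  set τ : ℕ → ℝ := fun i => η * (R + 2) ^ i / (R + 2) ^ (4 * R + 1) with hτ
  have hR2 : (1 : ℝ) < R + 2 := by
    have : (0 : ℝ) ≤ R := Nat.cast_nonneg _
    linarith
  have hτpos : ∀ i, 0 < τ i := fun i => by
    simp only [hτ]
    positivity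
  have hτs : ∀ i, τ (i + 1) = (R + 2) * τ i := by
    intro i
    simp only [hτ]
    rw [pow_succ]
    ring
  have hτm : StrictMono τ := strictMono_nat_of_lt_succ fun i => by
    rw [hτs]
    have := hτpos i
    nlinarith
  have hτR : ∀ i, (R + 1 : ℝ) * τ i < τ (i + 1) := by
    intro i
    rw [hτs]
    have := hτpos i
    nlinarith
  have hτη : τ (4 * R + 1) ≤ η := by
    simp only [hτ]
    rw [mul_div_assoc, div_self (by positivity), mul_one]
  have main : ∀ j, ∃ (i : ℕ) (κ' : KK X hXt) (v : Fin S.card → ℝ), i < 4 * R + 1 ∧ κ' ≠ 0 ∧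
      (∀ l, |v l| ≤ 2 * c) ∧
      C1 X (τ (i + 1)) (gm (fun n => (Q n : ℚ) ^ (it n j)) * (κ' : GG) * ch B hXt v) := by
    intro j
    set k : Fin 4 → ℕ → ℕ := ![fun n => ia n j + it n j, fun n => ia n j,
      fun n => ic n j + R * it n j, fun n => ic n j] with hk
    have hkT : ∀ l n, k l n ∈ T n := by
      intro l n
      fin_cases l
      · exact hat n j
      · exact ha n j
      · exact hct n j
      · exact hc n j
    choose σ f hσ hf1 hf2 hf3 using fun l => data (k l) (hkT l)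
    have hz0 : ∀ l, gm (fun n => z n (k l n)) ≠ 0 := by
      intro l
      rw [gm_ne_zero]
      filter_upwards [hpos (k l) (hkT l)] with n hn using hn.ne'
    have hq0 : ∀ e : ℕ → ℕ, gm (fun n => (Q n : ℚ) ^ (e n)) ≠ 0 := by
      intro e
      rw [gm_ne_zero]
      refine Eventually.of_forall fun n => pow_ne_zero _ ?_
      have := hQ1 n
      positivity
    have hu0 : gm (fun n => u n) ≠ 0 := by
      rw [gm_ne_zero]
      exact Eventually.of_forall fun n => (hu n).ne'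
    have hYe : ∀ l, gm (fun n => (Q n : ℚ) ^ (k l n) * z n (k l n) / u n) =
        gm (fun n => (Q n : ℚ) ^ (k l n)) * gm (fun n => z n (k l n)) / gm (fun n => u n) := by
      intro l
      rw [gm_mul, gm_div]
    have hQk0 : gm (fun n => (Q n : ℚ) ^ (k 0 n)) =
        gm (fun n => (Q n : ℚ) ^ (it n j)) * gm (fun n => (Q n : ℚ) ^ (k 1 n)) := by
      rw [gm_mul]
      congr 1
      funext n
      rw [← pow_add]
      congr 1
      show ia n j + it n j = it n j + ia n j
      ring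
    have hQk2 : gm (fun n => (Q n : ℚ) ^ (k 2 n)) =
        gm (fun n => (Q n : ℚ) ^ (it n j)) ^ R * gm (fun n => (Q n : ℚ) ^ (k 3 n)) := by
      rw [gm_pow, gm_mul]
      congr 1
      funext n
      rw [← pow_mul, ← pow_add]
      congr 1
      show ic n j + R * it n j = it n j * R + ic n j
      ring
    have hrel : C1 X η ((gm (fun n => z n (k 0 n))) ^ R * gm (fun n => z n (k 3 n)) /
        ((gm (fun n => z n (k 1 n))) ^ R * gm (fun n => z n (k 2 n)))) := by
      have a0 := hY (k 0) (hkT 0)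
      have a1 := hY (k 1) (hkT 1)
      have a2 := hY (k 2) (hkT 2)
      have a3 := hY (k 3) (hkT 3)
      have b1 := ((a0.pow hXt hη.le R).mul hXt hη.le a3).div hXt hη
        ((a1.pow hXt hη.le R).mul hXt hη.le a2)
      rw [hYe, hYe, hYe, hYe, hQk0, hQk2] at b1
      have c1 := hq0 (fun n => it n j)
      have c2 := hq0 (k 1)
      have c3 := hq0 (k 3)
      have c4 := hz0 0
      have c5 := hz0 1
      have c6 := hz0 2
      have c7 := hz0 3
      generalize gm (fun n => (Q n : ℚ) ^ (it n j)) = q at b1 c1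
      generalize gm (fun n => (Q n : ℚ) ^ (k 1 n)) = q1 at b1 c2
      generalize gm (fun n => (Q n : ℚ) ^ (k 3 n)) = q3 at b1 c3
      generalize gm (fun n => z n (k 0 n)) = z0 at b1 c4 ⊢
      generalize gm (fun n => z n (k 1 n)) = z1 at b1 c5 ⊢
      generalize gm (fun n => z n (k 2 n)) = z2 at b1 c6 ⊢
      generalize gm (fun n => z n (k 3 n)) = z3 at b1 c7 ⊢
      generalize gm (fun n => u n) = w at b1 hu0
      have e : (q * q1 * z0 / w) ^ R * (q3 * z3 / w) / ((q1 * z1 / w) ^ R * (q ^ R * q3 * z2 / w)) =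
          z0 ^ R * z3 / (z1 ^ R * z2) := by
        rw [div_pow, div_pow, mul_pow, mul_pow, mul_pow]
        field_simp
      rwa [e] at b1
    obtain ⟨i, hi, κ', g0, g1, h1, h2, h3, h4⟩ := step B hXt hη τ hτm (hτpos 0) hτR hτη
      (fun l n => z n (k l n)) (fun l => hpos (k l) (hkT l)) σ hσ f hf1 hf3 hrel
    refine ⟨i, κ', g0 - g1, hi, h1, ?_, ?_⟩
    · intro l
      rw [Pi.sub_apply]
      have a1 := hf2 0 g0 h2 l
      have a2 := hf2 1 g1 h3 l
      calc |g0 l - g1 l| ≤ |g0 l| + |g1 l| := abs_sub _ _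
        _ ≤ 2 * c := by linarith
    · have hτi : 0 < τ (i + 1) := hτpos _
      have hle : τ (i + 1) ≤ η := (hτm.monotone (by omega)).trans hτη
      have a0 := (hY (k 0) (hkT 0)).anti hXt hle
      have a1 := (hY (k 1) (hkT 1)).anti hXt hle
      have b1 := h4.mul hXt hτi.le (a0.div hXt hτi a1)
      rw [hYe, hYe, hQk0] at b1
      have c1 := hq0 (fun n => it n j)
      have c2 := hq0 (k 1)
      have c4 := hz0 0
      have c5 := hz0 1
      generalize gm (fun n => (Q n : ℚ) ^ (it n j)) = q at b1 c1 ⊢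
      generalize gm (fun n => (Q n : ℚ) ^ (k 1 n)) = q1 at b1 c2
      generalize gm (fun n => z n (k 0 n)) = z0 at b1 c4
      generalize gm (fun n => z n (k 1 n)) = z1 at b1 c5
      generalize gm (fun n => u n) = w at b1 hu0
      generalize ch B hXt (g0 - g1) = χ at b1 ⊢
      have e : (κ' : GG) * χ / (z0 / z1) * (q * q1 * z0 / w / (q1 * z1 / w)) =
          q * (κ' : GG) * χ := by
        field_simp
      rwa [e] at b1
  choose i κ' v hi hκ' hv hC using main
  obtain ⟨j, j', hjj, hij, hclose⟩ := comp (4 * R + 1) i hi v (2 * c) hv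
    (fun l => Real.log (B.P l)) (fun l => (B.log_pos l).le) (fun i => τ (i + 1))
    (fun i => hτpos _)
  -- the exponents are far apart
  have hfar : ∀ᶠ n in atTop, it n j' ≤ it n j ∧
      κ / (4 * b j) * X n ≤ ((it n j - it n j' : ℕ) : ℝ) * Real.log (Q n) := by
    filter_upwards [hKbig (2 * b j)] with n hn
    have hbR : (0 : ℝ) < b j := by exact_mod_cast hb0 j
    have h1 : (K n : ℝ) / b j - 1 ≤ s n j := by
      have h2 := Nat.lt_div_mul_add (a := K n) (hb0 j)
      have h3 : (K n : ℝ) < s n j * b j + b j := by exact_mod_cast h2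
      rw [sub_le_iff_le_add, div_le_iff₀ hbR]
      linarith
    have h4 : (r * s n j' : ℝ) ≤ K n / (4 * b j) := by
      have h5 : 4 * r * b j ≤ b j' := by
        simp only [hb]
        calc 4 * r * (R * (4 * r) ^ (j + 1)) = R * (4 * r) ^ (j + 1 + 1) := by
              rw [pow_succ]; ring
          _ ≤ R * (4 * r) ^ (j' + 1) :=
              Nat.mul_le_mul_left R (Nat.pow_le_pow_right (by omega) (by omega))
      have h6 : s n j' * (4 * r * b j) ≤ K n :=
        (Nat.mul_le_mul_left _ h5).trans (Nat.div_mul_le_self _ _)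
      have h7 : (s n j' : ℝ) * (4 * r * b j) ≤ K n := by exact_mod_cast h6
      rw [le_div_iff₀ (by positivity)]
      linarith
    have h8 : (s n j : ℝ) ≤ it n j := by exact_mod_cast hit1 n j
    have h9 : (it n j' : ℝ) ≤ r * s n j' := by exact_mod_cast hit2 n j'
    have h10 : (K n : ℝ) / (4 * b j) + it n j' ≤ it n j := by
      have h11 : (K n : ℝ) / b j = 4 * (K n / (4 * b j)) := by field_simp
      have h12 : 1 ≤ 2 * ((K n : ℝ) / (4 * b j)) := by
        rw [mul_div_assoc', one_le_div (by positivity)]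
        linarith
      linarith
    have h13 : it n j' ≤ it n j := by
      have : (0 : ℝ) ≤ K n / (4 * b j) := by positivity
      have h14 : (it n j' : ℝ) ≤ it n j := by linarith
      exact_mod_cast h14
    refine ⟨h13, ?_⟩
    rw [Nat.cast_sub h13]
    have hlQ : 0 ≤ Real.log (Q n) := Real.log_natCast_nonneg _
    calc κ / (4 * b j) * X n = (κ * X n) / (4 * b j) := by ring
      _ ≤ (K n * Real.log (Q n)) / (4 * b j) :=
          div_le_div_of_nonneg_right (hKQ n) (by positivity)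
      _ = K n / (4 * b j) * Real.log (Q n) := by ring
      _ ≤ (it n j - it n j' : ℝ) * Real.log (Q n) :=
          mul_le_mul_of_nonneg_right (by linarith) hlQ
  have hcB : ∀ᶠ n in (UU : Filter ℕ), ∀ l, Nat.Coprime (Q n) (B.P l) :=
    Eventually.of_forall fun n l => hcop n _ (S.orderEmbOfFin_mem rfl l)
  have hbR : (0 : ℝ) < b j := by exact_mod_cast hb0 j
  refine contra B hXt (σ := τ (i j + 1)) (c := κ / (4 * b j)) (by positivity) Q
    (fun n => it n j - it n j') hcB (Eventually.of_forall hQ1)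
    (ev_of_atTop (hfar.mono fun n hn => hn.2)) (κ' j / κ' j') (div_ne_zero (hκ' j) (hκ' j'))
    (v j - v j') hclose ?_
  have h1 := hC j'
  rw [← hij] at h1
  have h2 := (hC j).div hXt (hτpos _) h1
  have hq0 : gm (fun n => (Q n : ℚ) ^ (it n j')) ≠ 0 := by
    rw [gm_ne_zero]
    refine Eventually.of_forall fun n => pow_ne_zero _ ?_
    have := hQ1 n
    positivity
  have hqq : gm (fun n => (Q n : ℚ) ^ (it n j)) = gm (fun n => (Q n : ℚ) ^ (it n j - it n j')) *
      gm (fun n => (Q n : ℚ) ^ (it n j')) := by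
    rw [gm_mul, gm_eq]
    filter_upwards [ev_of_atTop hfar] with n hn
    rw [← pow_add, Nat.sub_add_cancel hn.1]
  have hκ0 : ((κ' j' : KK X hXt) : GG) ≠ 0 := fun h => hκ' j' (Subtype.ext h)
  have hch0 : ch B hXt (v j') ≠ 0 := ch_ne hXt _
  have e : gm (fun n => (Q n : ℚ) ^ (it n j)) * ((κ' j : KK X hXt) : GG) * ch B hXt (v j) /
      (gm (fun n => (Q n : ℚ) ^ (it n j')) * ((κ' j' : KK X hXt) : GG) * ch B hXt (v j')) =
      gm (fun n => (Q n : ℚ) ^ (it n j - it n j')) * ((κ' j / κ' j' : KK X hXt) : GG) *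
      ch B hXt (v j - v j') := by
    rw [hqq, sub_eq_add_neg, ch_add, ch_neg]
    push_cast
    field_simp
  rwa [e] at h2

end Pool.Agent.N333.Ge
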