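import Pool.Agent.TH461.A3.WalkPow

/-!
# Edges of approximate progressions inside a subset

An edited copy of `Pool.Agent.TH461.A3.walk_bound`.
-/

set_option autoImplicit false

namespace Pool.Agent.N333.Wk

open Finset Pool.Agent.TH461.A3

/-- a subset of the integers which contains many edges of the progressions is large -/
theorem walk_sub (F : ℕ) (hF : 1 ≤ F) (QQ : Finset ℕ) (Q K H Z ℓ : ℕ) (hprime : ∀ q ∈ QQ, q.Prime)
    (hQ : ∀ q ∈ QQ, q ^ F ≤ Q) (Λ : Finset ℕ) (A : ℕ → Finset ℕ) (δ : ℕ → ℕ → ℕ → ℕ)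
    (hδ : ∀ q ∈ QQ, ∀ u ∈ A q, ∀ k ≤ K,
      u < (q ^ F) ^ k * δ q u k ∧ (q ^ F) ^ k * δ q u k ≤ u + H)
    (hinj : ∀ q ∈ QQ, ∀ u ∈ A q, ∀ v ∈ A q, ∀ k ≤ K, ∀ j ≤ K,
      δ q u k = δ q v j → u = v ∧ k = j)
    (hA : ∀ q ∈ QQ, ∀ u ∈ A q, Q ^ K * Z ≤ u) (hbig : 2 * ℓ * Q ^ (2 * ℓ) * H < Z)
    (hcard : Λ.card < 3 ^ ℓ) (G : ℕ)
    (hG : ∀ q ∈ QQ, ∀ u ∈ A q,
      G ≤ ((range K).filter (fun k => δ q u k ∈ Λ ∧ δ q u (k + 1) ∈ Λ)).card) :
    ∑ q ∈ QQ, (A q).card * G ≤ 5 * ℓ * Λ.card := by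
  classical
  by_contra hlt
  rw [not_le] at hlt
  set E : Finset (Σ _ : ℕ, ℕ × ℕ) := QQ.sigma (fun q => (A q ×ˢ Finset.range K).filter
    (fun p => δ q p.1 p.2 ∈ Λ ∧ δ q p.1 (p.2 + 1) ∈ Λ)) with hE
  have hEc : ∑ q ∈ QQ, (A q).card * G ≤ E.card := by
    rw [hE, Finset.card_sigma]
    refine Finset.sum_le_sum fun q hq => ?_
    rw [Finset.card_filter, Finset.sum_product]
    rw [← smul_eq_mul, ← Finset.sum_const]
    refine Finset.sum_le_sum fun u hu => ?_
    have := hG q hq u hu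
    rwa [Finset.card_filter] at this
  set f : (Σ _ : ℕ, ℕ × ℕ) → ℕ := fun e => δ e.1 e.2.1 (e.2.2 + 1) with hf
  set g : (Σ _ : ℕ, ℕ × ℕ) → ℕ := fun e => δ e.1 e.2.1 e.2.2 with hg
  have hmem : ∀ e ∈ E, e.1 ∈ QQ ∧ e.2.1 ∈ A e.1 ∧ e.2.2 < K := by
    intro e he
    rw [hE, Finset.mem_sigma, Finset.mem_filter, Finset.mem_product, Finset.mem_range] at he
    exact ⟨he.1, he.2.1⟩
  have hmem' : ∀ e ∈ E, g e ∈ Λ ∧ f e ∈ Λ := by
    intro e he
    rw [hE, Finset.mem_sigma, Finset.mem_filter] at he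
    exact he.2.2
  have hEne : E.Nonempty := by
    rw [← Finset.card_pos]
    exact lt_of_lt_of_le (lt_of_le_of_lt (Nat.zero_le _) hlt) hEc
  have hQ1 : 1 ≤ Q := by
    obtain ⟨e, he⟩ := hEne
    have := hmem e he
    exact (Nat.one_le_pow _ _ (hprime _ this.1).pos).trans (hQ _ this.1)
  obtain ⟨V, hVΛ, hVne, hVdeg⟩ := Pool.Agent.H323R2.Walk.min_degree E f g Λ
    (fun e he => (hmem' e he).2) (fun e he => (hmem' e he).1) (5 * ℓ)
    (lt_of_lt_of_le hlt hEc)
  set inc : ℕ → Finset (Σ _ : ℕ, ℕ × ℕ) :=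
    fun v => E.filter (fun e => f e ∈ V ∧ g e ∈ V ∧ (f e = v ∨ g e = v)) with hinc
  set lab : ℕ → (Σ _ : ℕ, ℕ × ℕ) → ℕ × Bool := fun v e => (e.1, decide (f e = v)) with hlab
  have hch : ∀ v : ℕ, ∀ x : ℕ × Bool, ∃ e : (Σ _ : ℕ, ℕ × ℕ),
      x ∈ (inc v).image (lab v) → e ∈ inc v ∧ lab v e = x := by
    intro v x
    by_cases h : x ∈ (inc v).image (lab v)
    · obtain ⟨e, he, hx⟩ := Finset.mem_image.1 h
      exact ⟨e, fun _ => ⟨he, hx⟩⟩
    · exact ⟨⟨0, 0, 0⟩, fun h' => absurd h' h⟩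
  choose ed hed using hch
  -- edges: the relation between the endpoints
  have hrel : ∀ e ∈ E, |((g e : ℕ) : ℤ) - (e.1 : ℤ) ^ F * (f e : ℕ)| ≤ H := by
    intro e he
    obtain ⟨h1, h2, h3⟩ := hmem e he
    have a1 := hδ _ h1 _ h2 e.2.2 (by omega)
    have a2 := hδ _ h1 _ h2 (e.2.2 + 1) (by omega)
    have hq1 : 1 ≤ (e.1 ^ F) ^ e.2.2 :=
      Nat.one_le_pow _ _ (Nat.pow_pos (hprime _ h1).pos)
    have hq1' : (1 : ℤ) ≤ ((e.1 : ℤ) ^ F) ^ e.2.2 := by exact_mod_cast hq1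
    have b1 : (e.2.1 : ℤ) < ((e.1 : ℤ) ^ F) ^ e.2.2 * (g e : ℕ) := by exact_mod_cast a1.1
    have b2 : ((e.1 : ℤ) ^ F) ^ e.2.2 * (g e : ℕ) ≤ (e.2.1 : ℤ) + H := by
      exact_mod_cast a1.2
    have b3 : (e.2.1 : ℤ) < ((e.1 : ℤ) ^ F) ^ (e.2.2 + 1) * (f e : ℕ) := by
      exact_mod_cast a2.1
    have b4 : ((e.1 : ℤ) ^ F) ^ (e.2.2 + 1) * (f e : ℕ) ≤ (e.2.1 : ℤ) + H := by
      exact_mod_cast a2.2
    have h5 : |((e.1 : ℤ) ^ F) ^ e.2.2 * (((g e : ℕ) : ℤ) - (e.1 : ℤ) ^ F * (f e : ℕ))| ≤ H := by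
      rw [abs_le]
      rw [pow_succ] at b3 b4
      constructor <;> nlinarith
    rw [abs_mul, abs_of_nonneg (by positivity : (0 : ℤ) ≤ ((e.1 : ℤ) ^ F) ^ e.2.2)] at h5
    have h6 := abs_nonneg (((g e : ℕ) : ℤ) - (e.1 : ℤ) ^ F * (f e : ℕ))
    nlinarith
  have hcore := walk_core (F := F) hF (V := V) (Q := Q) (H := H) (Z := Z) (ℓ := ℓ) hQ1
    (fun v => (inc v).image (lab v))
    (fun v x => if x.2 = true then g (ed v x) else f (ed v x)) ?_ ?_ hVne ?_ hbig
  · exact absurd (hcore.trans (Finset.card_le_card hVΛ)) (not_le.2 hcard)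
  · intro v hv x hx
    obtain ⟨h1, h2⟩ := hed v x hx
    rw [hinc] at h1
    simp only at h1
    rw [Finset.mem_filter] at h1
    obtain ⟨h1, h3, h4, h5⟩ := h1
    have h6 := hmem _ h1
    have h7 := hrel _ h1
    rw [hlab] at h2
    simp only at h2
    have h8 : (ed v x).1 = x.1 := congrArg Prod.fst h2
    have h9 : decide (f (ed v x) = v) = x.2 := congrArg Prod.snd h2
    refine ⟨by rw [← h8]; exact hprime _ h6.1, by rw [← h8]; exact hQ _ h6.1, ?_, ?_⟩
    · split_ifs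
      · exact h4
      · exact h3
    · unfold Mv
      by_cases hx2 : x.2 = true
      · rw [hx2, decide_eq_true_eq] at h9
        rw [if_pos hx2]
        simp only [hx2, if_true]
        rw [h9, h8] at h7
        exact h7
      · rw [if_neg hx2]
        simp only [hx2, if_false]
        rw [Bool.not_eq_true] at hx2
        rw [hx2, decide_eq_false_iff_not] at h9
        have h10 := h5.resolve_left h9
        rw [h10, h8] at h7
        simpa using h7
  · intro v hv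
    rw [Finset.card_image_of_injOn]
    · exact (hVdeg v hv).le
    · intro e he e' he' hee
      rw [Finset.mem_coe, hinc] at he he'
      simp only at he he'
      rw [Finset.mem_filter] at he he'
      obtain ⟨h1, h2, h3, h4⟩ := he
      obtain ⟨h1', h2', h3', h4'⟩ := he'
      have m := hmem e h1
      have m' := hmem e' h1'
      rw [hlab] at hee
      simp only [Prod.mk.injEq] at hee
      obtain ⟨hq, hd⟩ := hee
      obtain ⟨q, u, k⟩ := e
      obtain ⟨q', u', k'⟩ := e'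
      simp only at hq m m'
      subst hq
      by_cases hfe : f ⟨q, u, k⟩ = v
      · have hfe' : f ⟨q, u', k'⟩ = v := by
          rw [decide_eq_true hfe] at hd
          exact of_decide_eq_true hd.symm
        have := hinj q m.1 u m.2.1 u' m'.2.1 (k + 1) (by omega) (k' + 1) (by omega)
          (by simp only [hf] at hfe hfe'; rw [hfe, hfe'])
        obtain ⟨r1, r2⟩ := this
        have r3 : k = k' := by omega
        rw [r1, r3]
      · have hfe' : ¬ f ⟨q, u', k'⟩ = v := by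
          rw [decide_eq_false hfe] at hd
          exact of_decide_eq_false hd.symm
        have g1 := h4.resolve_left hfe
        have g2 := h4'.resolve_left hfe'
        have := hinj q m.1 u m.2.1 u' m'.2.1 k (by omega) k' (by omega)
          (by simp only [hg] at g1 g2; rw [g1, g2])
        rw [this.1, this.2]
  · intro v hv
    have h1 : 0 < (inc v).card := by
      have := hVdeg v hv
      simp only [hinc]
      omega
    obtain ⟨e, he⟩ := Finset.card_pos.1 h1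
    rw [hinc] at he
    simp only at he
    rw [Finset.mem_filter] at he
    obtain ⟨h1, h2, h3, h4⟩ := he
    have m := hmem e h1
    have key : ∀ j ≤ K, Z < δ e.1 e.2.1 j := by
      intro j hj
      have a1 := (hδ _ m.1 _ m.2.1 j hj).1
      have a2 := hA _ m.1 _ m.2.1
      have a3 : (e.1 ^ F) ^ j * Z ≤ Q ^ K * Z := by
        refine Nat.mul_le_mul_right _ ?_
        exact (Nat.pow_le_pow_left (hQ _ m.1) j).trans (Nat.pow_le_pow_right hQ1 hj)
      exact lt_of_mul_lt_mul_left (a3.trans_lt (a2.trans_lt a1)) (Nat.zero_le _)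
    rcases h4 with h4 | h4
    · rw [← h4]; exact key _ (by omega)
    · rw [← h4]; exact key _ (by omega)


end Pool.Agent.N333.Wk
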