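import Pool.Agent.TH842.A3.Asym5
import Pool.Agent.N333.Wk
import Pool.Agent.N333.Ul

/-!
# The finite form of the bound for the positions in a subset
-/

set_option autoImplicit false

namespace Pool.Agent.N333.As

open Finset Polynomial Filter Topology
open Pool.Agent.H393R2.DC (S Pol V Dn digit)
open Pool.Agent.H323R2.Gen (badG)
open Pool.Agent.TH842.A3 (SP5)
open Pool.Agent.N333.Ge (Nr UL)

/-- the finite form -/
theorem finiteE {f : ℤ[X]} {d b : ℕ} {U : ℕ → ℤ} {c g F : ℕ} (hSP : SP5 f d b U c g F)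
    (hF : 1 ≤ F) (N K Q P e Z ℓ : ℕ) (QQ : Finset ℕ)
    (hQQ : ∀ q ∈ QQ, q.Prime ∧ q ≤ Q ∧ c ≤ q ∧ (b : ZMod q) ≠ 0 ∧
      ∀ a : ZMod q, (f.map (Int.castRingHom (ZMod q))).eval a ≠ 0)
    (hbad : ∀ q ∈ QQ, (badG f d b (Pol b U N) q N).card ≤ e)
    (hbad2 : ((range (N + 1)).filter (fun R => S b (f.comp (Pol b U N)) R ≠ 0)).card ≤ e)
    (hP : ∀ q ∈ QQ, c * ((Dn b U N).card + 1) ^ g ≤ (q ^ F) ^ P)
    (hsz : c * (e + 1) ^ g * ((Dn b U N).card + 1) ^ g * (Q ^ F) ^ (g * K + g * P) *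
      ((Q ^ F) ^ K * Z + 1) ≤ N)
    (hZ : 2 * ℓ * (Q ^ F) ^ (2 * ℓ) * (e * (Q ^ F) ^ (g * K + g * P + g) + 1) < Z)
    (Λ : Finset ℕ) (hl : Λ.card < 3 ^ ℓ) (G : ℕ)
    (hG : ∀ q ∈ QQ, ∀ (u : ℕ) (δ : ℕ → ℕ), (Q ^ F) ^ K * Z ≤ u →
      (∀ k ≤ K, δ k ∈ Dn b U N ∧ u < (q ^ F) ^ k * δ k ∧
        (q ^ F) ^ k * δ k ≤ u + (e * (Q ^ F) ^ (g * K + g * P + g) + 1)) →
      G ≤ ((range K).filter (fun k => δ k ∈ Λ ∧ δ (k + 1) ∈ Λ)).card) :
    QQ.card * (K - c * P) * G ≤ c * P * P * (5 * ℓ * Λ.card) := by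
  classical
  have hex : ∀ q : ℕ, ∃ (A : Finset ℕ) (δ : ℕ → ℕ → ℕ), q ∈ QQ → ((∀ u ∈ A, (Q ^ F) ^ K * Z ≤ u) ∧
    (∀ u ∈ A, ∀ k ≤ K, δ u k ∈ Dn b U N ∧ u < (q ^ F) ^ k * δ u k ∧
      (q ^ F) ^ k * δ u k ≤ u + (e * (Q ^ F) ^ (g * K + g * P + g) + 1)) ∧
    (∀ u ∈ A, ∀ u' ∈ A, ∀ k ≤ K, ∀ k' ≤ K, δ u k = δ u' k' → u = u' ∧ k = k') ∧
    K ≤ c * P * (P * A.card + 1)) := by
    intro q
    by_cases hq : q ∈ QQ
    · obtain ⟨hqp, hqQ, hqc, hqb, hqf⟩ := hQQ q hq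
      have : Fact q.Prime := ⟨hqp⟩
      have hqF : q ^ F ≤ Q ^ F := Nat.pow_le_pow_left hqQ F
      obtain ⟨A, δ, h1, h2, h3, h4⟩ := hSP q N K P e ((Q ^ F) ^ K * Z) ((Dn b U N).card + 1)
        hqc hqb hqf (hbad q hq) hbad2 le_rfl (hP q hq) (by
          refine le_trans ?_ hsz
          gcongr)
      refine ⟨A, δ, fun _ => ⟨h1, ?_, h3, h4⟩⟩
      intro u hu k hk
      obtain ⟨g1, g2, g3⟩ := h2 u hu k hk
      refine ⟨g1, g2, g3.trans ?_⟩
      have : e * (q ^ F) ^ (g * K + g * P + g) ≤ e * (Q ^ F) ^ (g * K + g * P + g) := by gcongr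
      omega
    · exact ⟨∅, fun _ _ => 0, fun h => absurd h hq⟩
  choose A δ hA using hex
  have hw := Pool.Agent.N333.Wk.walk_sub F hF QQ (Q ^ F) K
    (e * (Q ^ F) ^ (g * K + g * P + g) + 1) Z ℓ
    (fun q hq => (hQQ q hq).1) (fun q hq => Nat.pow_le_pow_left (hQQ q hq).2.1 F) Λ A δ
    (fun q hq u hu k hk => ((hA q hq).2.1 u hu k hk).2)
    (fun q hq u hu u' hu' k hk k' hk' h => (hA q hq).2.2.1 u hu u' hu' k hk k' hk' h)
    (fun q hq u hu => (hA q hq).1 u hu) hZ hl G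
    (fun q hq u hu => hG q hq u (δ q u) ((hA q hq).1 u hu) (fun k hk => (hA q hq).2.1 u hu k hk))
  calc QQ.card * (K - c * P) * G = ∑ q ∈ QQ, (K - c * P) * G := by
        rw [Finset.sum_const, smul_eq_mul]; ring
    _ ≤ ∑ q ∈ QQ, (c * P * (P * (A q).card)) * G := by
        refine Finset.sum_le_sum (fun q hq => Nat.mul_le_mul_right _ ?_)
        have h1 := (hA q hq).2.2.2
        have h2 : c * P * (P * (A q).card + 1) = c * P * (P * (A q).card) + c * P := by ring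
        omega
    _ = c * P * P * ∑ q ∈ QQ, (A q).card * G := by
        rw [Finset.mul_sum]
        exact Finset.sum_congr rfl (fun q _ => by ring)
    _ ≤ _ := Nat.mul_le_mul_left _ hw

/-- most neighbouring pairs avoid a small set -/
lemma pairs (K : ℕ) (p : ℕ → Prop) [DecidablePred p] (t : ℕ)
    (ht : ((range (K + 1)).filter (fun k => ¬ p k)).card ≤ t) :
    K - 2 * t ≤ ((range K).filter (fun k => p k ∧ p (k + 1))).card := by
  classical
  have h1 : ((range K).filter (fun k => ¬ (p k ∧ p (k + 1)))).card ≤ 2 * t := by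
    have h2 : (range K).filter (fun k => ¬ (p k ∧ p (k + 1))) ⊆
        ((range (K + 1)).filter (fun k => ¬ p k)) ∪
        (((range (K + 1)).filter (fun k => ¬ p k)).image (fun k => k - 1)) := by
      intro k hk
      rw [mem_filter, mem_range] at hk
      rw [mem_union]
      by_cases h3 : p k
      · right
        rw [mem_image]
        refine ⟨k + 1, ?_, by omega⟩
        rw [mem_filter, mem_range]
        exact ⟨by omega, fun h4 => hk.2 ⟨h3, h4⟩⟩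
      · left
        rw [mem_filter, mem_range]
        exact ⟨by omega, h3⟩
    refine (card_le_card h2).trans ((card_union_le _ _).trans ?_)
    have := card_image_le (s := (range (K + 1)).filter (fun k => ¬ p k)) (f := fun k => k - 1)
    omega
  have h3 := card_filter_add_card_filter_not (s := range K) (fun k => p k ∧ p (k + 1))
  rw [card_range] at h3
  omega

lemma Nr_mono {S : Finset ℕ} {R : ℕ} {c D D' η η' X z : ℝ} (hz : 0 ≤ z) (hX : 0 ≤ X)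
    (hD : D ≤ D') (hη : η' ≤ η) (h : Nr S R c D η X z) : Nr S R c D' η' X z := by
  obtain ⟨a, e, h1, h2, h3⟩ := h
  refine ⟨a, e, fun i => (h1 i).trans (Real.exp_le_exp.2 hD), h2, h3.trans ?_⟩
  refine mul_le_mul_of_nonneg_right (Real.exp_le_exp.2 ?_) hz
  nlinarith

lemma aux1 {n Q K2 t : ℝ} (hn : 0 ≤ n) (hQ : 0 ≤ Q) (h1 : Q / 2 ≤ Q - t) (h2 : Q / 4 ≤ K2) :
    n * (Q / 2) * (Q / 4) ≤ n * (Q - t) * K2 := by
  have h3 : 0 ≤ Q - t := by linarith
  exact mul_le_mul (mul_le_mul_of_nonneg_left h1 hn) h2 (by linarith) (mul_nonneg hn h3)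

lemma aux2 {c A P l m : ℝ} (hA : A ≠ 0) :
    (4 * c * A) * P * P * (5 * (l / A) * m) = 4 * (c * P * P * (5 * l * m)) := by
  field_simp

end Pool.Agent.N333.As
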