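import Pool.Agent.TH698.A3Params

/-!
# The choice of the parameters for an arbitrary bound `exp τ` of the number of positions
-/

set_option autoImplicit false

namespace Pool.Agent.N333.Pt

open Finset Filter Topology
open Pool.Agent.TH698.A3 (L5 L6 N4 Ng2 Nexp)

lemma L3' {y a b c d f g : ℝ} {G W : ℕ} (hy : 0 ≤ y) (hb : 0 ≤ b) (hc : 0 ≤ c)
    (hd : 0 ≤ d) (hf : 0 ≤ f) (hg : 0 ≤ g) (ha' : a ≤ y) (hb' : b ≤ y ^ G) (hc' : c ≤ y)
    (hd' : d ≤ y) (hf' : f ≤ y) (hg' : g ≤ y ^ W) :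
    a * b * c * (d * f) * g ≤ y * y ^ G * y * (y * y) * y ^ W := by
  gcongr

/-- eventual conditions -/
lemma ev_cond (C1 D δ κ : ℝ) (hδ : 0 < δ) (hκ : 0 < κ) : ∃ X : ℝ, ∀ x : ℝ, X ≤ x →
    1 ≤ Real.log x ∧ 10 ≤ x ∧ C1 * (1 + Real.log x) * Real.sqrt x ≤ x ∧ D ≤ Real.log x ∧
      Real.log x ≤ δ * x ∧ 10 ≤ Real.exp (x / κ) := by
  have h1 : ∀ᶠ x : ℝ in atTop, 1 ≤ Real.log x := Real.tendsto_log_atTop.eventually_ge_atTop 1
  have h2 : ∀ᶠ x : ℝ in atTop, (10 : ℝ) ≤ x := eventually_ge_atTop _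
  have h4 : ∀ᶠ x : ℝ in atTop, D ≤ Real.log x := Real.tendsto_log_atTop.eventually_ge_atTop D
  have h5 : ∀ᶠ x : ℝ in atTop, Real.log x ≤ δ * x := by
    have h1 : Tendsto (fun x : ℝ => Real.log x / x) atTop (𝓝 0) :=
      Real.isLittleO_log_id_atTop.tendsto_div_nhds_zero
    filter_upwards [h1.eventually_le_const hδ, eventually_gt_atTop (1 : ℝ)] with x hx hx1
    rwa [div_le_iff₀ (by linarith)] at hx
  have h6 : ∀ᶠ x : ℝ in atTop, 10 ≤ Real.exp (x / κ) :=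
    (Real.tendsto_exp_atTop.comp (tendsto_id.atTop_div_const hκ)).eventually_ge_atTop _
  have h3 : ∀ᶠ x : ℝ in atTop, C1 * (1 + Real.log x) * Real.sqrt x ≤ x := by
    have h7 : Tendsto (fun x : ℝ => Real.log x / x ^ (1 / 2 : ℝ)) atTop (𝓝 0) :=
      (isLittleO_log_rpow_atTop (by norm_num)).tendsto_div_nhds_zero
    filter_upwards [h7.eventually_le_const (show 0 < 1 / (2 * (|C1| + 1)) by positivity), h1,
      eventually_gt_atTop (1 : ℝ)] with x hx hx1 hx2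
    have hx0 : 0 < x := by linarith
    rw [← Real.sqrt_eq_rpow] at hx
    have hs : 0 < Real.sqrt x := Real.sqrt_pos.2 hx0
    rw [div_le_iff₀ hs] at hx
    have h8 : 1 + Real.log x ≤ 2 * Real.log x := by linarith
    have h9 := le_abs_self C1
    calc C1 * (1 + Real.log x) * Real.sqrt x
        ≤ (|C1| + 1) * (2 * (1 / (2 * (|C1| + 1)) * Real.sqrt x)) * Real.sqrt x := by
          gcongr
          · linarith
          · linarith
      _ = Real.sqrt x * Real.sqrt x := by field_simp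
      _ = x := Real.mul_self_sqrt hx0.le
  obtain ⟨X, hX⟩ := eventually_atTop.1 (h1.and (h2.and (h3.and (h4.and (h5.and h6)))))
  exact ⟨X, fun x hx => hX x hx⟩

lemma c0_ge {d κ F g : ℝ} (hd : 2 ≤ d) (hκ : 13 ≤ κ) (hF : 1 ≤ F) (hg : 0 ≤ g) :
    2 ≤ 2 * d * κ * F * (g + 1) ∧ 2 * d * κ ≤ 2 * d * κ * F * (g + 1) ∧
      κ * F * g ≤ 2 * d * κ * F * (g + 1) ∧ κ * F ≤ 2 * d * κ * F * (g + 1) := by
  have h1 : 1 ≤ 2 * d * κ := by nlinarith
  have h2 : 1 ≤ F * (g + 1) := by nlinarith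
  have h0 : 0 ≤ κ * F := by positivity
  refine ⟨?_, ?_, ?_, ?_⟩
  · have : 2 ≤ 2 * d * κ := by nlinarith
    nlinarith
  · nlinarith
  · have h3 : κ * F * g ≤ κ * F * (g + 1) := by nlinarith
    have h4 : κ * F * (g + 1) ≤ (2 * d) * (κ * F * (g + 1)) := by
      have : 0 ≤ κ * F * (g + 1) := by positivity
      nlinarith
    linarith
  · have h3 : κ * F ≤ κ * F * (g + 1) := by nlinarith
    have h4 : κ * F * (g + 1) ≤ (2 * d) * (κ * F * (g + 1)) := by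
      have : 0 ≤ κ * F * (g + 1) := by positivity
      nlinarith
    linarith

lemma s1 {C1 lam r : ℝ} (h0 : 0 ≤ C1) (hl : 0 ≤ lam) (h : C1 * (1 + lam) ≤ r) : C1 ≤ r := by
  nlinarith

lemma s2 {C1 lam aκ : ℝ} (h0 : 0 ≤ C1) (hl : 0 ≤ lam) (h : aκ ≤ C1) :
    aκ * lam ≤ C1 * (1 + lam) := by
  nlinarith

lemma s3 {m E : ℝ} (hm : m < E) (hE : 2 ≤ E) : m + 1 ≤ E * E := by
  nlinarith

lemma s4 {τ ℓ l3 : ℝ} (h0 : 0 ≤ τ) (h1 : τ < ℓ) (h2 : 1 ≤ l3) : τ ≤ ℓ * l3 := by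
  nlinarith

lemma s5 {c B c0 : ℝ} (hc : 0 ≤ c) (hB : 0 ≤ B) (h : 2 ≤ c0) : c ≤ 2 * c0 * (B + c) := by
  nlinarith [mul_nonneg hc hB, mul_nonneg (by linarith : 0 ≤ c0 - 2) (by linarith : 0 ≤ B + c)]

lemma s6 {y Z : ℝ} {W : ℕ} (hy : 2 ≤ y) (h : Z < y ^ W + 1) : Z ≤ y ^ (W + 1) := by
  have h2 : 1 ≤ y ^ W := one_le_pow₀ (by linarith)
  have h3 : y ^ (W + 1) = y ^ W * y := pow_succ _ _
  nlinarith

lemma s7 {y T : ℝ} {W : ℕ} (hy : 2 ≤ y) (h : T ≤ y * y ^ (W + 1)) : T + 1 ≤ y ^ (W + 3) := by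
  have h2 : y * y ^ (W + 1) = y ^ (W + 2) := by ring
  have h3 : y ^ (W + 3) = y ^ (W + 2) * y := by ring
  have h4 : 1 ≤ y ^ (W + 2) := one_le_pow₀ (by linarith)
  nlinarith

lemma s8 {k v τ r : ℝ} (hk : 0 ≤ k) (hv : 0 ≤ v) (h : τ ≤ r) (hr : 0 ≤ r) :
    4 * k * (v * τ) ≤ 8 * k * v * r := by
  have h5 : 0 ≤ k * v := mul_nonneg hk hv
  have h6 : k * v * τ ≤ k * v * r := mul_le_mul_of_nonneg_left h h5
  have h7 : 0 ≤ k * v * r := mul_nonneg h5 hr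
  nlinarith

/-- the choice of the parameters -/
lemma params (d c g F B κn W N m : ℕ) (κ c0 C1 x lam r τ y : ℝ) (hd2 : 2 ≤ d)
    (hF : 1 ≤ F) (hW : W = 2 * g + 20) (hκn : κn = 4 * g + 27) (hκ : κ = (κn : ℝ))
    (hc0 : c0 = 2 * d * κ * F * (g + 1)) (hB : 10 ≤ B)
    (hC1 : 4 * κ ≤ C1) (hC2 : F * g * (12 * g + 3) * κ ≤ C1) (hC3 : 4 * F * κ ≤ C1)
    (hC4 : 2 * g * κ ≤ C1) (hC5 : 2 * c0 * (B + c) ≤ C1)
    (hC6 : 8 * c0 * c * (12 * g + 2) ≤ C1)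
    (hexp : Real.exp lam = x) (hr : r * r = x) (hr1 : 1 ≤ r) (hτ1 : lam ≤ τ) (hτ2 : τ ≤ r)
    (hy : y = Real.exp (x / κ)) (hNy : (N : ℝ) = y ^ κn)
    (e3 : 1 ≤ lam) (e4 : 6 * Real.log (2 * c0) ≤ lam) (e5 : 10 ≤ y) (e6 : 10 ≤ x)
    (e7 : C1 * (1 + lam) * r ≤ x) (hcase : (m : ℝ) < Real.exp τ) :
    ∃ Q K P ℓ e Z : ℕ, B + c ≤ Q ∧ x / (2 * c0 * τ) ≤ Q ∧ (Q : ℝ) ≤ x ∧
      x / (2 * c0 * lam) ≤ K ∧ 2 * (c * P) ≤ K ∧ 2 ≤ K ∧ (P : ℝ) ≤ (12 * g + 2) * τ / lam ∧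
      Real.exp (2 * τ) ^ (d * Q) ≤ y ∧
      (∀ n : ℕ, (n : ℝ) ≤ y → n ≤ e) ∧ (ℓ : ℝ) ≤ 2 * τ ∧ m < 3 ^ ℓ ∧
      2 * ℓ * (Q ^ F) ^ (2 * ℓ) * (e * (Q ^ F) ^ (g * K + g * P + g) + 1) < Z ∧
      c * (e + 1) ^ g * (m + 1) ^ g * (Q ^ F) ^ (g * K + g * P) * ((Q ^ F) ^ K * Z + 1) ≤ N ∧
      (∀ q : ℕ, 1 ≤ q → Q ≤ q * q → c ≤ q → c * (m + 1) ^ g ≤ (q ^ F) ^ P) ∧
      N ≤ Z * Z ∧ ((e * (Q ^ F) ^ (g * K + g * P + g) + 1 : ℕ) : ℝ) * y ≤ Z ∧
      lam ≤ 3 * Real.log Q := by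
  have hdR : (2 : ℝ) ≤ d := by exact_mod_cast hd2
  have hκ13 : 13 ≤ κ := by
    rw [hκ]
    exact_mod_cast (by omega : 13 ≤ κn)
  have hκ0 : 0 < κ := by linarith
  have hFR : (1 : ℝ) ≤ F := by exact_mod_cast hF
  have hgR : (0 : ℝ) ≤ g := Nat.cast_nonneg _
  obtain ⟨hc02, hc0d, hc0g, hc0F⟩ : 2 ≤ c0 ∧ 2 * d * κ ≤ c0 ∧ κ * F * g ≤ c0 ∧ κ * F ≤ c0 := by
    rw [hc0]; exact c0_ge hdR hκ13 hFR hgR
  have hc00 : 0 < c0 := by linarith
  have hlam0 : 0 < lam := by linarith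
  have hτ0 : 0 < τ := by linarith
  have hτ11 : 1 ≤ τ := by linarith
  have hx0 : 0 < x := by linarith
  have hx1 : 1 ≤ x := by linarith
  have hC10 : 0 < C1 := by linarith
  -- consequences of `e7`
  have hrx : C1 * (1 + lam) ≤ r := by
    have h1 : C1 * (1 + lam) * r ≤ r * r := by rw [hr]; exact e7
    exact le_of_mul_le_mul_right h1 (by linarith)
  have hC1r : C1 ≤ r := s1 hC10.le hlam0.le hrx
  have hsmall : ∀ a : ℝ, a * κ ≤ C1 → a * r ≤ x / κ := by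
    intro a ha
    rw [le_div_iff₀ hκ0]
    calc a * r * κ = (a * κ) * r := by ring
      _ ≤ r * r := mul_le_mul_of_nonneg_right (ha.trans hC1r) (by linarith)
      _ = x := hr
  have hsmall2 : ∀ a : ℝ, a * κ ≤ C1 → a * (r * lam) ≤ x / κ := by
    intro a ha
    rw [le_div_iff₀ hκ0]
    calc a * (r * lam) * κ = (a * κ) * lam * r := by ring
      _ ≤ C1 * (1 + lam) * r := by
          exact mul_le_mul_of_nonneg_right (s2 hC10.le hlam0.le ha) (by linarith)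
      _ ≤ x := e7
  obtain ⟨Q, hQ⟩ : ∃ Q : ℕ, Q = ⌊x / (c0 * τ)⌋₊ := ⟨_, rfl⟩
  obtain ⟨K, hK⟩ : ∃ K : ℕ, K = ⌊x / (c0 * lam)⌋₊ := ⟨_, rfl⟩
  obtain ⟨P, hP⟩ : ∃ P : ℕ, P = ⌈12 * g * τ / lam⌉₊ + 1 := ⟨_, rfl⟩
  obtain ⟨ℓ, hℓ⟩ : ∃ ℓ : ℕ, ℓ = ⌊τ⌋₊ + 1 := ⟨_, rfl⟩
  obtain ⟨e, he⟩ : ∃ e : ℕ, e = ⌊y⌋₊ := ⟨_, rfl⟩
  have hQle : (Q : ℝ) ≤ x / (c0 * τ) := by rw [hQ]; exact Nat.floor_le (by positivity)
  have hQgt : x / (c0 * τ) < Q + 1 := by rw [hQ]; exact Nat.lt_floor_add_one _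
  have hKle : (K : ℝ) ≤ x / (c0 * lam) := by rw [hK]; exact Nat.floor_le (by positivity)
  have hKgt : x / (c0 * lam) < K + 1 := by rw [hK]; exact Nat.lt_floor_add_one _
  have hBQ : (B : ℝ) + c ≤ x / (2 * c0 * τ) := by
    rw [le_div_iff₀ (by positivity)]
    calc ((B : ℝ) + c) * (2 * c0 * τ) = (2 * c0 * (B + c)) * τ := by ring
      _ ≤ C1 * r := mul_le_mul hC5 hτ2 hτ0.le hC10.le
      _ ≤ r * r := mul_le_mul_of_nonneg_right hC1r (by linarith)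
      _ = x := hr
  have hB10 : (10 : ℝ) ≤ x / (2 * c0 * τ) := by
    have h1 : (10 : ℝ) ≤ (B : ℝ) := by exact_mod_cast hB
    have h2 : (0 : ℝ) ≤ c := Nat.cast_nonneg _
    linarith
  have hQbig : x / (2 * c0 * τ) ≤ Q := by
    have h1 : x / (2 * c0 * τ) = (x / (c0 * τ)) / 2 := by field_simp
    linarith
  have hQK : x / (2 * c0 * τ) ≤ x / (2 * c0 * lam) := by
    apply div_le_div_of_nonneg_left hx0.le (by positivity)
    gcongr
  have hKbig : x / (2 * c0 * lam) ≤ K := by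
    have h1 : x / (2 * c0 * lam) = (x / (c0 * lam)) / 2 := by field_simp
    linarith
  have hQB : B + c ≤ Q := by
    have h0 := hBQ.trans hQbig
    exact_mod_cast h0
  have hKlam : lam * (K : ℝ) ≤ x / c0 := by
    calc lam * (K : ℝ) ≤ lam * (x / (c0 * lam)) := mul_le_mul_of_nonneg_left hKle hlam0.le
      _ = x / c0 := by field_simp
  have hQτ : τ * (Q : ℝ) ≤ x / c0 := by
    calc τ * (Q : ℝ) ≤ τ * (x / (c0 * τ)) := mul_le_mul_of_nonneg_left hQle hτ0.le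
      _ = x / c0 := by field_simp
  have hQx2 : (Q : ℝ) ≤ x / 2 := by
    refine hQle.trans ?_
    apply div_le_div_of_nonneg_left hx0.le (by norm_num)
    have : 2 * 1 ≤ c0 * τ := mul_le_mul hc02 hτ11 (by norm_num) hc00.le
    linarith
  have hQx : (Q : ℝ) ≤ x := by linarith
  have hQ0 : (0 : ℝ) ≤ Q := Nat.cast_nonneg _
  have hK0 : (0 : ℝ) ≤ K := Nat.cast_nonneg _
  have hQ1' : (1 : ℝ) ≤ Q := by exact_mod_cast (by omega : 1 ≤ Q)
  have hy1 : 1 ≤ y := by linarith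
  have hy0 : 0 ≤ y := by linarith
  have hy2 : 2 ≤ y := by linarith
  have hey : (e : ℝ) ≤ y := by rw [he]; exact Nat.floor_le hy0
  have he0 : (0 : ℝ) ≤ e := Nat.cast_nonneg _
  have hτlam : 1 ≤ τ / lam := by rw [one_le_div hlam0]; exact hτ1
  have hPle : (P : ℝ) ≤ (12 * g + 2) * τ / lam := by
    rw [hP]
    push_cast
    have h1 : 0 ≤ 12 * (g : ℝ) * τ / lam := by positivity
    have h2 := Nat.ceil_lt_add_one h1
    have h3 : (12 * (g : ℝ) + 2) * τ / lam = 12 * g * τ / lam + 2 * (τ / lam) := by ring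
    rw [h3]
    linarith
  have hP0 : (0 : ℝ) ≤ P := Nat.cast_nonneg _
  have hPlam : (P : ℝ) * lam ≤ (12 * g + 2) * τ := by
    calc (P : ℝ) * lam ≤ (12 * g + 2) * τ / lam * lam := mul_le_mul_of_nonneg_right hPle hlam0.le
      _ = (12 * g + 2) * τ := by field_simp
  -- powers of `Q ^ F`
  have hxF : ∀ k : ℕ, ((Q : ℝ) ^ F) ^ k ≤ Real.exp (F * k * lam) := by
    intro k
    calc ((Q : ℝ) ^ F) ^ k ≤ (x ^ F) ^ k := by gcongr
      _ = Real.exp (F * k * lam) := by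
          rw [← pow_mul, Nexp hexp]
          congr 1
          push_cast
          ring
  have hpowQ : Real.exp (2 * τ) ^ (d * Q) ≤ y := by
    rw [← Real.exp_nat_mul, hy]
    apply Real.exp_le_exp.2
    push_cast
    calc ((d : ℝ) * Q) * (2 * τ) = 2 * d * (τ * Q) := by ring
      _ ≤ 2 * d * (x / c0) := by gcongr
      _ = (2 * d * κ) * x / (c0 * κ) := by field_simp
      _ ≤ c0 * x / (c0 * κ) := by gcongr
      _ = x / κ := by field_simp
  have hpowg : ((Q : ℝ) ^ F) ^ (g * K) ≤ y := by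
    refine (hxF _).trans ?_
    rw [hy]
    apply Real.exp_le_exp.2
    push_cast
    calc (F : ℝ) * (g * K) * lam = F * g * (lam * K) := by ring
      _ ≤ F * g * (x / c0) := by gcongr
      _ = (κ * F * g) * x / (c0 * κ) := by field_simp
      _ ≤ c0 * x / (c0 * κ) := by gcongr
      _ = x / κ := by field_simp
  have hpow1 : ((Q : ℝ) ^ F) ^ K ≤ y := by
    refine (hxF _).trans ?_
    rw [hy]
    apply Real.exp_le_exp.2
    calc (F : ℝ) * K * lam = F * (lam * K) := by ring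
      _ ≤ F * (x / c0) := by gcongr
      _ = (κ * F) * x / (c0 * κ) := by field_simp
      _ ≤ c0 * x / (c0 * κ) := by gcongr
      _ = x / κ := by field_simp
  have hpowP : ((Q : ℝ) ^ F) ^ (g * P + g) ≤ y := by
    refine (hxF _).trans ?_
    rw [hy]
    apply Real.exp_le_exp.2
    push_cast
    calc (F : ℝ) * (g * P + g) * lam = F * g * (P * lam + lam) := by ring
      _ ≤ F * g * ((12 * g + 2) * τ + τ) := by gcongr
      _ = (F * g * (12 * g + 3)) * τ := by ring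
      _ ≤ (F * g * (12 * g + 3)) * r := by gcongr
      _ ≤ x / κ := hsmall _ hC2
  have hmx : (m : ℝ) + 1 ≤ Real.exp (2 * τ) := by
    have h1 : Real.exp (2 * τ) = Real.exp τ * Real.exp τ := by rw [← Real.exp_add]; ring_nf
    have h2 : 2 ≤ Real.exp τ := by
      have := Real.add_one_le_exp τ
      linarith
    rw [h1]
    exact s3 hcase h2
  have hm0 : (0 : ℝ) ≤ m := Nat.cast_nonneg _
  -- bounds for ℓ
  have hℓle : (ℓ : ℝ) ≤ 2 * τ := by
    rw [hℓ]; push_cast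
    have := Nat.floor_le hτ0.le
    linarith
  have hℓgt : τ < ℓ := by rw [hℓ]; push_cast; exact Nat.lt_floor_add_one _
  have hℓ0 : (0 : ℝ) ≤ ℓ := Nat.cast_nonneg _
  have hℓm : m < 3 ^ ℓ := by
    have h1 : Real.exp τ ≤ (3 : ℝ) ^ ℓ := by
      have h3 : (3 : ℝ) ^ ℓ = Real.exp (ℓ * Real.log 3) := by
        rw [Real.exp_nat_mul, Real.exp_log (by norm_num)]
      rw [h3]
      apply Real.exp_le_exp.2
      have h5 : 1 ≤ Real.log 3 := by
        rw [Real.le_log_iff_exp_le (by norm_num)]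
        exact Real.exp_one_lt_three.le
      exact s4 hτ0.le hℓgt h5
    have : (m : ℝ) < (3 : ℝ) ^ ℓ := lt_of_lt_of_le hcase h1
    exact_mod_cast this
  have hry : 4 * r ≤ y := by
    have h1 : 4 * r ≤ x / κ := hsmall 4 hC1
    have h2 := Real.add_one_le_exp (x / κ)
    rw [← hy] at h2
    linarith
  have hcQ : (c : ℝ) ≤ Q := by exact_mod_cast (by omega : c ≤ Q)
  have hcy : (c : ℝ) ≤ y := by
    have h1 : (c : ℝ) ≤ x / (2 * c0 * τ) := by
      have : (0 : ℝ) ≤ B := Nat.cast_nonneg _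
      linarith
    have h2 : (c : ℝ) ≤ C1 :=
      (s5 (Nat.cast_nonneg c) (Nat.cast_nonneg B) hc02).trans hC5
    linarith
  obtain ⟨H, hH⟩ : ∃ H : ℕ, H = e * (Q ^ F) ^ (g * K + g * P + g) + 1 := ⟨_, rfl⟩
  have hHle : (H : ℝ) ≤ y ^ 4 := by
    have h0 : g * K + g * P + g = g * K + (g * P + g) := by ring
    have h1 : (e : ℝ) * (((Q : ℝ) ^ F) ^ (g * K) * ((Q : ℝ) ^ F) ^ (g * P + g)) ≤ y * (y * y) :=
      mul_le_mul hey (mul_le_mul hpowg hpowP (by positivity) hy0) (by positivity) hy0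
    rw [hH]; push_cast
    rw [h0, pow_add]
    have := N4 hy2
    linarith
  have hH0 : (0 : ℝ) ≤ H := Nat.cast_nonneg _
  have hQ2l : ((Q : ℝ) ^ F) ^ (2 * ℓ) ≤ y := by
    refine (hxF _).trans ?_
    rw [hy]
    apply Real.exp_le_exp.2
    push_cast
    calc (F : ℝ) * (2 * (ℓ : ℝ)) * lam ≤ F * (2 * (2 * r)) * lam := by
          gcongr
          linarith
      _ = (4 * F) * (r * lam) := by ring
      _ ≤ x / κ := hsmall2 _ hC3
  -- the scale Z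
  obtain ⟨Z, hZ⟩ : ∃ Z : ℕ, Z = ⌈y ^ W⌉₊ := ⟨_, rfl⟩
  have hZge : y ^ W ≤ Z := by rw [hZ]; exact Nat.le_ceil _
  have hZle : (Z : ℝ) ≤ y ^ (W + 1) := by
    have h1 : (Z : ℝ) < y ^ W + 1 := by
      rw [hZ]
      exact Nat.ceil_lt_add_one (by positivity)
    exact s6 hy2 h1
  have hZ0 : (0 : ℝ) ≤ Z := Nat.cast_nonneg _
  have hcond : c * (e + 1) ^ g * (m + 1) ^ g * (Q ^ F) ^ (g * K + g * P) *
      ((Q ^ F) ^ K * Z + 1) ≤ N := by
    have g2 : ((e : ℝ) + 1) ^ g ≤ y ^ (2 * g) := Ng2 g he0 hy2 hey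
    have g3 : ((m : ℝ) + 1) ^ g ≤ y := by
      refine le_trans (pow_le_pow_left₀ (by linarith) hmx g) ?_
      rw [← Real.exp_nat_mul, hy]
      apply Real.exp_le_exp.2
      calc (g : ℝ) * (2 * τ) ≤ g * (2 * r) := by gcongr
        _ = (2 * g) * r := by ring
        _ ≤ x / κ := hsmall _ hC4
    have g4 : ((Q : ℝ) ^ F) ^ (g * P) ≤ y := by
      refine le_trans ?_ hpowP
      apply pow_le_pow_right₀ (one_le_pow₀ hQ1')
      omega
    have g5 : ((Q : ℝ) ^ F) ^ K * Z + 1 ≤ y ^ (W + 3) := by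
      have h1 : ((Q : ℝ) ^ F) ^ K * Z ≤ y * y ^ (W + 1) := mul_le_mul hpow1 hZle hZ0 hy0
      exact s7 hy2 h1
    have key : (c : ℝ) * ((e : ℝ) + 1) ^ g * ((m : ℝ) + 1) ^ g *
          (((Q : ℝ) ^ F) ^ (g * K) * ((Q : ℝ) ^ F) ^ (g * P)) * (((Q : ℝ) ^ F) ^ K * Z + 1)
        ≤ y * y ^ (2 * g) * y * (y * y) * y ^ (W + 3) :=
      L3' hy0 (by positivity) (by positivity) (by positivity) (by positivity)
        (by positivity) hcy g2 g3 hpowg g4 g5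
    have e10 : y * y ^ (2 * g) * y * (y * y) * y ^ (W + 3) = (N : ℝ) := by
      rw [hNy, hκn, hW]; ring
    rw [e10, ← pow_add] at key
    exact_mod_cast key
  have hlogQ : lam ≤ 3 * Real.log Q := by
    have h1 : r / (2 * c0) ≤ Q := by
      refine le_trans ?_ hQbig
      rw [div_le_div_iff₀ (by positivity) (by positivity)]
      calc r * (2 * c0 * τ) ≤ r * (2 * c0 * r) := by gcongr
        _ = x * (2 * c0) := by rw [← hr]; ring
    have h2 := Real.log_le_log (by positivity) h1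
    rw [Real.log_div (by linarith) (by linarith)] at h2
    have h3 : lam = 2 * Real.log r := by
      have h4 : Real.log x = lam := by rw [← hexp, Real.log_exp]
      rw [← h4, ← hr, Real.log_mul (by linarith) (by linarith)]
      ring
    linarith
  have hcPK : 2 * (c * P) ≤ K := by
    have hc0' : (0 : ℝ) ≤ c := Nat.cast_nonneg _
    have h1 : 2 * ((c : ℝ) * P) ≤ x / (2 * c0 * lam) := by
      rw [le_div_iff₀ (by positivity)]
      calc 2 * ((c : ℝ) * P) * (2 * c0 * lam) = 4 * c0 * c * (P * lam) := by ring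
        _ ≤ 4 * c0 * c * ((12 * g + 2) * τ) := by gcongr
        _ ≤ 8 * c0 * c * (12 * g + 2) * r := by
            have h5 := s8 (k := c0 * c) (v := 12 * g + 2) (τ := τ) (r := r)
              (by positivity) (by positivity) hτ2 (by linarith)
            calc 4 * c0 * c * ((12 * g + 2) * τ) = 4 * (c0 * c) * ((12 * g + 2) * τ) := by ring
              _ ≤ _ := h5
              _ = _ := by ring
        _ ≤ C1 * r := mul_le_mul_of_nonneg_right hC6 (by linarith)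
        _ ≤ r * r := mul_le_mul_of_nonneg_right hC1r (by linarith)
        _ = x := hr
    have h2 := h1.trans hKbig
    exact_mod_cast h2
  have hK2 : 2 ≤ K := by
    have h1 : (2 : ℝ) ≤ K := by linarith
    exact_mod_cast h1
  refine ⟨Q, K, P, ℓ, e, Z, hQB, hQbig, hQx, hKbig, hcPK, hK2, hPle, hpowQ, ?_, hℓle, hℓm, ?_,
    hcond, ?_, ?_, ?_, hlogQ⟩
  · intro n hn
    rw [he]
    exact Nat.le_floor hn
  · rw [← hH]
    have h0 : 2 * (ℓ : ℝ) ≤ y := by linarith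
    have h1 : 2 * (ℓ : ℝ) * ((Q : ℝ) ^ F) ^ (2 * ℓ) * H ≤ y * y * y ^ 4 :=
      mul_le_mul (mul_le_mul h0 hQ2l (by positivity) hy0) hHle hH0 (by positivity)
    have h2 : y * y * y ^ 4 < y ^ W := by
      have e11 : y * y * y ^ 4 = y ^ 6 := by ring
      rw [e11]
      exact pow_lt_pow_right₀ (by linarith) (by omega)
    have h3 : 2 * (ℓ : ℝ) * ((Q : ℝ) ^ F) ^ (2 * ℓ) * H < Z := by linarith
    exact_mod_cast h3
  · intro q hq1 hqq hcq
    have hqqr : (Q : ℝ) ≤ (q : ℝ) ^ 2 := by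
      rw [pow_two]; exact_mod_cast hqq
    have hq1r : (1 : ℝ) ≤ q := by exact_mod_cast hq1
    have hcqr : (c : ℝ) ≤ q := by exact_mod_cast hcq
    have hq0 : (0 : ℝ) < q := by linarith
    have h1 : lam ≤ 6 * Real.log q := by
      have h2 := Real.log_le_log (by linarith) hqqr
      rw [Real.log_pow] at h2
      push_cast at h2
      linarith
    have h3 : Real.exp (2 * τ) ^ g ≤ (q : ℝ) ^ (P - 1) := by
      rw [← Real.exp_nat_mul]
      have h4 : (q : ℝ) ^ (P - 1) = Real.exp ((P - 1 : ℕ) * Real.log q) := by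
        rw [Real.exp_nat_mul, Real.exp_log hq0]
      rw [h4]
      apply Real.exp_le_exp.2
      have h5 : P - 1 = ⌈12 * g * τ / lam⌉₊ := by rw [hP]; rfl
      rw [h5]
      have h6 := Nat.le_ceil (12 * (g : ℝ) * τ / lam)
      have h7 : 0 ≤ Real.log q := Real.log_nonneg hq1r
      have h8 : 12 * (g : ℝ) * τ / lam * (lam / 6) = g * (2 * τ) := by
        field_simp
        ring
      calc (g : ℝ) * (2 * τ) = 12 * (g : ℝ) * τ / lam * (lam / 6) := h8.symm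
        _ ≤ (⌈12 * (g : ℝ) * τ / lam⌉₊ : ℝ) * Real.log q :=
            mul_le_mul h6 (by linarith) (by positivity) (Nat.cast_nonneg _)
    have hP1 : P - 1 + 1 = P := by omega
    have h9 : (c : ℝ) * ((m : ℝ) + 1) ^ g ≤ ((q : ℝ) ^ F) ^ P := by
      calc (c : ℝ) * ((m : ℝ) + 1) ^ g ≤ q * (q : ℝ) ^ (P - 1) := by
            refine mul_le_mul hcqr ?_ (by positivity) hq0.le
            exact (pow_le_pow_left₀ (by linarith) hmx g).trans h3
        _ = (q : ℝ) ^ P := by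
            conv_rhs => rw [← hP1]
            rw [pow_succ]
            ring
        _ ≤ ((q : ℝ) ^ F) ^ P := by
            apply pow_le_pow_left₀ (by linarith)
            exact le_self_pow₀ hq1r (by omega)
    exact_mod_cast h9
  · have h1 : (N : ℝ) ≤ Z * Z := by
      rw [hNy]
      calc y ^ κn ≤ y ^ (W + W) := pow_le_pow_right₀ hy1 (by omega)
        _ = y ^ W * y ^ W := pow_add _ _ _
        _ ≤ Z * Z := mul_le_mul hZge hZge (by positivity) hZ0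
    exact_mod_cast h1
  · rw [← hH]
    calc (H : ℝ) * y ≤ y ^ 4 * y := mul_le_mul_of_nonneg_right hHle hy0
      _ = y ^ 5 := by ring
      _ ≤ y ^ W := pow_le_pow_right₀ hy1 (by omega)
      _ ≤ Z := hZge

/-- the final computation -/
lemma final {c1 c0 c v n K x τ lam ℓ P Lam : ℝ} (hc1 : 0 < c1) (hc0 : 0 < c0) (hc : 0 ≤ c)
    (hv : 0 < v) (hx : 0 < x) (hτ : 0 < τ) (hlam : 0 < lam) (hP0 : 0 ≤ P) (hℓ0 : 0 ≤ ℓ)
    (hL : 0 ≤ Lam)
    (h1 : c1 / 2 * (x / (2 * c0 * τ)) / lam ≤ n) (h2 : x / (2 * c0 * lam) ≤ K)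
    (h3 : n * (K / 2) * (K / 4) ≤ c * P * P * (5 * ℓ * Lam)) (hP : P ≤ v * τ / lam)
    (hℓ : ℓ ≤ 2 * τ) :
    c1 / (1280 * c0 ^ 3 * (c + 1) * v ^ 2) * x ^ 3 / (τ ^ 4 * lam) ≤ Lam := by
  have hn0 : 0 ≤ n := le_trans (by positivity) h1
  have hK0 : 0 ≤ K := le_trans (by positivity) h2
  have h4 : c1 / 2 * (x / (2 * c0 * τ)) / lam * (x / (2 * c0 * lam) / 2) *
      (x / (2 * c0 * lam) / 4) ≤ n * (K / 2) * (K / 4) := by
    gcongr
  have h5 : c * P * P * (5 * ℓ * Lam) ≤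
      (c + 1) * (v * τ / lam) * (v * τ / lam) * (5 * (2 * τ) * Lam) := by
    gcongr
    linarith
  have h6 := h4.trans (h3.trans h5)
  have hc1' : 0 < c + 1 := by linarith
  rw [div_le_iff₀ (by positivity)]
  have h7 : c1 / (1280 * c0 ^ 3 * (c + 1) * v ^ 2) * x ^ 3 =
      (c1 / 2 * (x / (2 * c0 * τ)) / lam * (x / (2 * c0 * lam) / 2) * (x / (2 * c0 * lam) / 4)) *
        (τ * lam ^ 3 / (10 * (c + 1) * v ^ 2)) := by
    field_simp
    ring
  have h8 : Lam * (τ ^ 4 * lam) = ((c + 1) * (v * τ / lam) * (v * τ / lam) *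
      (5 * (2 * τ) * Lam)) * (τ * lam ^ 3 / (10 * (c + 1) * v ^ 2)) := by
    field_simp
    ring
  rw [h7, h8]
  exact mul_le_mul_of_nonneg_right h6 (by positivity)

end Pool.Agent.N333.Pt
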