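import Pool.Agent.N333.As
import Pool.Agent.N333.Pt

/-!
# Many positions outside sums of few units: asymptotic assembly
-/

set_option autoImplicit false

namespace Pool.Agent.N333.At

open Finset Polynomial Filter Topology
open Pool.Agent.H393R2.DC (S Pol V Dn digit)
open Pool.Agent.H323R2.Gen (badG NR vv badG_card)
open Pool.Agent.TH842.A3 (SP5)
open Pool.Agent.TH698.A3 (sqrt_few)
open Pool.Agent.N333.Ge (Nr UL)
open Pool.Agent.N333.As (finiteE pairs Nr_mono aux1)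

lemma sum7 {a1 a2 a3 a4 a5 a6 C1 : ℝ} (h1 : 0 ≤ a1) (h2 : 0 ≤ a2) (h3 : 0 ≤ a3) (h4 : 0 ≤ a4)
    (h5 : 0 ≤ a5) (h6 : 0 ≤ a6) (h : C1 = a1 + a2 + a3 + a4 + a5 + a6) :
    a1 ≤ C1 ∧ a2 ≤ C1 ∧ a3 ≤ C1 ∧ a4 ≤ C1 ∧ a5 ≤ C1 ∧ a6 ≤ C1 := by
  refine ⟨?_, ?_, ?_, ?_, ?_, ?_⟩ <;> linarith

lemma base {C C2 m E x : ℝ} (hC : 1 ≤ C) (hC2 : 1 ≤ C2) (hm : m ≤ E) (hx : 2 * (C * C2) ≤ x)
    (hE : x ≤ E) : C * (C2 * (1 + m)) ≤ E * E := by
  have h0 : 1 ≤ C * C2 := by nlinarith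
  have h1 : 1 ≤ E := by linarith
  calc C * (C2 * (1 + m)) = C * C2 * (1 + m) := by ring
    _ ≤ C * C2 * (E + E) := by
        apply mul_le_mul_of_nonneg_left _ (by linarith)
        linarith
    _ = 2 * (C * C2) * E := by ring
    _ ≤ E * E := mul_le_mul_of_nonneg_right (hx.trans hE) (by linarith)

open Classical in
/-- **many positions outside sums of few units** -/
theorem asymT (f : ℤ[X]) (hf : f.Monic) (d : ℕ) (hd : f.natDegree = d) (hd2 : 2 ≤ d)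
    (b : ℕ) (hb : 2 ≤ b) (t C0 : ℝ) (ht : (f.map (Int.castRingHom ℝ)).eval t = 0)
    (U : ℕ → ℤ) (hU : ∀ K, |(U K : ℝ) - (b : ℝ) ^ K * t| ≤ C0)
    (hsup : ∃ c : ℝ, 0 < c ∧ ∃ Q0 : ℕ, ∀ Q : ℕ, Q0 ≤ Q →
      c * Q / Real.log Q ≤ ((NR f b Q).card : ℝ))
    (c g F : ℕ) (hF : 1 ≤ F) (hSP : SP5 f d b U c g F)
    (PS : Finset ℕ) (hPS : ∀ p ∈ PS, p.Prime) (R : ℕ) (hR : 1 ≤ R) (cc η : ℝ) (hη : 0 < η) :
    ∃ c3 : ℝ, 0 < c3 ∧ ∃ δ : ℝ, 0 < δ ∧ ∃ N0 : ℕ, ∀ N : ℕ, N0 ≤ N → ∀ τ : ℝ,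
      Real.log (Real.log N) ≤ τ → τ * τ ≤ Real.log N → ((Dn b U N).card : ℝ) < Real.exp τ →
      c3 * (Real.log N) ^ 3 / (τ ^ 4 * Real.log (Real.log N)) ≤
        (((Dn b U N).filter (fun k => N ≤ k * k ∧
          ¬ Nr PS R cc (δ * Real.log N) η (Real.log N) k)).card : ℝ) := by
  obtain ⟨C, hC1, hC⟩ := badG_card f hf d hd (by omega) b hb t C0 ht U hU
  obtain ⟨c1, hc1, Q0, hQ0⟩ := hsup
  have hC0 : 0 ≤ C0 := (abs_nonneg _).trans (hU 0)
  obtain ⟨C2, hC2⟩ : ∃ C2 : ℝ, C2 = 1 + |(U 0 : ℝ)| + (1 + b) * C0 := ⟨_, rfl⟩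
  have hC21 : 1 ≤ C2 := by
    have h1 : 0 ≤ |(U 0 : ℝ)| + (1 + b) * C0 := by positivity
    rw [hC2]
    linarith
  obtain ⟨Q1, hQ1⟩ := sqrt_few hc1
  obtain ⟨κn, hκn⟩ : ∃ κn : ℕ, κn = 4 * g + 27 := ⟨_, rfl⟩
  obtain ⟨κ, hκ⟩ : ∃ κ : ℝ, κ = (κn : ℝ) := ⟨_, rfl⟩
  have hκ13 : 13 ≤ κ := by
    rw [hκ]
    exact_mod_cast (by omega : 13 ≤ κn)
  have hκ0 : 0 < κ := by linarith
  obtain ⟨c0, hc0⟩ : ∃ c0 : ℝ, c0 = 2 * d * κ * F * (g + 1) := ⟨_, rfl⟩
  have hdR : (2 : ℝ) ≤ d := by exact_mod_cast hd2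
  have hFR : (1 : ℝ) ≤ F := by exact_mod_cast hF
  have hgR : (0 : ℝ) ≤ g := Nat.cast_nonneg _
  have hcR : (0 : ℝ) ≤ c := Nat.cast_nonneg _
  have hc02 : 2 ≤ c0 := by rw [hc0]; exact (Pool.Agent.N333.Pt.c0_ge hdR hκ13 hFR hgR).1
  have hc00 : 0 < c0 := by linarith
  obtain ⟨η', hη'⟩ : ∃ η' : ℝ, η' = min η (1 / κ) := ⟨_, rfl⟩
  have hη'0 : 0 < η' := by rw [hη']; exact lt_min hη (by positivity)
  have hη'η : η' ≤ η := by rw [hη']; exact min_le_left _ _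
  have hη'κ : η' ≤ 1 / κ := by rw [hη']; exact min_le_right _ _
  obtain ⟨δ, hδ, X0, hUL⟩ := UL PS hPS R hR cc 1 η' (1 / (12 * c0)) (1 / 8) hη'0
    (by positivity) (by norm_num)
  obtain ⟨mS, hmS⟩ : ∃ mS : ℕ, ∀ p ∈ PS, p < mS :=
    ⟨PS.sup id + 1, fun p hp => Nat.lt_succ_of_le (Finset.le_sup (f := id) hp)⟩
  obtain ⟨B, hB⟩ : ∃ B : ℕ, B = Q0 + Q1 + c * c + mS * mS + 10 := ⟨_, rfl⟩
  obtain ⟨C1, hC1'⟩ : ∃ C1 : ℝ, C1 = 4 * κ + F * g * (12 * g + 3) * κ + 4 * F * κ +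
    2 * g * κ + 2 * c0 * (B + c) + 8 * c0 * c * (12 * g + 2) := ⟨_, rfl⟩
  obtain ⟨s1, s2, s3, s4, s5, s6⟩ := sum7 (by positivity) (by positivity) (by positivity)
    (by positivity) (by positivity) (by positivity) hC1'
  obtain ⟨X, hX⟩ := Pool.Agent.N333.Pt.ev_cond C1 (max (6 * Real.log (2 * c0)) (2 * (C * C2)))
    (δ / F) κ (by positivity) hκ0
  obtain ⟨N1, hN1⟩ := eventually_atTop.1
    ((Real.tendsto_log_atTop.comp (tendsto_natCast_atTop_atTop (R := ℝ))).eventually_ge_atTop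
      (max X X0))
  obtain ⟨c3, hc3⟩ : ∃ c3 : ℝ, c3 = c1 / (1280 * c0 ^ 3 * (c + 1) * (12 * g + 2) ^ 2) := ⟨_, rfl⟩
  have hc30 : 0 < c3 := by rw [hc3]; positivity
  refine ⟨c3, hc30, δ, hδ, max N1 1, fun N hN τ hτ1 hτ2 hcard => ?_⟩
  have hNXX : max X X0 ≤ Real.log N := hN1 N (le_trans (le_max_left _ _) hN)
  have hNX : X ≤ Real.log N := le_trans (le_max_left _ _) hNXX
  have hNX0 : X0 ≤ Real.log N := le_trans (le_max_right _ _) hNXX
  have hNpos : 1 ≤ N := le_trans (le_max_right _ _) hN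
  obtain ⟨x, hx⟩ : ∃ x : ℝ, x = Real.log N := ⟨_, rfl⟩
  rw [← hx] at hNX hNX0 hτ1 hτ2 ⊢
  obtain ⟨e3, e6, e7, e4, e9, e5⟩ := hX _ hNX
  obtain ⟨lam, hlam⟩ : ∃ lam : ℝ, lam = Real.log x := ⟨_, rfl⟩
  rw [← hlam] at e3 e4 e7 e9 hτ1 ⊢
  obtain ⟨y, hy⟩ : ∃ y : ℝ, y = Real.exp (x / κ) := ⟨_, rfl⟩
  rw [← hy] at e5
  obtain ⟨m, hm⟩ : ∃ m : ℕ, m = (Dn b U N).card := ⟨_, rfl⟩
  rw [← hm] at hcard
  have hx1 : 1 ≤ x := by linarith
  have hx0 : 0 < x := by linarith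
  have hlam0 : 0 < lam := by linarith
  have hτ0 : 0 < τ := by linarith
  have hm0 : (0 : ℝ) ≤ m := Nat.cast_nonneg _
  have hexpl : Real.exp lam = x := by rw [hlam]; exact Real.exp_log hx0
  have hxτ : x ≤ Real.exp τ := by rw [← hexpl]; exact Real.exp_le_exp.2 hτ1
  have hNy : (N : ℝ) = y ^ κn := by
    rw [hy, ← Real.exp_nat_mul]
    have : (κn : ℝ) * (x / κ) = x := by
      rw [← hκ]
      field_simp
    rw [this, hx, Real.exp_log (by exact_mod_cast hNpos)]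
  have e4a : 6 * Real.log (2 * c0) ≤ lam := (le_max_left _ _).trans e4
  have hlamx : lam ≤ x := by
    have := Real.add_one_le_exp lam
    rw [hexpl] at this
    linarith
  have e4b : 2 * (C * C2) ≤ x := ((le_max_right _ _).trans e4).trans hlamx
  obtain ⟨r, hr⟩ : ∃ r : ℝ, r = Real.sqrt x := ⟨_, rfl⟩
  rw [← hr] at e7
  have hrr : r * r = x := by rw [hr]; exact Real.mul_self_sqrt hx0.le
  have hr0 : 0 ≤ r := by rw [hr]; exact Real.sqrt_nonneg _
  have hr1 : 1 ≤ r := by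
    rw [hr, Real.one_le_sqrt]
    exact hx1
  have hτr : τ ≤ r := by
    rw [hr]
    exact Real.le_sqrt_of_sq_le (by rw [pow_two]; exact hτ2)
  obtain ⟨Q, K, P, ℓ, e, Z, q1, q2, q3, k2, k3, k4, pP, q4, q5, q6, q7, q9, q10, q11, q12, q13,
    q14⟩ :=
    Pool.Agent.N333.Pt.params d c g F B κn (2 * g + 20) N m κ c0 C1 x lam r τ y hd2 hF rfl
      hκn hκ hc0 (by omega) s1 s2 s3 s4 s5 s6 hexpl hrr hr1 hτ1 hτr hy hNy e3 e4a e5 e6 e7 hcard
  -- bound for the exceptional sets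
  have hbase : C * (1 + (V b U N : ℝ)) ≤ Real.exp (2 * τ) := by
    have h1 := Pool.Agent.H393R2.DC.V_le_Dn b t C0 U hU N
    rw [← hC2, ← hm] at h1
    have h2 : Real.exp (2 * τ) = Real.exp τ * Real.exp τ := by rw [← Real.exp_add]; ring_nf
    rw [h2]
    exact (mul_le_mul_of_nonneg_left h1 (by linarith)).trans (base hC1 hC21 hcard.le e4b hxτ)
  have hVnn : 0 ≤ C * (1 + (V b U N : ℝ)) := by
    have : (0 : ℝ) ≤ (V b U N : ℝ) := by exact_mod_cast Pool.Agent.H393R2.DC.V_nonneg b U N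
    have : 0 ≤ C := by linarith
    positivity
  have hx41 : 1 ≤ Real.exp (2 * τ) := Real.one_le_exp (by linarith)
  have hcardbad : ∀ q : ℕ, q ≤ Q → 1 ≤ q → (badG f d b (Pol b U N) q N).card ≤ e := by
    intro q hqQ hq1
    apply q5
    calc ((badG f d b (Pol b U N) q N).card : ℝ) ≤ (C * (1 + (V b U N : ℝ))) ^ (d * q) :=
          (hC N q hq1).1
      _ ≤ (Real.exp (2 * τ)) ^ (d * q) := pow_le_pow_left₀ hVnn hbase _
      _ ≤ (Real.exp (2 * τ)) ^ (d * Q) := pow_le_pow_right₀ hx41 (Nat.mul_le_mul_left _ hqQ)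
      _ ≤ y := q4
  have hcardbad2 : ((range (N + 1)).filter (fun R => S b (f.comp (Pol b U N)) R ≠ 0)).card ≤ e := by
    apply q5
    calc _ ≤ (C * (1 + (V b U N : ℝ))) ^ (d * 1) := (hC N 1 le_rfl).2
      _ ≤ (Real.exp (2 * τ)) ^ (d * 1) := pow_le_pow_left₀ hVnn hbase _
      _ ≤ (Real.exp (2 * τ)) ^ (d * Q) := pow_le_pow_right₀ hx41 (Nat.mul_le_mul_left _ (by omega))
      _ ≤ y := q4
  -- the primes
  obtain ⟨QQ, hQQ⟩ : ∃ QQ : Finset ℕ, QQ = (NR f b Q).filter (fun q => Q ≤ q * q) := ⟨_, rfl⟩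
  have hmemQQ : ∀ q, q ∈ QQ ↔ q ∈ NR f b Q ∧ Q ≤ q * q := by
    intro q
    rw [hQQ, Finset.mem_filter]
  have hQQcard : c1 / 2 * Q / Real.log Q ≤ (QQ.card : ℝ) := by
    have h1 := hQ0 Q (by omega)
    have h2 := hQ1 Q (by omega)
    have h3 : (NR f b Q).card ≤ QQ.card + (Nat.sqrt Q + 1) := by
      have h4 : NR f b Q ⊆ QQ ∪ range (Nat.sqrt Q + 1) := by
        intro q hq
        rw [Finset.mem_union]
        by_cases h : Q ≤ q * q
        · exact Or.inl ((hmemQQ q).2 ⟨hq, h⟩)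
        · right
          rw [Finset.mem_range, Nat.lt_succ_iff, Nat.le_sqrt]
          omega
      refine (Finset.card_le_card h4).trans ((Finset.card_union_le _ _).trans ?_)
      rw [Finset.card_range]
    have h3' : ((NR f b Q).card : ℝ) ≤ QQ.card + (Nat.sqrt Q + 1) := by exact_mod_cast h3
    have h5 : c1 * Q / Real.log Q = c1 / 2 * Q / Real.log Q + c1 / 2 * Q / Real.log Q := by ring
    linarith
  have hQQq : ∀ q ∈ QQ, c ≤ q := by
    intro q hq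
    have hqq := ((hmemQQ q).1 hq).2
    by_contra hlt
    push Not at hlt
    have : q * q ≤ c * c := Nat.mul_le_mul hlt.le hlt.le
    omega
  have hQQS : ∀ q ∈ QQ, mS ≤ q := by
    intro q hq
    have hqq := ((hmemQQ q).1 hq).2
    by_contra hlt
    push Not at hlt
    have : q * q ≤ mS * mS := Nat.mul_le_mul hlt.le hlt.le
    omega
  have hQQmem : ∀ q ∈ QQ, q.Prime ∧ q ≤ Q ∧ c ≤ q ∧ (b : ZMod q) ≠ 0 ∧
      ∀ a : ZMod q, (f.map (Int.castRingHom (ZMod q))).eval a ≠ 0 := by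
    intro q hq
    have h1 := ((hmemQQ q).1 hq).1
    unfold NR at h1
    rw [Finset.mem_filter, Finset.mem_range] at h1
    exact ⟨h1.2.1, by omega, hQQq q hq, h1.2.2.1, h1.2.2.2⟩
  obtain ⟨Λ, hΛ⟩ : ∃ Λ : Finset ℕ, Λ = (Dn b U N).filter (fun k => N ≤ k * k ∧
    ¬ Nr PS R cc (δ * x) η x k) := ⟨_, rfl⟩
  rw [← hΛ]
  have hQ10 : 10 ≤ Q := by omega
  have hQ1r : (1 : ℝ) < Q := by exact_mod_cast (by omega : 1 < Q)
  have hlogQ : Real.log Q ≤ lam := by rw [hlam]; exact Real.log_le_log (by linarith) q3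
  have hlogQ0 : 0 < Real.log Q := Real.log_pos hQ1r
  have hG : ∀ q ∈ QQ, ∀ (u : ℕ) (ζ : ℕ → ℕ), (Q ^ F) ^ K * Z ≤ u →
      (∀ k ≤ K, ζ k ∈ Dn b U N ∧ u < (q ^ F) ^ k * ζ k ∧
        (q ^ F) ^ k * ζ k ≤ u + (e * (Q ^ F) ^ (g * K + g * P + g) + 1)) →
      K / 2 ≤ ((range K).filter (fun k => ζ k ∈ Λ ∧ ζ (k + 1) ∈ Λ)).card := by
    intro q hq u ζ hu hζ
    obtain ⟨hqp, hqQ, hqc, hqb, hqf⟩ := hQQmem q hq
    have hqq := ((hmemQQ q).1 hq).2
    have hqF : q ^ F ≤ Q ^ F := Nat.pow_le_pow_left hqQ F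
    have hqF1 : 1 ≤ q ^ F := Nat.one_le_pow _ _ hqp.pos
    have hQF1 : 1 ≤ (Q ^ F) ^ K := Nat.one_le_pow _ _ (Nat.pow_pos (by omega))
    have hZpos : 0 < Z := lt_of_le_of_lt (Nat.zero_le _) q9
    have hZu : Z ≤ u := le_trans (Nat.le_mul_of_pos_left _ hQF1) hu
    have hupos : 0 < u := lt_of_lt_of_le hZpos hZu
    have hbig : ∀ k ≤ K, Z < ζ k := by
      intro k hk
      have a1 := (hζ k hk).2.1
      have a3 : (q ^ F) ^ k * Z ≤ (Q ^ F) ^ K * Z := by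
        refine Nat.mul_le_mul_right _ ?_
        exact (Nat.pow_le_pow_left hqF k).trans (Nat.pow_le_pow_right (Nat.pow_pos (by omega)) hk)
      exact lt_of_mul_lt_mul_left (a3.trans_lt (hu.trans_lt a1)) (Nat.zero_le _)
    have hNle : ∀ k ≤ K, ζ k ≤ N := by
      intro k hk
      have a1 := (hζ k hk).1
      unfold Dn at a1
      rw [Finset.mem_filter, Finset.mem_range] at a1
      omega
    have hsq : ∀ k ≤ K, N ≤ ζ k * ζ k := fun k hk =>
      q12.trans (Nat.mul_le_mul (hbig k hk).le (hbig k hk).le)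
    -- membership
    have hmem : ∀ k ≤ K, (ζ k ∈ Λ ↔ ¬ Nr PS R cc (δ * x) η x (ζ k)) := by
      intro k hk
      rw [hΛ, Finset.mem_filter]
      exact ⟨fun h => h.2.2, fun h => ⟨(hζ k hk).1, hsq k hk, h⟩⟩
    -- the uniform theorem
    have hlog1 : Real.log ((q ^ F : ℕ) : ℝ) = F * Real.log q := by
      push_cast
      rw [Real.log_pow]
    have hq1 : (1 : ℝ) ≤ q := by exact_mod_cast hqp.one_lt.le
    have hlq0 : 0 ≤ Real.log q := Real.log_nonneg hq1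
    have hlqQ : Real.log q ≤ Real.log Q :=
      Real.log_le_log (by linarith) (by exact_mod_cast hqQ)
    have hlQq : Real.log Q ≤ 2 * Real.log q := by
      have h1 : (Q : ℝ) ≤ (q : ℝ) ^ 2 := by
        rw [pow_two]
        exact_mod_cast hqq
      have h2 := Real.log_le_log (by linarith) h1
      rw [Real.log_pow] at h2
      exact_mod_cast h2
    have hulr : (Z : ℝ) ≤ u := by exact_mod_cast hZu
    have hur : (0 : ℝ) < u := by exact_mod_cast hupos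
    have hy0 : 0 < y := by linarith
    have hH : ((e * (Q ^ F) ^ (g * K + g * P + g) + 1 : ℕ) : ℝ) ≤ Real.exp (-(η' * x)) * u := by
      have h1 : ((e * (Q ^ F) ^ (g * K + g * P + g) + 1 : ℕ) : ℝ) ≤ u / y := by
        rw [le_div_iff₀ hy0]
        exact q13.trans hulr
      refine h1.trans ?_
      rw [div_eq_mul_inv, mul_comm]
      refine mul_le_mul_of_nonneg_right ?_ hur.le
      rw [hy, ← Real.exp_neg]
      apply Real.exp_le_exp.2
      have h2 : η' * x ≤ 1 / κ * x := mul_le_mul_of_nonneg_right hη'κ hx0.le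
      have h3 : 1 / κ * x = x / κ := by ring
      linarith
    have hT := hUL x hNX0 (q ^ F) K hqF1 (fun p hp => by
        apply Nat.Coprime.pow_left
        rw [Nat.coprime_primes hqp (hPS p hp)]
        have := hmS p hp
        have := hQQS q hq
        omega)
      (by
        rw [hlog1]
        calc (F : ℝ) * Real.log q ≤ F * lam := by
              gcongr
              linarith
          _ ≤ F * (δ / F * x) := by gcongr
          _ = δ * x := by field_simp)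
      (by
        rw [hlog1]
        have h1 : lam / 6 ≤ F * Real.log q := by
          have h2 : 1 * Real.log q ≤ F * Real.log q := mul_le_mul_of_nonneg_right hFR hlq0
          linarith
        calc 1 / (12 * c0) * x = x / (2 * c0 * lam) * (lam / 6) := by
              field_simp
              ring
          _ ≤ (K : ℝ) * (F * Real.log q) := mul_le_mul k2 h1 (by positivity) (by positivity))
      (u : ℚ) (fun k => (ζ k : ℚ)) (by exact_mod_cast hupos)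
      (by
        intro k hk
        have h1 := hbig k hk
        have h2 := hNle k hk
        have h3 : (1 : ℝ) ≤ (ζ k : ℝ) := by exact_mod_cast (by omega : 1 ≤ ζ k)
        refine ⟨by exact_mod_cast (by omega : 0 < ζ k), ?_, ?_⟩
        · rw [Rat.cast_natCast]
          exact Real.log_nonneg h3
        · rw [Rat.cast_natCast, one_mul, hx]
          exact Real.log_le_log (by linarith) (by exact_mod_cast h2))
      (by
        intro k hk
        obtain ⟨-, g2, g3⟩ := hζ k hk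
        have h2 : (u : ℝ) < ((q : ℝ) ^ F) ^ k * ζ k := by exact_mod_cast g2
        have h3 : ((q : ℝ) ^ F) ^ k * ζ k ≤
            u + ((e * (Q ^ F) ^ (g * K + g * P + g) + 1 : ℕ) : ℝ) := by exact_mod_cast g3
        rw [Rat.cast_natCast, Rat.cast_natCast, Nat.cast_pow]
        rw [abs_of_pos (by linarith)]
        linarith)
      ((range (K + 1)).filter (fun k => ¬ (ζ k ∈ Λ)))
      (by
        intro k hk
        rw [Finset.mem_filter, Finset.mem_range] at hk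
        have hkQ : k ≤ K := by omega
        refine ⟨hkQ, ?_⟩
        have h1 := hk.2
        rw [hmem k hkQ, not_not] at h1
        rw [Rat.cast_natCast]
        exact Nr_mono (Nat.cast_nonneg _) hx0.le le_rfl hη'η h1)
    obtain ⟨tt, htt⟩ : ∃ tt : ℕ, tt = ((range (K + 1)).filter (fun k => ¬ (ζ k ∈ Λ))).card :=
      ⟨_, rfl⟩
    rw [← htt] at hT
    have h8 : 8 * tt ≤ K + 1 := by
      have h9 : (8 : ℝ) * tt ≤ K + 1 := by linarith
      exact_mod_cast h9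
    have hpairs := pairs K (fun k => ζ k ∈ Λ) tt (le_of_eq htt.symm)
    omega
  have hΛm : Λ.card ≤ m := by
    rw [hm, hΛ]
    exact Finset.card_le_card (Finset.filter_subset _ _)
  have hfin := finiteE hSP hF N K Q P e Z ℓ QQ hQQmem
    (fun q hq => hcardbad q (hQQmem q hq).2.1 (hQQmem q hq).1.one_lt.le)
    hcardbad2
    (fun q hq => by
      rw [← hm]
      exact q11 q (hQQmem q hq).1.one_lt.le ((hmemQQ q).1 hq).2 (hQQq q hq))
    (by rw [← hm]; exact q10) q9 Λ (lt_of_le_of_lt hΛm q7) (K / 2) hG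
  -- conclusion
  have hfinR : (QQ.card : ℝ) * ((K : ℝ) / 2) * (K / 4) ≤
      c * P * P * (5 * ℓ * Λ.card) := by
    have hcPQ : c * P ≤ K := by omega
    have h1 : ((QQ.card * (K - c * P) * (K / 2) : ℕ) : ℝ) ≤
        ((c * P * P * (5 * ℓ * Λ.card) : ℕ) : ℝ) := Nat.cast_le.2 hfin
    rw [Nat.cast_mul, Nat.cast_mul, Nat.cast_sub hcPQ] at h1
    push_cast at h1
    have h2 : 2 * ((c : ℝ) * P) ≤ K := by exact_mod_cast k3
    have h3 : (K : ℝ) / 4 ≤ ((K / 2 : ℕ) : ℝ) := by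
      have h4 : K ≤ 4 * (K / 2) := by omega
      have h5 : (K : ℝ) ≤ 4 * ((K / 2 : ℕ) : ℝ) := by exact_mod_cast h4
      linarith
    have hn0 : (0 : ℝ) ≤ QQ.card := Nat.cast_nonneg _
    have h6 : (QQ.card : ℝ) * (K / 2) * (K / 4) ≤
        (QQ.card : ℝ) * (K - c * P) * ((K / 2 : ℕ) : ℝ) :=
      aux1 hn0 (Nat.cast_nonneg _) (by linarith) h3
    exact h6.trans h1
  have hr : c1 / 2 * (x / (2 * c0 * τ)) / lam ≤ (QQ.card : ℝ) := by
    refine le_trans ?_ hQQcard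
    apply div_le_div₀ (by positivity) _ hlogQ0 hlogQ
    exact mul_le_mul_of_nonneg_left q2 (by positivity)
  rw [hc3]
  exact Pool.Agent.N333.Pt.final hc1 hc00 hcR (by positivity) hx0 hτ0 hlam0 (Nat.cast_nonneg _)
    (Nat.cast_nonneg _) (Nat.cast_nonneg _) hr k2 hfinR pP q6

end Pool.Agent.N333.At
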