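import Mathlib

/-!
# Counting numbers near sums of few units
-/

set_option autoImplicit false

namespace Pool.Agent.N333.Cn

open Finset

open Classical in
/-- few numbers are near sums of few units -/
lemma count (S : Finset ℕ) (R N m L : ℕ) (A B T : ℝ) (hA : A < m + 1) (hB : B < L + 1)
    (hT : T < m + 1) :
    ((Icc 1 N).filter (fun k : ℕ => ∃ (a : Fin R → ℤ) (e : Fin R → ℕ → ℤ),
      (∀ i, |(a i : ℝ)| ≤ A) ∧ (∀ i, ∀ p ∈ S, |(e i p : ℝ)| ≤ B) ∧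
      |(k : ℝ) - ∑ i, (a i : ℝ) * ∏ p ∈ S, (p : ℝ) ^ e i p| ≤ T)).card ≤
      (2 * m + 1) ^ R * ((2 * L + 1) ^ S.card) ^ R * (2 * m + 2) := by
  obtain ⟨X1, hX1⟩ : ∃ X1 : Finset (Fin R → ℤ),
    X1 = Fintype.piFinset (fun _ => Icc (-(m : ℤ)) m) := ⟨_, rfl⟩
  obtain ⟨X2, hX2⟩ : ∃ X2 : Finset (Fin R → (S → ℤ)),
    X2 = Fintype.piFinset (fun _ => Fintype.piFinset (fun _ => Icc (-(L : ℤ)) L)) := ⟨_, rfl⟩
  obtain ⟨X3, hX3⟩ : ∃ X3 : Finset ℤ, X3 = Icc (-(m : ℤ)) (m + 1) := ⟨_, rfl⟩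
  obtain ⟨F, hF⟩ : ∃ F : (Fin R → ℤ) × (Fin R → (S → ℤ)) × ℤ → ℕ,
    F = fun t => (t.2.2 + ⌊∑ i, (t.1 i : ℝ) * ∏ p : S, ((p : ℕ) : ℝ) ^ t.2.1 i p⌋).toNat :=
    ⟨_, rfl⟩
  have hc1 : X1.card = (2 * m + 1) ^ R := by
    rw [hX1, Fintype.card_piFinset, Finset.prod_const, Finset.card_univ, Fintype.card_fin,
      Int.card_Icc]
    congr 1
    omega
  have hc2 : X2.card = ((2 * L + 1) ^ S.card) ^ R := by
    rw [hX2, Fintype.card_piFinset, Finset.prod_const, Finset.card_univ, Fintype.card_fin,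
      Fintype.card_piFinset, Finset.prod_const, Finset.card_univ, Fintype.card_coe, Int.card_Icc]
    congr 2
    omega
  have hc3 : X3.card = 2 * m + 2 := by
    rw [hX3, Int.card_Icc]
    omega
  have habs : ∀ (z : ℤ) (n : ℕ) (r : ℝ), |(z : ℝ)| ≤ r → r < n + 1 → z ∈ Icc (-(n : ℤ)) n := by
    intro z n r h1 h2
    rw [Finset.mem_Icc, ← abs_le]
    have h3 : ((|z| : ℤ) : ℝ) < ((n + 1 : ℤ) : ℝ) := by
      push_cast
      linarith
    have h4 : |z| < n + 1 := by exact_mod_cast h3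
    omega
  have hsub : (Icc 1 N).filter (fun k : ℕ => ∃ (a : Fin R → ℤ) (e : Fin R → ℕ → ℤ),
      (∀ i, |(a i : ℝ)| ≤ A) ∧ (∀ i, ∀ p ∈ S, |(e i p : ℝ)| ≤ B) ∧
      |(k : ℝ) - ∑ i, (a i : ℝ) * ∏ p ∈ S, (p : ℝ) ^ e i p| ≤ T) ⊆ (X1 ×ˢ X2 ×ˢ X3).image F := by
    intro k hk
    rw [Finset.mem_filter] at hk
    obtain ⟨-, a, e, h1, h2, h3⟩ := hk
    obtain ⟨s, hs⟩ : ∃ s : ℝ, s = ∑ i, (a i : ℝ) * ∏ p ∈ S, (p : ℝ) ^ e i p := ⟨_, rfl⟩
    rw [← hs] at h3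
    have hs' : ∑ i, (a i : ℝ) * ∏ p : S, ((p : ℕ) : ℝ) ^ e i p = s := by
      rw [hs]
      apply Finset.sum_congr rfl
      intro i _
      congr 1
      exact Finset.prod_coe_sort S (fun p => (p : ℝ) ^ e i p)
    rw [Finset.mem_image]
    refine ⟨(a, (fun i p => e i p), (k : ℤ) - ⌊s⌋), ?_, ?_⟩
    · rw [Finset.mem_product, Finset.mem_product]
      refine ⟨?_, ?_, ?_⟩
      · rw [hX1, Fintype.mem_piFinset]
        exact fun i => habs _ _ _ (h1 i) hA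
      · rw [hX2, Fintype.mem_piFinset]
        intro i
        rw [Fintype.mem_piFinset]
        exact fun p => habs _ _ _ (h2 i p p.2) hB
      · rw [hX3, Finset.mem_Icc]
        have h4 := Int.floor_le s
        have h5 := Int.lt_floor_add_one s
        rw [abs_le] at h3
        constructor
        · have : ((-(m : ℤ) - 1 : ℤ) : ℝ) < (((k : ℤ) - ⌊s⌋ : ℤ) : ℝ) := by
            push_cast
            linarith
          have h6 : -(m : ℤ) - 1 < (k : ℤ) - ⌊s⌋ := by exact_mod_cast this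
          show -(m : ℤ) ≤ (k : ℤ) - ⌊s⌋
          omega
        · have : (((k : ℤ) - ⌊s⌋ : ℤ) : ℝ) < ((m + 2 : ℤ) : ℝ) := by
            push_cast
            linarith
          have h6 : (k : ℤ) - ⌊s⌋ < m + 2 := by exact_mod_cast this
          show (k : ℤ) - ⌊s⌋ ≤ m + 1
          omega
    · rw [hF]
      show ((k : ℤ) - ⌊s⌋ + ⌊∑ i, (a i : ℝ) * ∏ p : S, ((p : ℕ) : ℝ) ^ e i p⌋).toNat = k
      rw [hs']
      simp
  refine (Finset.card_le_card hsub).trans (Finset.card_image_le.trans (le_of_eq ?_))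
  rw [Finset.card_product, Finset.card_product, hc1, hc2, hc3]
  ring

end Pool.Agent.N333.Cn
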