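import Pool.Agent.TH796.AL.Lem
import Pool.Agent.TH932.Scale
import Pool.Agent.N333.Alg

/-!
# Germs exponentially close to each other, and sums of few units
-/

set_option autoImplicit false

namespace Pool.Agent.N333.Ge

open Filter Topology Pool.Agent.TH932.Abs Pool.Agent.TH932.Germs Pool.Agent.TH932.Chi
open Pool.Agent.TH796.AL Pool.Agent.TH932.Scale

variable {L : ℕ → ℝ}

lemma fil (hL : Tendsto L atTop atTop) : Filt (KK L hL) (SS L Rinf) := pre_inf.filt hL

/-- germs exponentially close to one -/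
def C1 (L : ℕ → ℝ) (τ : ℝ) (g : GG) : Prop := g - 1 ∈ SS L Rinf τ

section
variable (hL : Tendsto L atTop atTop)
include hL

lemma one_mem : (1 : GG) ∈ SS L Rinf 0 := by
  have := (fil hL).alg_mem 1
  rwa [map_one] at this

lemma neg_mem {t : ℝ} {a : GG} (h : a ∈ SS L Rinf t) : -a ∈ SS L Rinf t := by
  have h1 := (fil hL).alg_mem (-1)
  rw [map_neg, map_one] at h1
  have h2 := (fil hL).mul_mem h1 h
  rwa [zero_add, neg_one_mul] at h2

lemma sub_mem {t : ℝ} {a b : GG} (h : a ∈ SS L Rinf t) (h' : b ∈ SS L Rinf t) :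
    a - b ∈ SS L Rinf t := by
  rw [sub_eq_add_neg]
  exact (fil hL).add_mem h (neg_mem hL h')

lemma C1.one {τ : ℝ} : C1 L τ 1 := by
  unfold C1
  rw [sub_self]
  exact (fil hL).zero_mem τ

lemma C1.anti {τ σ : ℝ} {g : GG} (h : C1 L τ g) (hs : σ ≤ τ) : C1 L σ g :=
  (fil hL).anti hs h

lemma C1.mem0 {τ : ℝ} (hτ : 0 ≤ τ) {g : GG} (h : C1 L τ g) : g ∈ SS L Rinf 0 := by
  have h1 := (fil hL).add_mem ((fil hL).anti hτ h) (one_mem hL)
  rwa [sub_add_cancel] at h1

lemma C1.mul {τ : ℝ} (hτ : 0 ≤ τ) {g h : GG} (hg : C1 L τ g) (hh : C1 L τ h) :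
    C1 L τ (g * h) := by
  unfold C1
  have h1 := (fil hL).mul_mem hg (hh.mem0 hL hτ)
  rw [add_zero] at h1
  have h2 := (fil hL).add_mem h1 hh
  have e : (g - 1) * h + (h - 1) = g * h - 1 := by ring
  rwa [e] at h2

lemma C1.pow {τ : ℝ} (hτ : 0 ≤ τ) {g : GG} (hg : C1 L τ g) (n : ℕ) : C1 L τ (g ^ n) := by
  induction n with
  | zero => rw [pow_zero]; exact C1.one hL
  | succ n ih => rw [pow_succ]; exact ih.mul hL hτ hg

lemma C1.inv0 {τ : ℝ} (hτ : 0 < τ) {g : GG} (hg : C1 L τ g) : g ≠ 0 ∧ g⁻¹ ∈ SS L Rinf 0 := by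
  obtain ⟨a, rfl⟩ := gm_surj g
  have h1 : ∀ᶠ n in (UU : Filter ℕ), (1 / 2 : ℝ) ≤ |(a n : ℝ)| := by
    have h2 : gm (fun n => a n - 1) ∈ SS L Rinf τ := hg
    rw [mem_SS] at h2
    have h3 := two_le_exp hL (show 0 < τ / 2 by positivity)
    filter_upwards [h2 (τ / 2) (by positivity), h3] with n hn hn3
    unfold Rinf at hn
    push_cast at hn
    have h4 : Real.exp (-(τ - τ / 2) * L n) ≤ 1 / 2 := by
      have e : -(τ - τ / 2) * L n = -(τ / 2 * L n) := by ring
      rw [e, Real.exp_neg, one_div]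
      exact inv_anti₀ (by norm_num) hn3
    have h5 := abs_sub_abs_le_abs_sub (1 : ℝ) (a n)
    rw [abs_one, abs_sub_comm] at h5
    linarith
  constructor
  · rw [gm_ne_zero]
    filter_upwards [h1] with n hn h0
    rw [h0] at hn
    norm_num at hn
  · rw [gm_inv, mem_SS]
    intro ε hε
    filter_upwards [h1, two_le_exp hL hε] with n hn h2
    unfold Rinf
    push_cast
    rw [abs_inv]
    calc |(a n : ℝ)|⁻¹ ≤ (1 / 2 : ℝ)⁻¹ := inv_anti₀ (by norm_num) hn
      _ = 2 := by norm_num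
      _ ≤ Real.exp (ε * L n) := h2
      _ = Real.exp (-(0 - ε) * L n) := by ring_nf

lemma C1.inv {τ : ℝ} (hτ : 0 < τ) {g : GG} (hg : C1 L τ g) : C1 L τ g⁻¹ := by
  obtain ⟨h0, h1⟩ := hg.inv0 hL hτ
  unfold C1
  have h2 := neg_mem hL ((fil hL).mul_mem hg h1)
  rw [add_zero] at h2
  have e : -((g - 1) * g⁻¹) = g⁻¹ - 1 := by
    field_simp
    ring
  rwa [e] at h2

lemma C1.div {τ : ℝ} (hτ : 0 < τ) {g h : GG} (hg : C1 L τ g) (hh : C1 L τ h) :
    C1 L τ (g / h) := by
  rw [div_eq_mul_inv]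
  exact hg.mul hL hτ.le (hh.inv hL hτ)


omit hL in
/-- positive sequences with a given logarithm -/
lemma size_of_near {z : ℕ → ℚ} (hz : ∀ᶠ n in (UU : Filter ℕ), 0 < z n) {s : ℝ}
    (hs : near L (fun n => Real.log (z n)) s) :
    gm z ∈ SS L Rinf (-s) ∧ (gm z)⁻¹ ∈ SS L Rinf s := by
  constructor
  · rw [mem_SS]
    intro ε hε
    filter_upwards [hz, hs ε hε] with n h1 h2
    have h3 : (0 : ℝ) < z n := by exact_mod_cast h1
    unfold Rinf
    rw [abs_of_pos h3]
    conv_lhs => rw [← Real.exp_log h3]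
    apply Real.exp_le_exp.2
    have := (abs_le.1 h2).2
    linarith
  · rw [gm_inv, mem_SS]
    intro ε hε
    filter_upwards [hz, hs ε hε] with n h1 h2
    have h3 : (0 : ℝ) < z n := by exact_mod_cast h1
    unfold Rinf
    push_cast
    rw [abs_of_pos (inv_pos.2 h3)]
    conv_lhs => rw [← Real.exp_log h3]
    rw [← Real.exp_neg]
    apply Real.exp_le_exp.2
    have := (abs_le.1 h2).1
    linarith

/-- close positive germs have the same logarithmic size -/
lemma near_of_C1 {τ : ℝ} (hτ : 0 < τ) {w z : ℕ → ℚ} (hw : ∀ᶠ n in (UU : Filter ℕ), 0 < w n)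
    (hz : ∀ᶠ n in (UU : Filter ℕ), 0 < z n) (h : C1 L τ (gm w / gm z)) {s t : ℝ}
    (hs : near L (fun n => Real.log (w n)) s) (ht : near L (fun n => Real.log (z n)) t) :
    s = t := by
  have key : ∀ {w z : ℕ → ℚ}, (∀ᶠ n in (UU : Filter ℕ), 0 < w n) →
      (∀ᶠ n in (UU : Filter ℕ), 0 < z n) → C1 L τ (gm w / gm z) → ∀ {s t : ℝ},
      near L (fun n => Real.log (w n)) s → near L (fun n => Real.log (z n)) t → s ≤ t := by
    intro w z hw hz h s t hs ht
    have h1 := h.mem0 hL hτ.le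
    rw [gm_div, mem_SS] at h1
    apply le_of_forall_pos_le_add
    intro ε hε
    obtain ⟨n, a1, a2, a3, a4, a5, a6⟩ := (hw.and (hz.and ((h1 (ε / 3) (by positivity)).and
      ((hs (ε / 3) (by positivity)).and ((ht (ε / 3) (by positivity)).and
      (ev_of_atTop (hL.eventually_ge_atTop 1))))))).exists
    have b1 : (0 : ℝ) < w n := by exact_mod_cast a1
    have b2 : (0 : ℝ) < z n := by exact_mod_cast a2
    unfold Rinf at a3
    push_cast at a3
    rw [abs_of_pos (div_pos b1 b2)] at a3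
    have b3 := Real.log_le_log (div_pos b1 b2) a3
    rw [Real.log_exp, Real.log_div b1.ne' b2.ne'] at b3
    have b4 := (abs_le.1 a4).1
    have b5 := (abs_le.1 a5).2
    have b6 : (s - t - ε) * L n ≤ 0 := by linarith
    by_contra hcon
    push Not at hcon
    have : 0 < (s - t - ε) * L n := mul_pos (by linarith) (by linarith)
    linarith
  refine le_antisymm (key hw hz h hs ht) (key hz hw ?_ ht hs)
  have := h.inv hL hτ
  rwa [inv_div] at this

end

end Pool.Agent.N333.Ge
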