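import Pool.Agent.R473.DW.Main
import Pool.Agent.N333.Ge
import Pool.Agent.N333.Alg

/-!
# Integers close to sums of few units, as germs
-/

set_option autoImplicit false

namespace Pool.Agent.N333.Ge

open Filter Topology Pool.Agent.TH932.Abs Pool.Agent.TH932.Germs Pool.Agent.TH932.Chi
open Pool.Agent.TH796.AL Pool.Agent.TH932.Scale

variable {m : ℕ}

/-- `z` is close to a sum of `R` terms `a ∏ P j ^ e j` -/
def NB (B : Base m) (R : ℕ) (c D η Λ : ℝ) (z : ℚ) : Prop :=
  ∃ (a : Fin R → ℤ) (e : Fin R → Fin m → ℤ), (∀ i, |(a i : ℝ)| ≤ Real.exp D) ∧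
    (∀ i j, |(e i j : ℝ)| ≤ c * Λ) ∧
    |(z : ℝ) - ∑ i, (a i : ℝ) * ∏ j, (B.P j : ℝ) ^ e i j| ≤ Real.exp (-(η * Λ)) * z

variable {L : ℕ → ℝ}

lemma exists_lim' (hL : Tendsto L atTop atTop) {a : ℕ → ℝ} {A : ℝ}
    (h : ∀ᶠ n in (UU : Filter ℕ), |a n| ≤ A * L n) :
    ∃ t, |t| ≤ A ∧ near L a t := by
  have hLA : near L (fun n => A * L n) A := by
    intro ε hε
    filter_upwards [L_nonneg hL] with n hn
    rw [sub_self, abs_zero]
    positivity
  obtain ⟨t, h0, h1, h2⟩ := exists_st (L := L) hL (a := fun n => a n + A * L n) (A := 2 * A) (by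
    filter_upwards [h] with n hn
    have := abs_le.1 hn
    constructor <;> linarith [this.1, this.2])
  refine ⟨t - A, abs_le.2 ⟨by linarith, by linarith⟩, ?_⟩
  refine (h2.sub hLA).congr (Eventually.of_forall fun n => ?_)
  ring

/-- positive integers close to sums of few units are close to values of the group ring -/
theorem rep_NB (B : Base m) (hL : Tendsto L atTop atTop) {R : ℕ} {c η : ℝ} {D : ℕ → ℝ}
    (hD : near L D 0) {z : ℕ → ℚ} (hz : ∀ᶠ n in (UU : Filter ℕ), 0 < z n)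
    (h : ∀ᶠ n in (UU : Filter ℕ), NB B R c (D n) η (L n) (z n)) :
    ∃ f : Rg m hL, f.coeff.support.card ≤ R ∧ (∀ g, f.coeff g ≠ 0 → ∀ j, |g j| ≤ c) ∧
      C1 L η (ev B hL f / gm z) := by
  classical
  have hch : ∀ n, ∃ (a : Fin R → ℤ) (e : Fin R → Fin m → ℤ), NB B R c (D n) η (L n) (z n) →
      ((∀ i, |(a i : ℝ)| ≤ Real.exp (D n)) ∧ (∀ i j, |(e i j : ℝ)| ≤ c * L n) ∧
      |(z n : ℝ) - ∑ i, (a i : ℝ) * ∏ j, (B.P j : ℝ) ^ e i j| ≤ Real.exp (-(η * L n)) * z n) := by
    intro n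
    by_cases hn : NB B R c (D n) η (L n) (z n)
    · obtain ⟨a, e, h1⟩ := hn
      exact ⟨a, e, fun _ => h1⟩
    · exact ⟨fun _ => 0, fun _ _ => 0, fun h => absurd h hn⟩
  choose a e hae using hch
  have hneg : ∀ i, Negl L (fun n => a n i) := by
    intro i ε hε
    filter_upwards [h, hD ε hε] with n h1 h2
    refine ((hae n h1).1 i).trans (Real.exp_le_exp.2 ?_)
    have := (abs_le.1 h2).2
    linarith
  have hmem : ∀ i, gm (fun n => (a n i : ℚ)) ∈ KK L hL := fun i =>
    ⟨fun n => a n i, fun _ => 1, hneg i, Negl.one hL, by simp, by congr 1; funext n; simp⟩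
  have hlim : ∀ (i : Fin R) (j : Fin m), ∃ t, |t| ≤ c ∧ near L (fun n => (e n i j : ℝ)) t := by
    intro i j
    apply exists_lim' hL
    filter_upwards [h] with n h1 using (hae n h1).2.1 i j
  choose t ht1 ht2 using hlim
  have hκ : ∀ i : Fin R, ∃ κ : KK L hL, κ ≠ 0 ∧ gm (fun n => ∏ j, (B.P j : ℚ) ^ (e n i j)) =
      (κ : GG) * ch B hL (t i) := fun i =>
    exists_const (B := B) hL (t i) (fun n j => e n i j) (fun j => ht2 i j)
  choose κ hκ0 hκ using hκ
  refine ⟨∑ i, AddMonoidAlgebra.single (t i) ((⟨_, hmem i⟩ : KK L hL) * κ i), ?_, ?_, ?_⟩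
  · have h1 : (∑ i, AddMonoidAlgebra.single (t i) ((⟨_, hmem i⟩ : KK L hL) * κ i) :
        Rg m hL).coeff.support ⊆ Finset.univ.image t := by
      intro g hg
      rw [Finsupp.mem_support_iff] at hg
      by_contra hno
      apply hg
      rw [AddMonoidAlgebra.coeff_sum, Finsupp.finsetSum_apply]
      refine Finset.sum_eq_zero fun i _ => ?_
      rw [AddMonoidAlgebra.coeff_single, Finsupp.single_eq_of_ne]
      rintro rfl
      exact hno (Finset.mem_image_of_mem t (Finset.mem_univ i))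
    refine (Finset.card_le_card h1).trans (Finset.card_image_le.trans ?_)
    simp
  · intro g hg j
    have h1 : ∃ i, t i = g := by
      by_contra hno
      push Not at hno
      apply hg
      rw [AddMonoidAlgebra.coeff_sum, Finsupp.finsetSum_apply]
      refine Finset.sum_eq_zero fun i _ => ?_
      rw [AddMonoidAlgebra.coeff_single, Finsupp.single_eq_of_ne]
      exact fun h => hno i h.symm
    obtain ⟨i, rfl⟩ := h1
    exact ht1 i j
  · have hev : ev B hL (∑ i, AddMonoidAlgebra.single (t i) ((⟨_, hmem i⟩ : KK L hL) * κ i)) =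
        gm (fun n => ∑ i, (a n i : ℚ) * ∏ j, (B.P j : ℚ) ^ (e n i j)) := by
      rw [map_sum]
      have e1 : ∀ i, ev B hL (AddMonoidAlgebra.single (t i) ((⟨_, hmem i⟩ : KK L hL) * κ i)) =
          gm (fun n => (a n i : ℚ) * ∏ j, (B.P j : ℚ) ^ (e n i j)) := by
        intro i
        rw [ev_single, ← gm_mul, hκ]
        push_cast
        ring
      rw [Finset.sum_congr rfl fun i _ => e1 i, Pool.Agent.R473.DW.gm_s]
    rw [hev, gm_div]
    unfold C1
    rw [← gm_one, gm_sub, mem_SS]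
    intro ε hε
    filter_upwards [h, hz, L_nonneg hL] with n h1 h2 h3
    have h4 : (0 : ℝ) < z n := by exact_mod_cast h2
    have h5 := (hae n h1).2.2
    unfold Rinf
    push_cast
    have e2 : (∑ i, (a n i : ℝ) * ∏ j, (B.P j : ℝ) ^ (e n i j)) / (z n : ℝ) - 1 =
        -((z n : ℝ) - ∑ i, (a n i : ℝ) * ∏ j, (B.P j : ℝ) ^ (e n i j)) / z n := by
      field_simp
      ring
    rw [e2, abs_div, abs_neg, abs_of_pos h4, div_le_iff₀ h4]
    refine h5.trans (mul_le_mul_of_nonneg_right ?_ h4.le)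
    apply Real.exp_le_exp.2
    nlinarith

/-- the terms of size at least `exp (-α L)` -/
noncomputable def LP (B : Base m) {hL : Tendsto L atTop atTop} (f : Rg m hL) (α : ℝ) : Rg m hL :=
  by classical exact AddMonoidAlgebra.ofCoeff (f.coeff.filter fun g => lv B none g ≤ α)

lemma LP_coeff (B : Base m) {hL : Tendsto L atTop atTop} (f : Rg m hL) (α : ℝ) (g : Fin m → ℝ) :
    (LP B f α).coeff g ≠ 0 → f.coeff g ≠ 0 ∧ lv B none g ≤ α := by
  classical
  unfold LP
  intro h
  rw [AddMonoidAlgebra.coeff_ofCoeff, Finsupp.filter_apply] at h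
  by_cases h1 : lv B none g ≤ α
  · rw [if_pos h1] at h
    exact ⟨h, h1⟩
  · rw [if_neg h1] at h
    exact absurd rfl h

lemma LP_rest (B : Base m) {hL : Tendsto L atTop atTop} (f : Rg m hL) (α : ℝ) (g : Fin m → ℝ) :
    (f - LP B f α).coeff g ≠ 0 → f.coeff g ≠ 0 ∧ α < lv B none g := by
  classical
  unfold LP
  intro h
  rw [AddMonoidAlgebra.coeff_sub, Finsupp.sub_apply, AddMonoidAlgebra.coeff_ofCoeff,
    Finsupp.filter_apply] at h
  by_cases h1 : lv B none g ≤ α
  · rw [if_pos h1, sub_self] at h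
    exact absurd rfl h
  · rw [if_neg h1, sub_zero] at h
    exact ⟨h, not_le.1 h1⟩

lemma LP_card (B : Base m) {hL : Tendsto L atTop atTop} (f : Rg m hL) (α : ℝ) :
    (LP B f α).coeff.support.card ≤ f.coeff.support.card := by
  apply Finset.card_le_card
  intro g hg
  rw [Finsupp.mem_support_iff] at hg ⊢
  exact (LP_coeff B f α g hg).1

/-- the terms of a product -/
lemma coeff_mul_le (B : Base m) {hL : Tendsto L atTop atTop} {f h : Rg m hL} {α β : ℝ}
    (hf : ∀ g, f.coeff g ≠ 0 → lv B none g ≤ α) (hh : ∀ g, h.coeff g ≠ 0 → lv B none g ≤ β) :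
    ∀ g, (f * h).coeff g ≠ 0 → lv B none g ≤ α + β := by
  classical
  intro g hg
  have h1 : g ∈ (f * h).coeff.support := Finsupp.mem_support_iff.2 hg
  have h2 := AddMonoidAlgebra.support_coeff_mul_subset f h h1
  obtain ⟨a, ha, b, hb, rfl⟩ := Finset.mem_add.1 h2
  rw [lv_add]
  exact add_le_add (hf a (Finsupp.mem_support_iff.1 ha)) (hh b (Finsupp.mem_support_iff.1 hb))

lemma coeff_pow_le (B : Base m) {hL : Tendsto L atTop atTop} {f : Rg m hL} {α : ℝ}
    (hf : ∀ g, f.coeff g ≠ 0 → lv B none g ≤ α) (n : ℕ) :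
    ∀ g, (f ^ n).coeff g ≠ 0 → lv B none g ≤ n * α := by
  induction n with
  | zero =>
    intro g hg
    rw [pow_zero, AddMonoidAlgebra.one_def, AddMonoidAlgebra.coeff_single] at hg
    have : g = 0 := by
      by_contra hne
      exact hg (Finsupp.single_eq_of_ne hne)
    rw [this, lv_zero]
    simp
  | succ n ih =>
    intro g hg
    rw [pow_succ] at hg
    have := coeff_mul_le B ih hf g hg
    push_cast
    linarith

end Pool.Agent.N333.Ge
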