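import Pool.Agent.N333.Rp

/-!
# The key step: a quotient of two members of an approximate progression is close to a unit
-/

set_option autoImplicit false

namespace Pool.Agent.N333.Ge

open Filter Topology Pool.Agent.TH932.Abs Pool.Agent.TH932.Germs Pool.Agent.TH932.Chi
open Pool.Agent.TH796.AL Pool.Agent.TH932.Scale

/-- gaps in finite sets of real numbers -/
lemma gap (W : Finset ℝ) (τ : ℕ → ℝ) (hτ : StrictMono τ) (n : ℕ) (hW : W.card < n) :
    ∃ i < n, ∀ w ∈ W, w ≤ τ i ∨ τ (i + 1) < w := by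
  classical
  by_contra hcon
  push Not at hcon
  choose! w hw1 hw2 hw3 using hcon
  have h1 : (Finset.range n).card ≤ W.card := by
    refine Finset.card_le_card_of_injOn w (fun i hi => hw1 i (Finset.mem_range.1 hi)) ?_
    have key : ∀ i < n, ∀ j < n, i < j → w i < w j := by
      intro i hi j hj hij
      calc w i ≤ τ (i + 1) := hw3 i hi
        _ ≤ τ j := hτ.monotone hij
        _ < w j := hw2 j hj
    intro i hi j hj hij
    rw [Finset.mem_coe, Finset.mem_range] at hi hj
    rcases lt_trichotomy i j with h | h | h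
    · exact absurd hij (key i hi j hj h).ne
    · exact h
    · exact absurd hij (key j hj i hi h).ne'
  rw [Finset.card_range] at h1
  omega

variable {m : ℕ} {L : ℕ → ℝ}

instance (hL : Tendsto L atTop atTop) : CharZero (KK L hL) := by
  refine ⟨fun a b h => ?_⟩
  have h1 : (((a : KK L hL) : GG)) = ((b : KK L hL) : GG) := congrArg Subtype.val h
  have h2 : gm (fun _ => (a : ℚ)) = gm (fun _ => (b : ℚ)) := by
    have e : ∀ c : ℕ, (((c : KK L hL)) : GG) = gm (fun _ => (c : ℚ)) := fun c => rfl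
    rw [← e, ← e]
    exact h1
  rw [gm_eq] at h2
  obtain ⟨n, hn⟩ := h2.exists
  exact_mod_cast hn

theorem step (B : Base m) (hL : Tendsto L atTop atTop) {R : ℕ} {η : ℝ} (hη : 0 < η) (τ : ℕ → ℝ)
    (hτm : StrictMono τ) (hτ0 : 0 < τ 0) (hτR : ∀ i, (R + 1 : ℝ) * τ i < τ (i + 1))
    (hτη : τ (4 * R + 1) ≤ η) (z : Fin 4 → ℕ → ℚ)
    (hz : ∀ i, ∀ᶠ n in (UU : Filter ℕ), 0 < z i n) (s : Fin 4 → ℝ)
    (hs : ∀ i, near L (fun n => Real.log (z i n)) (s i)) (f : Fin 4 → Rg m hL)
    (hcard : ∀ i, (f i).coeff.support.card ≤ R)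
    (hf : ∀ i, C1 L η (ev B hL (f i) / gm (z i)))
    (hrel : C1 L η ((gm (z 0)) ^ R * gm (z 3) / ((gm (z 1)) ^ R * gm (z 2)))) :
    ∃ i < 4 * R + 1, ∃ (κ : KK L hL) (g0 g1 : Fin m → ℝ), κ ≠ 0 ∧ (f 0).coeff g0 ≠ 0 ∧
      (f 1).coeff g1 ≠ 0 ∧
      C1 L (τ (i + 1)) ((κ : GG) * ch B hL (g0 - g1) / (gm (z 0) / gm (z 1))) := by
  classical
  have F := fil hL
  have hz0 : ∀ i, gm (z i) ≠ 0 := by
    intro i
    rw [gm_ne_zero]
    filter_upwards [hz i] with n hn using hn.ne'
  have size : ∀ i, gm (z i) ∈ SS L Rinf (-s i) ∧ (gm (z i))⁻¹ ∈ SS L Rinf (s i) :=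
    fun i => size_of_near (hz i) (hs i)
  have hlow : ∀ i g, (f i).coeff g ≠ 0 → -s i ≤ lv B none g := by
    intro i g hg
    refine Pool.Agent.R473.DW.rep B hL none (f i) ?_ hg
    have h1 := F.mul_mem ((hf i).mem0 hL hη.le) (size i).1
    rw [div_mul_cancel₀ _ (hz0 i), zero_add] at h1
    exact h1
  obtain ⟨i0, hi0, hgap⟩ := gap
    (Finset.univ.biUnion fun i : Fin 4 => (f i).coeff.support.image fun g => lv B none g + s i)
    τ hτm (4 * R + 1) (by
      refine Nat.lt_succ_of_le (Finset.card_biUnion_le.trans ?_)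
      calc ∑ i : Fin 4, ((f i).coeff.support.image fun g => lv B none g + s i).card
          ≤ ∑ _i : Fin 4, R := Finset.sum_le_sum fun i _ => Finset.card_image_le.trans (hcard i)
        _ = 4 * R := by simp)
  set σ := τ (i0 + 1) with hσ
  have hσ0 : 0 < σ := lt_of_lt_of_le hτ0 (hτm.monotone (Nat.zero_le _))
  have hση : σ ≤ η := (hτm.monotone (by omega)).trans hτη
  set P : Fin 4 → Rg m hL := fun i => LP B (f i) (-s i + τ i0) with hP
  have hPle : ∀ i g, (P i).coeff g ≠ 0 → lv B none g ≤ -s i + τ i0 :=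
    fun i g hg => (LP_coeff B (f i) _ g hg).2
  have hrest : ∀ i, ev B hL (f i - P i) ∈ SS L Rinf (-s i + σ) := by
    intro i
    refine Pool.Agent.R473.DW.ev_size hL B (f i - P i) ?_
    intro g hg
    obtain ⟨h1, h2⟩ := LP_rest B (f i) _ g hg
    have h3 := hgap (lv B none g + s i) (by
      rw [Finset.mem_biUnion]
      exact ⟨i, Finset.mem_univ i, Finset.mem_image.2 ⟨g, Finsupp.mem_support_iff.2 h1, rfl⟩⟩)
    rcases h3 with h3 | h3
    · linarith
    · linarith
  have hy : ∀ i, C1 L σ (ev B hL (P i) / gm (z i)) := by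
    intro i
    have h1 : C1 L σ (ev B hL (f i) / gm (z i)) := (hf i).anti hL hση
    have h2 := F.mul_mem (hrest i) (size i).2
    rw [show -s i + σ + s i = σ by ring] at h2
    have h3 := sub_mem hL h1 h2
    unfold C1
    have e : ev B hL (f i) / gm (z i) - 1 - ev B hL (f i - P i) * (gm (z i))⁻¹ =
        ev B hL (P i) / gm (z i) - 1 := by
      rw [map_sub, div_eq_mul_inv, div_eq_mul_inv]
      ring
    rwa [e] at h3
  have hy0 : ∀ i, ev B hL (P i) ≠ 0 := by
    intro i h0
    have h1 := ((hy i).inv0 hL hσ0).1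
    rw [h0, zero_div] at h1
    exact h1 rfl
  have hP0 : ∀ i, P i ≠ 0 := by
    intro i h0
    apply hy0 i
    rw [h0, map_zero]
  -- the sizes are compatible
  have hsum : R * s 0 + s 3 = R * s 1 + s 2 := by
    have hpos : ∀ i j, ∀ᶠ n in (UU : Filter ℕ), 0 < (z i n) ^ R * z j n := by
      intro i j
      filter_upwards [hz i, hz j] with n h1 h2
      positivity
    have hnear : ∀ i j, near L (fun n => Real.log (((z i n) ^ R * z j n : ℚ))) (R * s i + s j) := by
      intro i j
      refine (((hs i).const_mul hL R).add (hs j)).congr ?_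
      filter_upwards [hz i, hz j] with n h1 h2
      have h3 : (0 : ℝ) < z i n := by exact_mod_cast h1
      have h4 : (0 : ℝ) < z j n := by exact_mod_cast h2
      push_cast
      rw [Real.log_mul (pow_ne_zero _ h3.ne') h4.ne', Real.log_pow]
    refine near_of_C1 hL hη (hpos 0 3) (hpos 1 2) ?_ (hnear 0 3) (hnear 1 2)
    have e : ∀ i j, gm (fun n => (z i n) ^ R * z j n) = (gm (z i)) ^ R * gm (z j) := by
      intro i j
      rw [gm_pow, gm_mul]
    rw [e, e]
    exact hrel
  -- the identity in the group ring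
  have hid : P 0 ^ R * P 3 = P 1 ^ R * P 2 := by
    rw [← sub_eq_zero]
    by_contra hne
    obtain ⟨g, hg⟩ : ∃ g, (P 0 ^ R * P 3 - P 1 ^ R * P 2).coeff g ≠ 0 := by
      by_contra hno
      push Not at hno
      apply hne
      apply AddMonoidAlgebra.coeff_injective
      ext g
      exact congrArg _ (hno g)
    have hup : lv B none g ≤ -(R * s 0 + s 3) + (R + 1) * τ i0 := by
      rw [AddMonoidAlgebra.coeff_sub, Finsupp.sub_apply] at hg
      by_cases h1 : (P 0 ^ R * P 3).coeff g = 0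
      · have h2 : (P 1 ^ R * P 2).coeff g ≠ 0 := by
          intro h2
          rw [h1, h2, sub_zero] at hg
          exact hg rfl
        have h3 := coeff_mul_le B (coeff_pow_le B (hPle 1) R) (hPle 2) g h2
        rw [hsum]
        linarith
      · have h3 := coeff_mul_le B (coeff_pow_le B (hPle 0) R) (hPle 3) g h1
        linarith
    have hdown : -(R * s 0 + s 3) + σ ≤ lv B none g := by
      refine Pool.Agent.R473.DW.rep B hL none _ ?_ hg
      rw [map_sub, map_mul, map_mul, map_pow, map_pow]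
      have h1 : C1 L σ (ev B hL (P 0) ^ R * ev B hL (P 3) /
          (ev B hL (P 1) ^ R * ev B hL (P 2))) := by
        have a1 := ((hy 0).pow hL hσ0.le R).mul hL hσ0.le (hy 3)
        have a2 := ((hy 1).pow hL hσ0.le R).mul hL hσ0.le (hy 2)
        have a3 := (a1.div hL hσ0 a2).mul hL hσ0.le (hrel.anti hL hση)
        have e : (ev B hL (P 0) / gm (z 0)) ^ R * (ev B hL (P 3) / gm (z 3)) /
            ((ev B hL (P 1) / gm (z 1)) ^ R * (ev B hL (P 2) / gm (z 2))) *
            ((gm (z 0)) ^ R * gm (z 3) / ((gm (z 1)) ^ R * gm (z 2))) =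
            ev B hL (P 0) ^ R * ev B hL (P 3) / (ev B hL (P 1) ^ R * ev B hL (P 2)) := by
          have b0 := hz0 0
          have b1 := hz0 1
          have b2 := hz0 2
          have b3 := hz0 3
          have c1 := hy0 1
          have c2 := hy0 2
          rw [div_pow, div_pow]
          field_simp
        rwa [e] at a3
      have h2 : ∀ i, ev B hL (P i) ∈ SS L Rinf (-s i) := by
        intro i
        have a1 := F.mul_mem ((hy i).mem0 hL hσ0.le) (size i).1
        rwa [div_mul_cancel₀ _ (hz0 i), zero_add] at a1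
      have h3 : ev B hL (P 1) ^ R * ev B hL (P 2) ∈ SS L Rinf (-(R * s 0 + s 3)) := by
        have a1 := F.mul_mem (F.pow_mem (h2 1) R) (h2 2)
        refine F.anti (le_of_eq ?_) a1
        rw [hsum]
        ring
      have h4 := F.mul_mem h3 h1
      have e : ev B hL (P 1) ^ R * ev B hL (P 2) * (ev B hL (P 0) ^ R * ev B hL (P 3) /
          (ev B hL (P 1) ^ R * ev B hL (P 2)) - 1) =
          ev B hL (P 0) ^ R * ev B hL (P 3) - ev B hL (P 1) ^ R * ev B hL (P 2) := by
        have c1 := hy0 1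
        have c2 := hy0 2
        field_simp
      rw [e] at h4
      exact h4
    have := hτR i0
    linarith
  obtain ⟨κ, v, hκ, hv⟩ := Pool.Agent.N333.Alg.unit_grp (hP0 0) (hP0 1) (hP0 2) (hP0 3)
    (by rw [hid]) ((LP_card B (f 2) _).trans (hcard 2)) ((LP_card B (f 3) _).trans (hcard 3))
  obtain ⟨g0, hg0⟩ : ∃ g, (P 0).coeff g ≠ 0 := by
    by_contra hno
    push Not at hno
    apply hP0 0
    apply AddMonoidAlgebra.coeff_injective
    ext g
    exact congrArg _ (hno g)
  have hg1 : (P 1).coeff (-v + g0) ≠ 0 := by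
    intro h0
    apply hg0
    rw [hv]
    have e1 : (AddMonoidAlgebra.single v κ * P 1).coeff g0 = κ * (P 1).coeff (-v + g0) :=
      AddMonoidAlgebra.coeff_single_mul_eq_mul_coeff _ (fun m' _ =>
        ⟨fun h => by rw [← h]; abel, fun h => by rw [h]; abel⟩)
    rw [e1, h0, mul_zero]
  refine ⟨i0, hi0, κ, g0, -v + g0, hκ, (LP_coeff B (f 0) _ _ hg0).1, (LP_coeff B (f 1) _ _ hg1).1,
    ?_⟩
  have e1 : g0 - (-v + g0) = v := by abel
  rw [e1]
  have h1 := (hy 0).div hL hσ0 (hy 1)
  have e2 : ev B hL (P 0) = (κ : GG) * ch B hL v * ev B hL (P 1) := by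
    conv_lhs => rw [hv]
    rw [map_mul, ev_single]
  rw [e2] at h1
  have e3 : (κ : GG) * ch B hL v * ev B hL (P 1) / gm (z 0) / (ev B hL (P 1) / gm (z 1)) =
      (κ : GG) * ch B hL v / (gm (z 0) / gm (z 1)) := by
    have b0 := hz0 0
    have b1 := hz0 1
    have c1 := hy0 1
    field_simp
  rwa [e3] at h1

end Pool.Agent.N333.Ge
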