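import Pool.Agent.N333.At
import Pool.Agent.TH842.A3.Final

/-!
# From sequences to expansions of real algebraic irrationals
-/

set_option autoImplicit false

namespace Pool.Agent.N333.Tr

open Finset Polynomial Filter Topology
open Pool.Agent.H393R2.DC (S Pol V Dn digit dlt)
open Pool.Agent.W44 (exists_monic)
open Pool.Agent.N333.Ge (Nr)

open Classical in
theorem growth (f : ℤ[X]) (hf : f.Monic) (hirr : Irreducible f) (hd2 : 2 ≤ f.natDegree) (b : ℕ)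
    (hb : 2 ≤ b) (t C0 : ℝ) (ht : (f.map (Int.castRingHom ℝ)).eval t = 0)
    (U : ℕ → ℤ) (hU : ∀ K, |(U K : ℝ) - (b : ℝ) ^ K * t| ≤ C0)
    (PS : Finset ℕ) (hPS : ∀ p ∈ PS, p.Prime) (R : ℕ) (hR : 1 ≤ R) (cc η : ℝ) (hη : 0 < η) :
    ∃ c3 : ℝ, 0 < c3 ∧ ∃ δ : ℝ, 0 < δ ∧ ∃ N0 : ℕ, ∀ N : ℕ, N0 ≤ N → ∀ τ : ℝ,
      Real.log (Real.log N) ≤ τ → τ * τ ≤ Real.log N → ((Dn b U N).card : ℝ) < Real.exp τ →
      c3 * (Real.log N) ^ 3 / (τ ^ 4 * Real.log (Real.log N)) ≤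
        (((Dn b U N).filter (fun k => N ≤ k * k ∧
          ¬ Nr PS R cc (δ * Real.log N) η (Real.log N) k)).card : ℝ) := by
  obtain ⟨c, g, hSP⟩ := Pool.Agent.TH842.A3.sp f f.natDegree rfl hd2 b U
    (fun q _ G N R hbq hs hR hbad =>
      Pool.Agent.TH761.A3Frob.s_dil f hf _ rfl hd2 b G q hbq hs N R hR hbad)
    (Pool.Agent.TH761.A3Frob.sep_of_large f hf hirr)
  exact Pool.Agent.N333.At.asymT f hf _ rfl hd2 b hb t C0 ht U hU
    (Pool.Agent.H323R2.NT.supply f hf hirr hd2 b (by omega)) c g _ (Nat.factorial_pos _) hSP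
    PS hPS R hR cc η hη

open Classical in
theorem main (x : ℝ) (halg : IsAlgebraic ℚ x) (hirr : Irrational x) (b : ℕ) (hb : 2 ≤ b)
    (C0 : ℝ) (Y : ℕ → ℤ) (hY : ∀ K, |(Y K : ℝ) - (b : ℝ) ^ K * x| ≤ C0)
    (PS : Finset ℕ) (hPS : ∀ p ∈ PS, p.Prime) (R : ℕ) (hR : 1 ≤ R) (cc η : ℝ) (hη : 0 < η) :
    ∃ c3 : ℝ, 0 < c3 ∧ ∃ δ : ℝ, 0 < δ ∧ ∃ N0 : ℕ, ∀ N : ℕ, N0 ≤ N → ∀ τ : ℝ,
      Real.log (Real.log N) ≤ τ → τ * τ ≤ Real.log N → ((Dn b Y N).card : ℝ) + 1 < Real.exp τ →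
      c3 * (Real.log N) ^ 3 / (τ ^ 4 * Real.log (Real.log N)) ≤
        (((Dn b Y N).filter (fun k => N ≤ k * k ∧
          ¬ Nr PS R cc (δ * Real.log N) η (Real.log N) k)).card : ℝ) := by
  obtain ⟨S, hS, f, hm, hfi, hd, hroot⟩ := exists_monic _ halg hirr
  obtain ⟨U, hU⟩ : ∃ U : ℕ → ℤ, U = fun n => S * Y n := ⟨_, rfl⟩
  have hUa : ∀ n, |(U n : ℝ) - (b : ℝ) ^ n * (S * x)| ≤ |(S : ℝ)| * C0 := by
    intro n
    have e : (U n : ℝ) - (b : ℝ) ^ n * (S * x) = S * ((Y n : ℝ) - (b : ℝ) ^ n * x) := by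
      rw [hU]; push_cast; ring
    rw [e, abs_mul]
    exact mul_le_mul_of_nonneg_left (hY n) (by positivity)
  obtain ⟨c3, hc3, δ, hδ, N0, hN0⟩ := growth f hm hfi hd b hb _ _ hroot U hUa PS hPS R hR cc η hη
  have hstep : ∀ N k, k ∈ Dn b U N → k ≠ 0 → k ∈ Dn b Y N := by
    intro N k hk hk0
    unfold Dn at hk ⊢
    rw [Finset.mem_filter] at hk ⊢
    cases k with
    | zero => exact absurd rfl hk0
    | succ k =>
      refine ⟨hk.1, fun h => hk.2 ?_⟩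
      simp only [dlt, hU] at h ⊢
      have h1 : Y (k + 1) = b * Y k := by linarith
      rw [h1]
      ring
  refine ⟨c3, hc3, δ, hδ, max N0 1, fun N hN τ h1 h2 h3 => ?_⟩
  have hN1 : 1 ≤ N := le_trans (le_max_right _ _) hN
  have hsub : Dn b U N ⊆ insert 0 (Dn b Y N) := by
    intro k hk
    rw [Finset.mem_insert]
    by_cases hk0 : k = 0
    · exact Or.inl hk0
    · exact Or.inr (hstep N k hk hk0)
  have hc := (Finset.card_le_card hsub).trans (Finset.card_insert_le _ _)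
  have hc' : ((Dn b U N).card : ℝ) ≤ (Dn b Y N).card + 1 := by exact_mod_cast hc
  refine (hN0 N (le_trans (le_max_left _ _) hN) τ h1 h2 (by linarith)).trans ?_
  have hle : ((Dn b U N).filter (fun k => N ≤ k * k ∧
      ¬ Nr PS R cc (δ * Real.log N) η (Real.log N) k)).card ≤ ((Dn b Y N).filter (fun k => N ≤ k * k ∧
      ¬ Nr PS R cc (δ * Real.log N) η (Real.log N) k)).card := by
    apply Finset.card_le_card
    intro k hk
    rw [Finset.mem_filter] at hk ⊢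
    refine ⟨hstep N k hk.1 ?_, hk.2⟩
    rintro rfl
    have := hk.2.1
    omega
  exact_mod_cast hle

open Classical in
/-- expansions with bounded integer digits -/
theorem expans (x : ℝ) (halg : IsAlgebraic ℚ x) (hirr : Irrational x) (b : ℕ) (hb : 2 ≤ b)
    (g : ℕ → ℤ) (M : ℤ) (hg : ∀ k, |g k| ≤ M)
    (hsum : HasSum (fun k : ℕ => (g k : ℝ) / (b : ℝ) ^ k) x)
    (PS : Finset ℕ) (hPS : ∀ p ∈ PS, p.Prime) (R : ℕ) (hR : 1 ≤ R) (cc η : ℝ) (hη : 0 < η) :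
    ∃ c3 : ℝ, 0 < c3 ∧ ∃ δ : ℝ, 0 < δ ∧ ∃ N0 : ℕ, ∀ N : ℕ, N0 ≤ N → ∀ τ : ℝ,
      Real.log (Real.log N) ≤ τ → τ * τ ≤ Real.log N →
      (((Icc 1 N).filter (fun k => g k ≠ 0)).card : ℝ) + 2 < Real.exp τ →
      c3 * (Real.log N) ^ 3 / (τ ^ 4 * Real.log (Real.log N)) ≤
        (((Icc 1 N).filter (fun k => g k ≠ 0 ∧ N ≤ k * k ∧
          ¬ Nr PS R cc (δ * Real.log N) η (Real.log N) k)).card : ℝ) := by
  have hb2 : (2 : ℝ) ≤ b := by exact_mod_cast hb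
  have hb0 : (0 : ℝ) < b := by linarith
  obtain ⟨W, hW⟩ : ∃ W : ℕ → ℤ, W = fun n => ∑ k ∈ range (n + 1), g k * (b : ℤ) ^ (n - k) :=
    ⟨_, rfl⟩
  have hWs : ∀ n, W (n + 1) = b * W n + g (n + 1) := by
    intro n
    simp only [hW]
    rw [Finset.sum_range_succ, Finset.mul_sum]
    congr 1
    · apply Finset.sum_congr rfl
      intro k hk
      have : k ≤ n := Nat.lt_succ_iff.1 (Finset.mem_range.1 hk)
      rw [show n + 1 - k = (n - k) + 1 by omega, pow_succ]; ring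
    · simp
  have hWa : ∀ n, |(W n : ℝ) - (b : ℝ) ^ n * x| ≤ M := by
    intro n
    have h1 := (hasSum_nat_add_iff' (n + 1)).2 hsum
    have h2 := h1.mul_left ((b : ℝ) ^ n)
    have h3 : (b : ℝ) ^ n * (x - ∑ i ∈ range (n + 1), (g i : ℝ) / (b : ℝ) ^ i) =
        (b : ℝ) ^ n * x - W n := by
      rw [mul_sub]
      congr 1
      simp only [hW]
      push_cast
      rw [Finset.mul_sum]
      apply Finset.sum_congr rfl
      intro k hk
      have hk' : k ≤ n := Nat.lt_succ_iff.1 (Finset.mem_range.1 hk)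
      have e : (b : ℝ) ^ n = (b : ℝ) ^ (n - k) * (b : ℝ) ^ k := by rw [← pow_add]; congr 1; omega
      rw [e]
      have : (b : ℝ) ^ k ≠ 0 := by positivity
      field_simp
    rw [h3] at h2
    have h4 := HasSum.norm_le_of_bounded h2 (hasSum_geometric_two' (M : ℝ)) (by
      intro k
      have hgk : |(g (k + (n + 1)) : ℝ)| ≤ M := by exact_mod_cast hg (k + (n + 1))
      have hM0 : (0 : ℝ) ≤ M := (abs_nonneg _).trans hgk
      have e : (b : ℝ) ^ n * ((g (k + (n + 1)) : ℝ) / (b : ℝ) ^ (k + (n + 1))) =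
          (g (k + (n + 1)) : ℝ) / (b : ℝ) ^ (k + 1) := by
        rw [show k + (n + 1) = n + (k + 1) by ring, pow_add]
        field_simp
      rw [e, Real.norm_eq_abs, abs_div, abs_of_pos (show (0 : ℝ) < (b : ℝ) ^ (k + 1) by positivity),
        div_div]
      apply div_le_div₀ hM0 hgk (by positivity)
      rw [← pow_succ']
      exact pow_le_pow_left₀ (by norm_num) hb2 _)
    rw [Real.norm_eq_abs, abs_sub_comm] at h4
    exact h4
  obtain ⟨c3, hc3, δ, hδ, N0, hN0⟩ := main x halg hirr b hb M W hWa PS hPS R hR cc η hη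
  have hstep : ∀ N k, k ∈ Dn b W N → k ≠ 0 → k ∈ (Icc 1 N).filter (fun k => g k ≠ 0) := by
    intro N k hk hk0
    unfold Dn at hk
    rw [Finset.mem_filter, Finset.mem_range] at hk
    rw [Finset.mem_filter, Finset.mem_Icc]
    cases k with
    | zero => exact absurd rfl hk0
    | succ k =>
      refine ⟨⟨by omega, by omega⟩, fun h => hk.2 ?_⟩
      simp only [dlt]
      rw [hWs k, h]
      ring
  refine ⟨c3, hc3, δ, hδ, max N0 1, fun N hN τ h1 h2 h3 => ?_⟩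
  have hN1 : 1 ≤ N := le_trans (le_max_right _ _) hN
  have hsub : Dn b W N ⊆ insert 0 ((Icc 1 N).filter (fun k => g k ≠ 0)) := by
    intro k hk
    rw [Finset.mem_insert]
    by_cases hk0 : k = 0
    · exact Or.inl hk0
    · exact Or.inr (hstep N k hk hk0)
  have hc := (Finset.card_le_card hsub).trans (Finset.card_insert_le _ _)
  have hc' : ((Dn b W N).card : ℝ) ≤ ((Icc 1 N).filter (fun k => g k ≠ 0)).card + 1 := by
    exact_mod_cast hc
  refine (hN0 N (le_trans (le_max_left _ _) hN) τ h1 h2 (by linarith)).trans ?_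
  have hle : ((Dn b W N).filter (fun k => N ≤ k * k ∧
      ¬ Nr PS R cc (δ * Real.log N) η (Real.log N) k)).card ≤
      ((Icc 1 N).filter (fun k => g k ≠ 0 ∧ N ≤ k * k ∧
      ¬ Nr PS R cc (δ * Real.log N) η (Real.log N) k)).card := by
    apply Finset.card_le_card
    intro k hk
    rw [Finset.mem_filter] at hk
    have hk0 : k ≠ 0 := by
      rintro rfl
      have := hk.2.1
      omega
    have h5 := hstep N k hk.1 hk0
    rw [Finset.mem_filter] at h5 ⊢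
    exact ⟨h5.1, h5.2, hk.2⟩
  exact_mod_cast hle

/-- linear combinations of the shifts of an expansion -/
lemma shifts (x : ℝ) (b : ℕ) (hb : 2 ≤ b) (g : ℕ → ℤ) (M : ℤ) (hg : ∀ k, |g k| ≤ M)
    (hsum : HasSum (fun k : ℕ => (g k : ℝ) / (b : ℝ) ^ k) x) (m : ℕ) (q : ℕ → ℤ) (e : ℤ) :
    ∃ (r : ℚ) (M' : ℤ), (∀ k, |∑ j ∈ range (m + 1), q j * g (k + j) - e| ≤ M') ∧
      HasSum (fun k : ℕ => ((∑ j ∈ range (m + 1), q j * g (k + j) - e : ℤ) : ℝ) / (b : ℝ) ^ k)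
        (((∑ j ∈ range (m + 1), q j * (b : ℤ) ^ j : ℤ) : ℝ) * x + r) := by
  have hb0 : (0 : ℝ) < b := by positivity
  have hb2 : (2 : ℝ) ≤ b := by exact_mod_cast hb
  refine ⟨-∑ j ∈ range (m + 1), (q j : ℚ) * (b : ℚ) ^ j * (∑ i ∈ range j, (g i : ℚ) / (b : ℚ) ^ i)
    - e * (1 - (b : ℚ)⁻¹)⁻¹, ∑ j ∈ range (m + 1), |q j| * M + |e|, ?_, ?_⟩
  · intro k
    refine (abs_sub _ _).trans ?_
    refine add_le_add ((Finset.abs_sum_le_sum_abs _ _).trans ?_) le_rfl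
    apply Finset.sum_le_sum
    intro j _
    rw [abs_mul]
    exact mul_le_mul_of_nonneg_left (hg _) (abs_nonneg _)
  · have h1 : ∀ j : ℕ, HasSum (fun k : ℕ => (g (k + j) : ℝ) / (b : ℝ) ^ k)
        ((b : ℝ) ^ j * (x - ∑ i ∈ range j, (g i : ℝ) / (b : ℝ) ^ i)) := by
      intro j
      have h2 := ((hasSum_nat_add_iff' j).2 hsum).mul_left ((b : ℝ) ^ j)
      refine h2.congr_fun ?_
      intro k
      rw [pow_add]
      field_simp
    have h3 : HasSum (fun k : ℕ => ∑ j ∈ range (m + 1), (q j : ℝ) * ((g (k + j) : ℝ) / (b : ℝ) ^ k))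
        (∑ j ∈ range (m + 1), (q j : ℝ) * ((b : ℝ) ^ j * (x - ∑ i ∈ range j, (g i : ℝ) / (b : ℝ) ^ i))) :=
      hasSum_sum (fun j _ => (h1 j).mul_left _)
    have h4 : HasSum (fun k : ℕ => (e : ℝ) * ((b : ℝ)⁻¹) ^ k) ((e : ℝ) * (1 - (b : ℝ)⁻¹)⁻¹) :=
      (hasSum_geometric_of_lt_one (by positivity) (by
        rw [inv_lt_one₀ hb0]; linarith)).mul_left _
    have h5 := h3.sub h4
    have e1 : (((∑ j ∈ range (m + 1), q j * (b : ℤ) ^ j : ℤ) : ℝ) * x +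
        ((-∑ j ∈ range (m + 1), (q j : ℚ) * (b : ℚ) ^ j * (∑ i ∈ range j, (g i : ℚ) / (b : ℚ) ^ i)
          - e * (1 - (b : ℚ)⁻¹)⁻¹ : ℚ) : ℝ)) =
        (∑ j ∈ range (m + 1), (q j : ℝ) * ((b : ℝ) ^ j *
          (x - ∑ i ∈ range j, (g i : ℝ) / (b : ℝ) ^ i))) - (e : ℝ) * (1 - (b : ℝ)⁻¹)⁻¹ := by
      push_cast
      rw [Finset.sum_mul]
      have e2 : ∑ j ∈ range (m + 1), (q j : ℝ) * ((b : ℝ) ^ j *
          (x - ∑ i ∈ range j, (g i : ℝ) / (b : ℝ) ^ i)) =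
          ∑ j ∈ range (m + 1), (q j : ℝ) * (b : ℝ) ^ j * x -
          ∑ j ∈ range (m + 1), (q j : ℝ) * (b : ℝ) ^ j * ∑ i ∈ range j, (g i : ℝ) / (b : ℝ) ^ i := by
        rw [← Finset.sum_sub_distrib]
        apply Finset.sum_congr rfl
        intro j _
        ring
      rw [e2]
      ring
    rw [e1]
    refine h5.congr_fun ?_
    intro k
    push_cast
    rw [sub_div, Finset.sum_div, inv_pow, div_eq_mul_inv (e : ℝ)]
    congr 1
    apply Finset.sum_congr rfl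
    intro j _
    ring

end Pool.Agent.N333.Tr
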